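import Pool.Agent.Lib.MP_36627d_co.Trans

/-!
# The ring `A(Δ)`: reduction of levelness to the statements about cone configurations
-/

open Finset Module MvPolynomial

namespace Pool.Agent.Lib.MP_36627d_co

open scoped Classical

variable {n : ℕ}

theorem ite_inst {c : Prop} (i1 i2 : Decidable c) (x y : ℝ) :
    @ite ℝ c i1 x y = @ite ℝ c i2 x y := by
  by_cases h : c
  · rw [if_pos h, if_pos h]
  · rw [if_neg h, if_neg h]

theorem insert_inst {α : Type*} (i1 i2 : DecidableEq α) (a : α) (s : Finset α) :
    @Insert.insert α (Finset α) (@Finset.instInsert α i1) a s =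
      @Insert.insert α (Finset α) (@Finset.instInsert α i2) a s := by
  rw [Subsingleton.elim i1 i2]

/-- the linear form with values of the functional `l` as coefficients -/
noncomputable def linForm (p : Fin n → Fin 4 → ℝ) (l : ((Fin 4 → ℝ) × ℝ) →ₗ[ℝ] ℝ) :
    MvPolynomial (Fin n) ℝ := ∑ v, C (l (hom p v)) * X v

theorem coeff_X_one (r : MvPolynomial (Fin n) ℝ) (a v : Fin n) :
    coeff (Finsupp.single a 1) (r * X v) = if v = a then coeff 0 r else 0 := by
  rw [coeff_mul_X']
  by_cases h : v = a
  · subst h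
    simp
  · rw [if_neg h, if_neg]
    simp only [Finsupp.mem_support_iff, ne_eq, not_not]
    rw [Finsupp.single_apply, if_neg (fun h' => h h'.symm)]

theorem coeff_X_sq (r : MvPolynomial (Fin n) ℝ) (a v : Fin n) :
    coeff (Finsupp.single a 2) (r * X v) =
      if v = a then coeff (Finsupp.single a 1) r else 0 := by
  rw [coeff_mul_X']
  by_cases h : v = a
  · subst h
    have h1 : v ∈ (Finsupp.single v 2 : Fin n →₀ ℕ).support := by simp
    rw [if_pos h1, if_pos rfl, ← Finsupp.single_tsub]
  · rw [if_neg h, if_neg]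
    simp only [Finsupp.mem_support_iff, ne_eq, not_not]
    rw [Finsupp.single_apply, if_neg (fun h' => h h'.symm)]

theorem coeff_X_two (r : MvPolynomial (Fin n) ℝ) {a b : Fin n} (hab : a ≠ b) (v : Fin n) :
    coeff (Finsupp.single a 1 + Finsupp.single b 1) (r * X v) =
      (if v = a then coeff (Finsupp.single b 1) r else 0) +
      (if v = b then coeff (Finsupp.single a 1) r else 0) := by
  rw [coeff_mul_X']
  by_cases h : v = a
  · subst h
    have h1 : v ∈ (Finsupp.single v 1 + Finsupp.single b 1 : Fin n →₀ ℕ).support := by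
      simp [Finsupp.single_apply]
    rw [if_pos h1, if_pos rfl, if_neg hab, add_tsub_cancel_left, add_zero]
  · by_cases h' : v = b
    · subst h'
      have h1 : v ∈ (Finsupp.single a 1 + Finsupp.single v 1 : Fin n →₀ ℕ).support := by
        simp [Finsupp.single_apply]
      rw [if_pos h1, if_neg h, if_pos rfl, add_tsub_cancel_right, zero_add]
    · rw [if_neg h, if_neg h', if_neg, add_zero]
      simp only [Finsupp.mem_support_iff, ne_eq, not_not, Finsupp.add_apply,
        Finsupp.single_apply]
      rw [if_neg (fun h1 => h h1.symm), if_neg (fun h1 => h' h1.symm), add_zero]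

theorem coeff_mul_linForm (p : Fin n → Fin 4 → ℝ) (l : ((Fin 4 → ℝ) × ℝ) →ₗ[ℝ] ℝ)
    (r : MvPolynomial (Fin n) ℝ) (m : Fin n →₀ ℕ) :
    coeff m (r * linForm p l) = ∑ v, l (hom p v) * coeff m (r * X v) := by
  rw [linForm, Finset.mul_sum, coeff_sum]
  refine Finset.sum_congr rfl fun v _ => ?_
  have : r * (C (l (hom p v)) * X v) = C (l (hom p v)) * (r * X v) := by ring
  rw [this, coeff_C_mul]

theorem theta_eq (p : Fin n → Fin 4 → ℝ) (i : Fin 4) :
    theta p i = linForm p (fct (Pi.single i 1) 0) := by
  unfold theta linForm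
  refine Finset.sum_congr rfl fun v _ => ?_
  congr 2
  rw [hom, fct_apply]
  simp [Pi.single_apply]

theorem cc_eq (p : Fin n → Fin 4 → ℝ) : cc n = linForm p (fct 0 1) := by
  unfold cc linForm
  refine Finset.sum_congr rfl fun v _ => ?_
  rw [hom, fct_apply]
  simp

theorem linForm_eq (p : Fin n → Fin 4 → ℝ) (g : Fin 4 → ℝ) (b : ℝ) :
    linForm p (fct g b) = ∑ i, C (g i) * theta p i + C b * cc n := by
  unfold linForm theta cc
  simp only [Finset.mul_sum]
  rw [Finset.sum_comm, ← Finset.sum_add_distrib]
  refine Finset.sum_congr rfl fun v _ => ?_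
  rw [hom, fct_apply, map_add, map_sum, add_mul, Finset.sum_mul]
  congr 1
  · refine Finset.sum_congr rfl fun i _ => ?_
    rw [map_mul]; ring
  · rw [mul_one]

theorem linForm_mem (p : Fin n → Fin 4 → ℝ) (l : ((Fin 4 → ℝ) × ℝ) →ₗ[ℝ] ℝ) :
    linForm p l ∈ idealA p := by
  obtain ⟨g, b, rfl⟩ := exists_fct l
  rw [linForm_eq]
  have h1 : ∀ i, theta p i ∈ idealA p := fun i =>
    Ideal.mem_sup_right (Ideal.subset_span (Or.inl ⟨i, rfl⟩))
  have h2 : cc n ∈ idealA p := Ideal.mem_sup_right (Ideal.subset_span (Or.inr rfl))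
  exact Ideal.add_mem _ (Ideal.sum_mem _ fun i _ => Ideal.mul_mem_left _ _ (h1 i))
    (Ideal.mul_mem_left _ _ h2)

/-- Coefficients of degree at most two of elements of `idealA p`. -/
def CoeffData (p : Fin n → Fin 4 → ℝ) (q : MvPolynomial (Fin n) ℝ) : Prop :=
  (∃ h : ((Fin 4 → ℝ) × ℝ) →ₗ[ℝ] ℝ, ∀ a, coeff (Finsupp.single a 1) q = h (hom p a)) ∧
  ∃ ψ : Fin n → ((Fin 4 → ℝ) × ℝ) →ₗ[ℝ] ℝ,
    (∀ a b, a ≠ b → PFace (hom p) {a, b} →
      coeff (Finsupp.single a 1 + Finsupp.single b 1) q = ψ a (hom p b) + ψ b (hom p a)) ∧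
    ∀ a, coeff (Finsupp.single a 2) q = ψ a (hom p a)

theorem coeffData_zero (p : Fin n → Fin 4 → ℝ) : CoeffData p 0 :=
  ⟨⟨0, fun a => by simp⟩, 0, fun a b _ _ => by simp, fun a => by simp⟩

theorem coeffData_add {p : Fin n → Fin 4 → ℝ} {q q' : MvPolynomial (Fin n) ℝ}
    (h : CoeffData p q) (h' : CoeffData p q') : CoeffData p (q + q') := by
  obtain ⟨⟨f, hf⟩, ψ, h1, h2⟩ := h
  obtain ⟨⟨f', hf'⟩, ψ', h1', h2'⟩ := h'
  refine ⟨⟨f + f', fun a => ?_⟩, ψ + ψ', fun a b hab hF => ?_, fun a => ?_⟩
  · rw [coeff_add, hf, hf', LinearMap.add_apply]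
  · rw [coeff_add, h1 a b hab hF, h1' a b hab hF]
    simp only [Pi.add_apply, LinearMap.add_apply]
    ring
  · rw [coeff_add, h2, h2']
    simp only [Pi.add_apply, LinearMap.add_apply]

theorem coeffData_linForm (p : Fin n → Fin 4 → ℝ) (l : ((Fin 4 → ℝ) × ℝ) →ₗ[ℝ] ℝ)
    (r : MvPolynomial (Fin n) ℝ) : CoeffData p (r * linForm p l) := by
  refine ⟨⟨coeff 0 r • l, fun a => ?_⟩, fun a => coeff (Finsupp.single a 1) r • l,
    fun a b hab _ => ?_, fun a => ?_⟩
  · rw [coeff_mul_linForm]
    simp only [coeff_X_one]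
    simp [mul_comm]
  · rw [coeff_mul_linForm]
    simp only [coeff_X_two r hab, mul_add, Finset.sum_add_distrib]
    simp only [mul_ite, mul_zero, Finset.sum_ite_eq', Finset.mem_univ, if_true,
      LinearMap.smul_apply, smul_eq_mul]
    ring
  · rw [coeff_mul_linForm]
    simp only [coeff_X_sq]
    simp [mul_comm]

/-- coefficients of multiples of squarefree monomials -/
theorem coeff_mul_prod_eq_zero (r : MvPolynomial (Fin n) ℝ) (F : Finset (Fin n))
    (m : Fin n →₀ ℕ) (h : ¬ F ⊆ m.support) : coeff m (r * ∏ v ∈ F, X v) = 0 := by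
  obtain ⟨w, hv, hvm⟩ := Finset.not_subset.1 h
  rw [← Finset.prod_erase_mul F _ hv, ← mul_assoc, coeff_mul_X', if_neg hvm]

theorem coeffData_sr {p : Fin n → Fin 4 → ℝ} {κ : ((Fin 4 → ℝ) × ℝ) →ₗ[ℝ] ℝ}
    (hP : Poly (hom p) κ) {F : Finset (Fin n)}
    (hF : F ∉ boundaryComplex p) (r : MvPolynomial (Fin n) ℝ) :
    CoeffData p (r * ∏ v ∈ F, X v) := by
  have hF' : ¬ PFace (hom p) F := fun h => hF ((pface_iff p F).2 h)
  have key : ∀ m : Fin n →₀ ℕ, PFace (hom p) m.support →
      coeff m (r * ∏ v ∈ F, X v) = 0 := fun m hm =>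
    coeff_mul_prod_eq_zero r F m fun hsub => hF' (hm.mono hP hsub)
  have hs : ∀ (a : Fin n) (k : ℕ), PFace (hom p) (Finsupp.single a k).support := fun a k =>
    (hP.vert a).mono hP Finsupp.support_single_subset
  refine ⟨⟨0, fun a => ?_⟩, 0, fun a b hab hab' => ?_, fun a => ?_⟩
  · rw [key _ (hs a 1)]; rfl
  · rw [key _ (hab'.mono hP ?_)]
    · simp
    · refine Finsupp.support_add.trans ?_
      intro v hv
      rw [Finset.mem_union] at hv
      simp only [Finset.mem_insert, Finset.mem_singleton]
      rcases hv with hv | hv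
      · exact Or.inl (by simpa using Finsupp.support_single_subset hv)
      · exact Or.inr (by simpa using Finsupp.support_single_subset hv)
  · rw [key _ (hs a 2)]; simp

theorem coeffData_of_mem {p : Fin n → Fin 4 → ℝ} {κ : ((Fin 4 → ℝ) × ℝ) →ₗ[ℝ] ℝ}
    (hP : Poly (hom p) κ) {q : MvPolynomial (Fin n) ℝ} (hq : q ∈ idealA p) :
    CoeffData p q := by
  rw [idealA, stanleyReisner, ← Ideal.span_union] at hq
  induction hq using Submodule.closure_induction with
  | zero => exact coeffData_zero p
  | add x y _ _ hx hy => exact coeffData_add hx hy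
  | smul_mem r x hx =>
    rw [smul_eq_mul]
    rcases hx with ⟨F, hF, rfl⟩ | ⟨i, rfl⟩ | hx
    · exact coeffData_sr hP hF r
    · rw [theta_eq]
      exact coeffData_linForm p _ r
    · rw [Set.mem_singleton_iff] at hx
      rw [hx, cc_eq p]
      exact coeffData_linForm p _ r

/-- The key consequence: if `X v * f` lies in the ideal for all `v`, then the constant term of
`f` vanishes and the linear coefficients are given by a functional. -/
theorem linear_part {p : Fin n → Fin 4 → ℝ} {κ : ((Fin 4 → ℝ) × ℝ) →ₗ[ℝ] ℝ}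
    (hP : Poly (hom p) κ) (hm : NoMissing (hom p)) (f : MvPolynomial (Fin n) ℝ)
    (hf : ∀ v, X v * f ∈ idealA p) :
    (∀ v : Fin n, coeff 0 f = 0) ∧
      ∃ l : ((Fin 4 → ℝ) × ℝ) →ₗ[ℝ] ℝ, ∀ v, coeff (Finsupp.single v 1) f = l (hom p v) := by
  have hdata : ∀ v, CoeffData p (f * X v) := fun v => by
    rw [mul_comm]
    exact coeffData_of_mem hP (hf v)
  constructor
  · intro v
    obtain ⟨⟨h, hh⟩, -⟩ := hdata v
    have h0 : h = 0 := by
      refine span_compl hP hm v fun a ha => ?_
      rw [← hh a, coeff_X_one, if_neg (fun h => ha h.symm)]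
    have h1 := hh v
    rw [coeff_X_one, if_pos rfl, h0] at h1
    exact h1
  · have h2 := fun v => (hdata v).2
    choose ψ hψ1 hψ2 using h2
    set y : Fin n → ℝ := fun v => coeff (Finsupp.single v 1) f with hy
    refine affine_of_data hP hm (star_rigid hP) (y := y)
      (M := fun v a => (ψ v a (hom p a)) • κ - ψ v a) ⟨fun v a => ?_, fun v a b hab => ?_⟩
    · simp [hP.one]
    · simp only [LinearMap.sub_apply, LinearMap.smul_apply, smul_eq_mul, hP.one, mul_one]
      have hF : PFace (hom p) {a, b} := by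
        rw [insert_inst (instDecidableEqFin n) (fun a b => Classical.propDecidable (a = b))]
        exact hab.2
      have e1 := hψ1 v a b hab.1 hF
      have e2 := hψ2 v a
      have e3 := hψ2 v b
      rw [coeff_X_two f hab.1] at e1
      rw [coeff_X_sq] at e2 e3
      have s1 : (if v = a then coeff (Finsupp.single b 1) f else 0) =
          if a = v then y b else 0 := by
        by_cases h : v = a
        · rw [if_pos h, if_pos h.symm]
        · rw [if_neg h, if_neg (fun h' => h h'.symm)]
      have s2 : (if v = b then coeff (Finsupp.single a 1) f else 0) =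
          if b = v then y a else 0 := by
        by_cases h : v = b
        · rw [if_pos h, if_pos h.symm]
        · rw [if_neg h, if_neg (fun h' => h h'.symm)]
      have s3 : (if v = a then coeff (Finsupp.single a 1) f else 0) =
          if a = v then y a else 0 := by
        by_cases h : v = a
        · rw [if_pos h, if_pos h.symm]
        · rw [if_neg h, if_neg (fun h' => h h'.symm)]
      have s4 : (if v = b then coeff (Finsupp.single b 1) f else 0) =
          if b = v then y b else 0 := by
        by_cases h : v = b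
        · rw [if_pos h, if_pos h.symm]
        · rw [if_neg h, if_neg (fun h' => h h'.symm)]
      rw [s1, s2] at e1
      rw [s3] at e2
      rw [s4] at e3
      have t1 : (if a = v then y a - y b else 0) =
          (if a = v then y a else 0) - (if a = v then y b else 0) := by
        split_ifs <;> ring
      have t2 : (if b = v then y b - y a else 0) =
          (if b = v then y b else 0) - (if b = v then y a else 0) := by
        split_ifs <;> ring
      have key : (ψ v a) (hom p a) - (ψ v a) (hom p b) +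
          ((ψ v b) (hom p b) - (ψ v b) (hom p a)) =
          (if a = v then y a - y b else 0) + if b = v then y b - y a else 0 := by
        rw [t1, t2]
        linarith
      rw [ite_inst _ (instDecidableEqFin n a v), ite_inst _ (instDecidableEqFin n b v)]
      exact key

/-- Degree three monomials vanish in `A(Δ)`. -/
theorem cubic_mem {p : Fin n → Fin 4 → ℝ} {κ : ((Fin 4 → ℝ) × ℝ) →ₗ[ℝ] ℝ}
    (hP : Poly (hom p) κ) (u a b : Fin n) : X u * X a * X b ∈ idealA p := by
  by_contra hcon
  obtain ⟨lam, hlam, hker⟩ := Submodule.exists_le_ker_of_notMem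
    (p := Submodule.restrictScalars ℝ (idealA p)) hcon
  have hlam0 : ∀ q ∈ idealA p, lam q = 0 := fun q hq => by
    simpa using hker (show q ∈ Submodule.restrictScalars ℝ (idealA p) from hq)
  apply hlam
  refine stress_free hP (u := u) (ω := fun a b => lam (X u * X a * X b)) (fun a b => ?_)
    (fun a b hF => ?_) (fun a => ?_) a b
  · show lam (X u * X a * X b) = lam (X u * X b * X a)
    congr 1
    ring
  · apply hlam0
    have hdvd : (∏ v ∈ ({u, a, b} : Finset (Fin n)), (X v : MvPolynomial (Fin n) ℝ)) ∣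
        X u * X a * X b := by
      by_cases h1 : a = b
      · subst h1
        by_cases h2 : u = a
        · subst h2
          simp only [Finset.insert_eq_of_mem, Finset.mem_singleton, Finset.prod_singleton]
          exact Dvd.intro_left _ rfl
        · have : ({u, a, a} : Finset (Fin n)) = {u, a} := by simp
          rw [this, Finset.prod_pair h2]
          exact Dvd.intro _ rfl
      · by_cases h2 : u = a
        · subst h2
          have : ({u, u, b} : Finset (Fin n)) = {u, b} := by simp
          rw [this, Finset.prod_pair h1]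
          exact ⟨X u, by ring⟩
        · by_cases h3 : u = b
          · subst h3
            have : ({u, a, u} : Finset (Fin n)) = {u, a} := by
              ext z; simp only [Finset.mem_insert, Finset.mem_singleton]; clear * - z; tauto
            rw [this, Finset.prod_pair h2]
            exact ⟨X u, by ring⟩
          · rw [Finset.prod_insert (by simp [h2, h3]), Finset.prod_pair h1]
            exact ⟨1, by ring⟩
    refine Ideal.mem_of_dvd _ hdvd (Ideal.mem_sup_left (Ideal.subset_span
      ⟨{u, a, b}, fun h => hF (by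
        rw [insert_inst (fun a b => Classical.propDecidable (a = b)) (instDecidableEqFin n),
          insert_inst (fun a b => Classical.propDecidable (a = b)) (instDecidableEqFin n)]
        exact (pface_iff p _).1 h), rfl⟩))
  · have hmem : ∀ l : ((Fin 4 → ℝ) × ℝ) →ₗ[ℝ] ℝ,
        ∑ b, l (hom p b) * lam (X u * X a * X b) = 0 := by
      intro l
      have h1 := hlam0 (X u * X a * linForm p l) (Ideal.mul_mem_left _ _ (linForm_mem p l))
      rw [linForm, Finset.mul_sum, map_sum] at h1
      rw [← h1]
      refine Finset.sum_congr rfl fun b _ => ?_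
      have e1 : X u * X a * (C (l (hom p b)) * X b) =
          l (hom p b) • (X u * X a * X b : MvPolynomial (Fin n) ℝ) := by
        rw [smul_eq_C_mul]; ring
      rw [e1, map_smul, smul_eq_mul]
    ext i
    · have h1 := hmem (fct (Pi.single i 1) 0)
      simp only [hom, fct_apply] at h1
      simp only [hom, Prod.fst_sum, Prod.smul_fst, Finset.sum_apply, Pi.smul_apply, smul_eq_mul,
        Prod.fst_zero, Pi.zero_apply]
      rw [← h1]
      refine Finset.sum_congr rfl fun b _ => ?_
      simp [Pi.single_apply, mul_comm]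
    · have h1 := hmem (fct 0 1)
      simp only [hom, fct_apply] at h1
      simp only [hom, Prod.snd_sum, Prod.smul_snd, smul_eq_mul, Prod.snd_zero]
      rw [← h1]
      refine Finset.sum_congr rfl fun b _ => ?_
      simp

theorem monomial_mem {p : Fin n → Fin 4 → ℝ} {κ : ((Fin 4 → ℝ) × ℝ) →ₗ[ℝ] ℝ}
    (hP : Poly (hom p) κ) (m : Fin n →₀ ℕ) (hmd : 3 ≤ m.degree) (c : ℝ) :
    monomial m c ∈ idealA p := by
  have step : ∀ m : Fin n →₀ ℕ, 1 ≤ m.degree → ∃ u m', m = Finsupp.single u 1 + m' ∧
      m'.degree + 1 = m.degree := by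
    intro m hm
    have hne : m ≠ 0 := by
      rintro rfl
      simp at hm
    obtain ⟨u, hu⟩ := Finsupp.support_nonempty_iff.2 hne
    have hle : Finsupp.single u 1 ≤ m := by
      rw [Finsupp.single_le_iff]
      have := Finsupp.mem_support_iff.1 hu
      omega
    refine ⟨u, m - Finsupp.single u 1, (add_tsub_cancel_of_le hle).symm, ?_⟩
    have h1 : (Finsupp.single u 1 + (m - Finsupp.single u 1)).degree = m.degree := by
      rw [add_tsub_cancel_of_le hle]
    rw [map_add, Finsupp.degree_single] at h1
    omega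
  obtain ⟨u, m1, h1, d1⟩ := step m (by omega)
  obtain ⟨a, m2, h2, d2⟩ := step m1 (by omega)
  obtain ⟨b, m3, h3, d3⟩ := step m2 (by omega)
  have : monomial m c = monomial m3 c * (X u * X a * X b : MvPolynomial (Fin n) ℝ) := by
    rw [X, X, X, monomial_mul, monomial_mul, monomial_mul]
    have e : m = m3 + (Finsupp.single u 1 + Finsupp.single a 1 + Finsupp.single b 1) := by
      rw [h1, h2, h3]
      abel
    rw [← e]
    simp
  rw [this]
  exact Ideal.mul_mem_left _ _ (cubic_mem hP u a b)

/-- Polynomials with only monomials of degree at least three lie in the ideal. -/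
theorem high_mem {p : Fin n → Fin 4 → ℝ} {κ : ((Fin 4 → ℝ) × ℝ) →ₗ[ℝ] ℝ}
    (hP : Poly (hom p) κ) (f : MvPolynomial (Fin n) ℝ)
    (hf : ∀ m, coeff m f ≠ 0 → 3 ≤ m.degree) : f ∈ idealA p := by
  rw [f.as_sum]
  exact Ideal.sum_mem _ fun m hm => monomial_mem hP m (hf m (mem_support_iff.1 hm)) _

end Pool.Agent.Lib.MP_36627d_co
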