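import Mathlib

/-!
# Simplicial polytopes as cone configurations

A polytope `conv {p v}` in real `d`-space is encoded by the vectors `P v = (p v, 1)` in the
`(d+1)`-dimensional space `W`.
-/

open Finset Module

namespace Pool.Agent.Lib.MP_36627d_co

open scoped Classical

variable {V W : Type*} [Fintype V] [AddCommGroup W] [Module ℝ W]

/-- `F` is the zero set of a functional that is negative on all other vectors. -/
def CFace (P : V → W) (F : Finset V) : Prop :=
  ∃ φ : (W →ₗ[ℝ] ℝ), (∀ v ∈ F, φ (P v) = 0) ∧ ∀ v, v ∉ F → φ (P v) < 0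

/-- proper faces -/
def PFace (P : V → W) (F : Finset V) : Prop := CFace P F ∧ F ≠ univ

/-- A simplicial polytope of dimension `4` (cone version, `dim W = 5`) -/
structure Poly (P : V → W) (κ : (W →ₗ[ℝ] ℝ)) : Prop where
  fin : FiniteDimensional ℝ W
  dim : finrank ℝ W = 5
  span : ∀ φ : (W →ₗ[ℝ] ℝ), (∀ v, φ (P v) = 0) → φ = 0
  one : ∀ v, κ (P v) = 1
  vert : ∀ v, PFace P {v}
  simp : ∀ F, PFace P F → LinearIndependent ℝ (fun v : F => P v)

/-- adjacency -/
def Adj (P : V → W) (a b : V) : Prop := a ≠ b ∧ PFace P {a, b}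

theorem Adj.symm {P : V → W} {a b : V} (h : Adj P a b) : Adj P b a :=
  ⟨h.1.symm, by rw [Finset.pair_comm]; exact h.2⟩

/-- a family that is linearly independent has functionals with prescribed values -/
theorem exists_dual_of_li {F : Finset V} {P : V → W}
    (h : LinearIndependent ℝ (fun v : F => P v)) (c : V → ℝ) :
    ∃ ψ : (W →ₗ[ℝ] ℝ), ∀ v ∈ F, ψ (P v) = c v := by
  classical
  obtain ⟨ψ, hψ⟩ := LinearMap.exists_extend
    ((Finsupp.linearCombination ℝ (fun v : F => c v)).comp h.repr)
  refine ⟨ψ, fun v hv => ?_⟩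
  have hmem : P v ∈ Submodule.span ℝ (Set.range (fun v : F => P v)) :=
    Submodule.subset_span ⟨⟨v, hv⟩, rfl⟩
  have h1 : ψ (P v) = (ψ.comp (Submodule.span ℝ (Set.range (fun v : F => P v))).subtype)
      ⟨P v, hmem⟩ := rfl
  rw [h1, hψ]
  have h2 : h.repr ⟨P v, hmem⟩ = Finsupp.single (⟨v, hv⟩ : F) 1 := by
    apply h.repr_eq_single
    rfl
  simp [h2]

theorem PFace.mono {P : V → W} {κ : (W →ₗ[ℝ] ℝ)} (hP : Poly P κ) {F G : Finset V}
    (hF : PFace P F) (hG : G ⊆ F) : PFace P G := by
  obtain ⟨⟨φ, h0, h1⟩, hne⟩ := hF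
  obtain ⟨ψ, hψ⟩ := exists_dual_of_li (hP.simp F ⟨⟨φ, h0, h1⟩, hne⟩)
    (fun v => if v ∈ G then 0 else -1)
  have hev : ∃ M : ℝ, ∀ v ∈ univ \ F, ψ (P v) < M * (-φ (P v)) := by
    have : ∀ᶠ M : ℝ in Filter.atTop, ∀ v ∈ univ \ F, ψ (P v) < M * (-φ (P v)) := by
      rw [Filter.eventually_all_finset]
      intro v hv
      have hv' : φ (P v) < 0 := h1 v (by simpa using hv)
      have : Filter.Tendsto (fun M : ℝ => M * (-φ (P v))) Filter.atTop Filter.atTop :=
        Filter.Tendsto.atTop_mul_const (by linarith) Filter.tendsto_id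
      exact this.eventually_gt_atTop _
    exact this.exists
  obtain ⟨M, hM⟩ := hev
  have hGF : G ≠ univ := by
    rintro rfl
    exact hne (Finset.eq_univ_iff_forall.2 fun v => hG (Finset.mem_univ v))
  refine ⟨⟨M • φ + ψ, fun v hv => ?_, fun v hv => ?_⟩, hGF⟩
  · simp [h0 v (hG hv), hψ v (hG hv), hv]
  · by_cases hvF : v ∈ F
    · simp [h0 v hvF, hψ v hvF, hv]
    · have := hM v (by simp [hvF])
      simp only [LinearMap.add_apply, LinearMap.smul_apply, smul_eq_mul]
      linarith

/-- in a space of dimension 5, four vectors are killed by a nonzero functional -/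
theorem exists_vanishing {P : V → W} {κ : (W →ₗ[ℝ] ℝ)} (hP : Poly P κ) (F : Finset V)
    (hF : F.card ≤ 4) : ∃ h : (W →ₗ[ℝ] ℝ), h ≠ 0 ∧ ∀ v ∈ F, h (P v) = 0 := by
  classical
  have := hP.fin
  have hlt : Submodule.span ℝ (↑(F.image P) : Set W) < ⊤ := by
    apply lt_top_iff_ne_top.2
    intro htop
    have h1 : finrank ℝ (Submodule.span ℝ (↑(F.image P) : Set W)) ≤ (F.image P).card :=
      finrank_span_finset_le_card _
    rw [htop, finrank_top, hP.dim] at h1
    have : (F.image P).card ≤ F.card := Finset.card_image_le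
    omega
  obtain ⟨f, hf, hle⟩ := Submodule.exists_le_ker_of_lt_top _ hlt
  refine ⟨f, hf, fun v hv => ?_⟩
  have : P v ∈ LinearMap.ker f := hle (Submodule.subset_span (by
    simp only [Finset.coe_image, Set.mem_image, Finset.mem_coe]; exact ⟨v, hv, rfl⟩))
  simpa using this

theorem exists_vanishing_indep {P : V → W} {κ : (W →ₗ[ℝ] ℝ)} (hP : Poly P κ) (F : Finset V)
    (hF : F.card ≤ 3) (φ : (W →ₗ[ℝ] ℝ)) :
    ∃ h : (W →ₗ[ℝ] ℝ), (∀ v ∈ F, h (P v) = 0) ∧ ∀ c : ℝ, h ≠ c • φ := by
  classical
  by_cases hφ : φ = 0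
  · obtain ⟨h, h0, hv⟩ := exists_vanishing hP F (by omega)
    exact ⟨h, hv, fun c hc => h0 (by rw [hc, hφ, smul_zero])⟩
  · have : ∃ w, φ (P w) ≠ 0 := by
      by_contra hcon
      push Not at hcon
      exact hφ (hP.span φ hcon)
    obtain ⟨w, hw⟩ := this
    obtain ⟨h, h0, hv⟩ := exists_vanishing hP (insert w F) (by
      have := Finset.card_insert_le w F
      omega)
    refine ⟨h, fun v hvF => hv v (Finset.mem_insert_of_mem hvF), fun c hc => ?_⟩
    have h1 := hv w (Finset.mem_insert_self _ _)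
    rw [hc, LinearMap.smul_apply, smul_eq_mul] at h1
    rcases mul_eq_zero.1 h1 with h2 | h2
    · exact h0 (by rw [hc, h2, zero_smul])
    · exact hw h2

/-- Tilting a supporting functional `φ` of the face `F` towards `h` until it hits a new
vertex. -/
theorem tilt {P : V → W} {F : Finset V} {φ h : (W →ₗ[ℝ] ℝ)}
    (h0 : ∀ v ∈ F, φ (P v) = 0) (h1 : ∀ v, v ∉ F → φ (P v) < 0)
    (hh : ∀ v ∈ F, h (P v) = 0) (hw : ∃ w, 0 < h (P w)) :
    ∃ r : ℝ, 0 < r ∧ ∃ v, 0 < h (P v) ∧ (φ + r • h) (P v) = 0 ∧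
      ∀ x, (φ + r • h) (P x) ≤ 0 := by
  classical
  obtain ⟨w, hw⟩ := hw
  have hne : (univ.filter fun v => 0 < h (P v)).Nonempty := ⟨w, by simp [hw]⟩
  obtain ⟨v, hv, hmin⟩ := Finset.exists_min_image (univ.filter fun v => 0 < h (P v))
    (fun v => -φ (P v) / h (P v)) hne
  have hv' : 0 < h (P v) := by simpa using hv
  have hvF : v ∉ F := fun hvF => by rw [hh v hvF] at hv'; exact lt_irrefl _ hv'
  have hr : 0 < -φ (P v) / h (P v) := div_pos (by linarith [h1 v hvF]) hv'
  refine ⟨-φ (P v) / h (P v), hr, v, hv', ?_, fun x => ?_⟩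
  · simp only [LinearMap.add_apply, LinearMap.smul_apply, smul_eq_mul]
    field_simp
    ring
  · simp only [LinearMap.add_apply, LinearMap.smul_apply, smul_eq_mul]
    by_cases hx : 0 < h (P x)
    · have h2 := hmin x (by simp [hx])
      have h3 : -φ (P v) / h (P v) * h (P x) ≤ -φ (P x) / h (P x) * h (P x) :=
        mul_le_mul_of_nonneg_right h2 hx.le
      have h4 : -φ (P x) / h (P x) * h (P x) = -φ (P x) := by field_simp
      linarith
    · push Not at hx
      have h5 : φ (P x) ≤ 0 := by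
        by_cases hxF : x ∈ F
        · rw [h0 x hxF]
        · exact (h1 x hxF).le
      have h6 : -φ (P v) / h (P v) * h (P x) ≤ 0 := mul_nonpos_of_nonneg_of_nonpos hr.le hx
      linarith

/-- Every face with at most three vertices extends by a vertex on the positive side of `h`. -/
theorem PFace.extend {P : V → W} {κ : (W →ₗ[ℝ] ℝ)} (hP : Poly P κ) {F : Finset V}
    (hF : PFace P F) (hc : F.card ≤ 3) {h : (W →ₗ[ℝ] ℝ)} (hh : ∀ v ∈ F, h (P v) = 0)
    (hw : ∃ w, 0 < h (P w)) : ∃ v, 0 < h (P v) ∧ PFace P (insert v F) := by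
  classical
  obtain ⟨⟨φ, h0, h1⟩, hne⟩ := id hF
  -- general statement for functionals not proportional to `φ`
  have key : ∀ g : (W →ₗ[ℝ] ℝ), (∀ v ∈ F, g (P v) = 0) → (∃ w, 0 < g (P w)) →
      (∀ c : ℝ, g ≠ c • φ) → ∃ v, 0 < g (P v) ∧ PFace P (insert v F) := by
    intro g hg hgw hgc
    obtain ⟨r, hr, v, hv, hv0, hle⟩ := tilt h0 h1 hg hgw
    refine ⟨v, hv, ?_⟩
    have hZ : PFace P (univ.filter fun x => (φ + r • g) (P x) = 0) := by
      refine ⟨⟨φ + r • g, fun x hx => by simpa using hx, fun x hx => ?_⟩, fun hu => ?_⟩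
      · exact lt_of_le_of_ne (hle x) (by simpa using hx)
      · have : φ + r • g = 0 := hP.span _ fun x => by
          have : x ∈ (univ.filter fun x => (φ + r • g) (P x) = 0) := by rw [hu]; simp
          simpa using this
        refine hgc (-r⁻¹) ?_
        have h2 : r • g = -φ := by
          rw [← sub_eq_zero, sub_neg_eq_add, add_comm]; exact this
        calc g = r⁻¹ • (r • g) := by rw [smul_smul, inv_mul_cancel₀ hr.ne', one_smul]
          _ = -r⁻¹ • φ := by rw [h2]; module
    refine hZ.mono hP fun x hx => ?_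
    rw [Finset.mem_insert] at hx
    simp only [Finset.mem_filter, Finset.mem_univ, true_and]
    rcases hx with rfl | hx
    · exact hv0
    · simp [h0 x hx, hg x hx]
  by_cases hprop : ∀ c : ℝ, h ≠ c • φ
  · exact key h hh hw hprop
  · push Not at hprop
    obtain ⟨c, hc'⟩ := hprop
    obtain ⟨w, hw⟩ := hw
    -- `h = c • φ` with `c < 0`, so `h` is positive off `F`
    have hpos : ∀ v, v ∉ F → 0 < h (P v) := by
      intro v hv
      have hwF : w ∉ F := fun hwF => by rw [hh w hwF] at hw; exact lt_irrefl _ hw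
      have h2 := h1 w hwF
      have h3 := h1 v hv
      rw [hc', LinearMap.smul_apply, smul_eq_mul] at hw ⊢
      have hcneg : c < 0 := by
        by_contra hcn
        push Not at hcn
        nlinarith
      nlinarith
    obtain ⟨g, hg, hgc⟩ := exists_vanishing_indep hP F hc φ
    have hgne : g ≠ 0 := fun h => hgc 0 (by rw [h, zero_smul])
    have : ∃ x, g (P x) ≠ 0 := by
      by_contra hcon
      push Not at hcon
      exact hgne (hP.span g hcon)
    obtain ⟨x, hx⟩ := this
    have key2 : ∃ v, v ∉ F ∧ PFace P (insert v F) := by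
      rcases lt_or_gt_of_ne hx with hx | hx
      · obtain ⟨v, hv, hv2⟩ := key (-g) (fun v hv => by simp [hg v hv])
          ⟨x, by simpa using hx⟩ (fun c hcc => hgc (-c) (by
            calc g = -(-g) := (neg_neg g).symm
              _ = -(c • φ) := by rw [hcc]
              _ = (-c) • φ := (neg_smul c φ).symm))
        refine ⟨v, fun hvF => ?_, hv2⟩
        simp [hg v hvF] at hv
      · obtain ⟨v, hv, hv2⟩ := key g hg ⟨x, hx⟩ hgc
        refine ⟨v, fun hvF => ?_, hv2⟩
        simp [hg v hvF] at hv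
    obtain ⟨v, hv, hv2⟩ := key2
    exact ⟨v, hpos v hv, hv2⟩

/-- A vertex with `h = 0` has a neighbour with `h > 0`, if some vertex has. -/
theorem exists_adj_pos {P : V → W} {κ : (W →ₗ[ℝ] ℝ)} (hP : Poly P κ) {a : V} {h : (W →ₗ[ℝ] ℝ)}
    (ha : h (P a) = 0) (hw : ∃ w, 0 < h (P w)) : ∃ u, Adj P a u ∧ 0 < h (P u) := by
  obtain ⟨u, hu, hu2⟩ := (hP.vert a).extend hP (by simp) (h := h) (by simpa using ha) hw
  refine ⟨u, ⟨?_, ?_⟩, hu⟩
  · rintro rfl
    rw [ha] at hu
    exact lt_irrefl _ hu
  · rw [Finset.pair_comm]; exact hu2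

theorem exists_adj_gt {P : V → W} {κ : (W →ₗ[ℝ] ℝ)} (hP : Poly P κ) {a : V} {h : (W →ₗ[ℝ] ℝ)}
    (hw : ∃ w, h (P a) < h (P w)) : ∃ u, Adj P a u ∧ h (P a) < h (P u) := by
  obtain ⟨u, hu, hu2⟩ := exists_adj_pos hP (a := a) (h := h - h (P a) • κ) (by
    simp [hP.one]) (by
      obtain ⟨w, hw⟩ := hw
      refine ⟨w, ?_⟩
      simp only [LinearMap.sub_apply, LinearMap.smul_apply, smul_eq_mul, hP.one]
      linarith)
  refine ⟨u, hu, ?_⟩
  simp only [LinearMap.sub_apply, LinearMap.smul_apply, smul_eq_mul, hP.one] at hu2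
  linarith

/-- paths inside a set -/
def Conn (P : V → W) (X : Set V) : V → V → Prop :=
  Relation.ReflTransGen (fun x y => Adj P x y ∧ x ∈ X ∧ y ∈ X)

theorem Conn.symm {P : V → W} {X : Set V} {a b : V} (h : Conn P X a b) : Conn P X b a := by
  induction h with
  | refl => exact Relation.ReflTransGen.refl
  | tail _ h2 ih => exact Relation.ReflTransGen.head ⟨h2.1.symm, h2.2.2, h2.2.1⟩ ih

theorem Conn.mono {P : V → W} {X Y : Set V} {a b : V} (h : Conn P X a b)
    (hXY : ∀ x ∈ X, x ∈ Y) : Conn P Y a b := by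
  induction h with
  | refl => exact Relation.ReflTransGen.refl
  | tail _ h2 ih => exact Relation.ReflTransGen.tail ih ⟨h2.1, hXY _ h2.2.1, hXY _ h2.2.2⟩

theorem Conn.mem {P : V → W} {X : Set V} {a b : V} (h : Conn P X a b) (ha : a ∈ X) :
    b ∈ X := by
  induction h with
  | refl => exact ha
  | tail _ h2 _ => exact h2.2.2

/-- The vertices in an open half space induce a connected graph. -/
theorem conn_upper {P : V → W} {κ : (W →ₗ[ℝ] ℝ)} (hP : Poly P κ) (h : (W →ₗ[ℝ] ℝ)) {a b : V}
    (ha : 0 < h (P a)) (hb : 0 < h (P b)) : Conn P {v | 0 < h (P v)} a b := by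
  classical
  -- first for functionals that are not constant
  have key : ∀ h : (W →ₗ[ℝ] ℝ), (∃ x y, h (P x) ≠ h (P y)) → ∀ a b, 0 < h (P a) → 0 < h (P b) →
      Conn P {v | 0 < h (P v)} a b := by
    intro h hnc a b ha hb
    obtain ⟨t, -, ht⟩ := Finset.exists_max_image univ (fun v => h (P v)) ⟨a, by simp⟩
    have up : ∀ (k : ℕ) (a : V), (univ.filter fun v => h (P a) < h (P v)).card ≤ k →
        0 < h (P a) → ∃ s, h (P s) = h (P t) ∧ Conn P {v | 0 < h (P v)} a s := by
      intro k
      induction k with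
      | zero =>
        intro a hk ha
        refine ⟨a, ?_, Relation.ReflTransGen.refl⟩
        have h1 := ht a (by simp)
        have h2 : ¬ h (P a) < h (P t) := fun hlt => by
          have : t ∈ (univ.filter fun v => h (P a) < h (P v)) := by simp [hlt]
          have := Finset.card_pos.2 ⟨t, this⟩
          omega
        exact le_antisymm h1 (not_lt.1 h2)
      | succ k ih =>
        intro a hk ha
        by_cases hlt : h (P a) < h (P t)
        · obtain ⟨u, hu, hu2⟩ := exists_adj_gt hP (a := a) (h := h) ⟨t, hlt⟩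
          have hcard : (univ.filter fun v => h (P u) < h (P v)).card ≤ k := by
            have hss : (univ.filter fun v => h (P u) < h (P v)) ⊂
                (univ.filter fun v => h (P a) < h (P v)) := by
              rw [Finset.ssubset_iff_of_subset]
              · exact ⟨u, by simp [hu2], by simp⟩
              · intro v hv
                simp only [Finset.mem_filter, Finset.mem_univ, true_and] at hv ⊢
                linarith
            have := Finset.card_lt_card hss
            omega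
          obtain ⟨s, hs, hs2⟩ := ih u hcard (by linarith)
          exact ⟨s, hs, Relation.ReflTransGen.head ⟨hu, ha, by
            show 0 < h (P u)
            linarith⟩ hs2⟩
        · exact ⟨a, le_antisymm (ht a (by simp)) (not_lt.1 hlt), Relation.ReflTransGen.refl⟩
    obtain ⟨s, hs, hs2⟩ := up _ a le_rfl ha
    obtain ⟨s', hs', hs2'⟩ := up _ b le_rfl hb
    refine hs2.trans (Relation.ReflTransGen.trans ?_ hs2'.symm)
    by_cases hss : s = s'
    · rw [hss]
    · refine Relation.ReflTransGen.single ⟨⟨hss, ?_⟩, ?_, ?_⟩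
      · have hZ : PFace P (univ.filter fun v => h (P v) = h (P t)) := by
          refine ⟨⟨h - h (P t) • κ, fun v hv => ?_, fun v hv => ?_⟩, fun hu => ?_⟩
          · simp only [Finset.mem_filter, Finset.mem_univ, true_and] at hv
            simp [hP.one, hv]
          · simp only [Finset.mem_filter, Finset.mem_univ, true_and] at hv
            have := lt_of_le_of_ne (ht v (by simp)) hv
            simp only [LinearMap.sub_apply, LinearMap.smul_apply, smul_eq_mul, hP.one]
            linarith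
          · obtain ⟨x, y, hxy⟩ := hnc
            have hx : x ∈ (univ.filter fun v => h (P v) = h (P t)) := by rw [hu]; simp
            have hy : y ∈ (univ.filter fun v => h (P v) = h (P t)) := by rw [hu]; simp
            simp only [Finset.mem_filter, Finset.mem_univ, true_and] at hx hy
            exact hxy (hx.trans hy.symm)
        refine hZ.mono hP fun v hv => ?_
        simp only [Finset.mem_insert, Finset.mem_singleton] at hv
        simp only [Finset.mem_filter, Finset.mem_univ, true_and]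
        rcases hv with rfl | rfl
        · exact hs
        · exact hs'
      · have := hs2.mem ha
        exact this
      · have := hs2'.mem hb
        exact this
  by_cases hnc : ∃ x y, h (P x) ≠ h (P y)
  · exact key h hnc a b ha hb
  · push Not at hnc
    by_cases hab : a = b
    · subst hab; exact Relation.ReflTransGen.refl
    obtain ⟨⟨φ, h0, h1⟩, -⟩ := hP.vert a
    -- `φ + C • κ` is positive everywhere and not constant
    obtain ⟨t, -, ht⟩ := Finset.exists_min_image univ (fun v => φ (P v)) ⟨a, by simp⟩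
    have h2 := key (φ + (1 - φ (P t)) • κ) ⟨a, b, by
      have h3 := h0 a (by simp)
      have h4 := h1 b (by simpa using Ne.symm hab)
      simp only [LinearMap.add_apply, LinearMap.smul_apply, smul_eq_mul, hP.one]
      intro h5
      linarith⟩ a b (by
        have := ht a (by simp)
        simp only [LinearMap.add_apply, LinearMap.smul_apply, smul_eq_mul, hP.one]
        linarith) (by
        have := ht b (by simp)
        simp only [LinearMap.add_apply, LinearMap.smul_apply, smul_eq_mul, hP.one]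
        linarith)
    refine h2.mono fun x _ => ?_
    have := hnc x a
    show 0 < h (P x)
    rw [this]; exact ha

/-- `T` separates `A` from `B`. -/
structure Sep (P : V → W) (A T B : Finset V) : Prop where
  neA : A.Nonempty
  neB : B.Nonempty
  cover : ∀ v, v ∈ A ∨ v ∈ T ∨ v ∈ B
  disjA : ∀ v ∈ T, v ∉ A
  disjB : ∀ v ∈ T, v ∉ B
  disjAB : ∀ v ∈ A, v ∉ B
  noedge : ∀ a ∈ A, ∀ b ∈ B, ¬ Adj P a b

theorem Sep.symm {P : V → W} {A T B : Finset V} (h : Sep P A T B) : Sep P B T A where
  neA := h.neB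
  neB := h.neA
  cover v := by
    rcases h.cover v with h | h | h
    · exact Or.inr (Or.inr h)
    · exact Or.inr (Or.inl h)
    · exact Or.inl h
  disjA := h.disjB
  disjB := h.disjA
  disjAB v hv hv' := h.disjAB v hv' hv
  noedge a ha b hb hab := h.noedge b hb a ha hab.symm

/-- a connected set avoiding `T` and meeting `A` lies in `A` -/
theorem Sep.conn {P : V → W} {A T B : Finset V} (hs : Sep P A T B) {X : Set V}
    (hX : ∀ x ∈ X, x ∉ T) {a b : V} (ha : a ∈ A) (hab : Conn P X a b) : b ∈ A := by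
  induction hab with
  | refl => exact ha
  | @tail c d _ h2 ih =>
    rcases hs.cover d with h | h | h
    · exact h
    · exact absurd h (hX d h2.2.2)
    · exact absurd h2.1 (hs.noedge c ih d h)

/-- Auxiliary form: if the positive side is nonempty and meets `A` -/
theorem Sep.signs_aux {P : V → W} {κ : W →ₗ[ℝ] ℝ} (hP : Poly P κ) {A T B : Finset V}
    (hs : Sep P A T B) {h : W →ₗ[ℝ] ℝ} (hT : ∀ v ∈ T, h (P v) = 0) {a₀ : V} (ha₀ : a₀ ∈ A)
    (ha₀' : 0 < h (P a₀)) : (∀ a ∈ A, 0 < h (P a)) ∧ ∀ b ∈ B, h (P b) < 0 := by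
  -- claim: everything positive is in `A`
  have c1 : ∀ (A B : Finset V), Sep P A T B → ∀ h : W →ₗ[ℝ] ℝ, (∀ v ∈ T, h (P v) = 0) →
      ∀ a₀ ∈ A, 0 < h (P a₀) → ∀ b ∈ B, h (P b) < 0 := by
    intro A B hs h hT a₀ ha₀ ha₀' b hb
    have hpos : ∀ v, 0 < h (P v) → v ∈ A := fun v hv =>
      hs.conn (X := {v | 0 < h (P v)}) (fun x hx hxT => by
        have : 0 < h (P x) := hx
        rw [hT x hxT] at this
        exact lt_irrefl _ this) ha₀ (conn_upper hP h ha₀' hv)
    rcases lt_trichotomy (h (P b)) 0 with h1 | h1 | h1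
    · exact h1
    · obtain ⟨u, hu, hu2⟩ := exists_adj_pos hP h1 ⟨a₀, ha₀'⟩
      exact absurd hu.symm (hs.noedge u (hpos u hu2) b hb)
    · exact absurd hb (hs.disjAB b (hpos b h1))
  have h2 := c1 A B hs h hT a₀ ha₀ ha₀'
  refine ⟨fun a ha => ?_, h2⟩
  obtain ⟨b, hb⟩ := hs.neB
  have h3 := c1 B A hs.symm (-h) (fun v hv => by simp [hT v hv]) b hb
    (by simpa using h2 b hb) a ha
  simpa using h3

theorem Sep.signs {P : V → W} {κ : W →ₗ[ℝ] ℝ} (hP : Poly P κ) {A T B : Finset V}
    (hs : Sep P A T B) {h : W →ₗ[ℝ] ℝ} (h0 : h ≠ 0) (hT : ∀ v ∈ T, h (P v) = 0) :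
    ((∀ a ∈ A, 0 < h (P a)) ∧ ∀ b ∈ B, h (P b) < 0) ∨
      ((∀ a ∈ A, h (P a) < 0) ∧ ∀ b ∈ B, 0 < h (P b)) := by
  have : ∃ x, h (P x) ≠ 0 := by
    by_contra hcon
    push Not at hcon
    exact h0 (hP.span h hcon)
  obtain ⟨x, hx⟩ := this
  have hxT : x ∉ T := fun hxT => hx (hT x hxT)
  have hT' : ∀ v ∈ T, (-h) (P v) = 0 := fun v hv => by simp [hT v hv]
  rcases hs.cover x with hxA | hxA | hxA
  · rcases lt_or_gt_of_ne hx with hx | hx
    · right
      have := hs.signs_aux hP hT' hxA (by simpa using hx)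
      simpa using this
    · left
      exact hs.signs_aux hP hT hxA hx
  · exact absurd hxA hxT
  · rcases lt_or_gt_of_ne hx with hx | hx
    · left
      have := hs.symm.signs_aux hP hT' hxA (by simpa using hx)
      exact ⟨by simpa using this.2, by simpa using this.1⟩
    · right
      have := hs.symm.signs_aux hP hT hxA hx
      exact ⟨this.2, this.1⟩

/-- `T` together with any further vertex spans. -/
theorem Sep.span_insert {P : V → W} {κ : W →ₗ[ℝ] ℝ} (hP : Poly P κ) {A T B : Finset V}
    (hs : Sep P A T B) {h : W →ₗ[ℝ] ℝ} (hT : ∀ v ∈ T, h (P v) = 0) {z : V} (hz : z ∉ T)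
    (hz0 : h (P z) = 0) : h = 0 := by
  by_contra h0
  rcases hs.signs hP h0 hT with ⟨h1, h2⟩ | ⟨h1, h2⟩
  · rcases hs.cover z with h3 | h3 | h3
    · exact (h1 z h3).ne' hz0
    · exact hz h3
    · exact (h2 z h3).ne hz0
  · rcases hs.cover z with h3 | h3 | h3
    · exact (h1 z h3).ne hz0
    · exact hz h3
    · exact (h2 z h3).ne' hz0

/-- The tilting argument on one side of a separation: if `h > 0` on `A`, `h = 0` on `T`,
`h < 0` on `B`, `ψ ≤ 0` on `T` and `ψ z < 0` for some `z ∈ T`, then some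
`g = ψ + t h` is supporting, and vanishes at some vertex of `A`. -/
theorem Sep.tilt {P : V → W} {κ : W →ₗ[ℝ] ℝ} (hP : Poly P κ) {A T B : Finset V}
    (hs : Sep P A T B) {h ψ : W →ₗ[ℝ] ℝ} (hA : ∀ a ∈ A, 0 < h (P a))
    (hT : ∀ v ∈ T, h (P v) = 0) (hψ : ∀ v ∈ T, ψ (P v) ≤ 0) {z : V} (hz : z ∈ T)
    (hψz : ψ (P z) < 0) :
    ∃ F : Finset V, PFace P F ∧ z ∉ F ∧ (∀ v ∈ T, ψ (P v) = 0 → v ∈ F) ∧ ∃ a ∈ A, a ∈ F := by
  classical
  obtain ⟨a, ha, hmin⟩ := Finset.exists_min_image A (fun v => -ψ (P v) / h (P v)) hs.neA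
  set t := -ψ (P a) / h (P a) with ht
  have hga : (ψ + t • h) (P a) = 0 := by
    have := (hA a ha).ne'
    simp only [LinearMap.add_apply, LinearMap.smul_apply, smul_eq_mul, ht]
    field_simp
    ring
  have hgA : ∀ v ∈ A, (ψ + t • h) (P v) ≤ 0 := by
    intro v hv
    have h1 := hmin v hv
    have h2 := hA v hv
    have h3 : t * h (P v) ≤ -ψ (P v) / h (P v) * h (P v) :=
      mul_le_mul_of_nonneg_right h1 h2.le
    have h4 : -ψ (P v) / h (P v) * h (P v) = -ψ (P v) := by field_simp
    simp only [LinearMap.add_apply, LinearMap.smul_apply, smul_eq_mul]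
    linarith
  have hgT : ∀ v ∈ T, (ψ + t • h) (P v) = ψ (P v) := by
    intro v hv
    simp [hT v hv]
  have hg : ∀ v, (ψ + t • h) (P v) ≤ 0 := by
    by_contra hcon
    push Not at hcon
    obtain ⟨u, hu, hu2⟩ := exists_adj_pos hP hga hcon
    rcases hs.cover u with h1 | h1 | h1
    · exact absurd (hgA u h1) (not_le.2 hu2)
    · rw [hgT u h1] at hu2
      exact absurd (hψ u h1) (not_le.2 hu2)
    · exact hs.noedge a ha u h1 hu
  have hzF : z ∉ (univ.filter fun v => (ψ + t • h) (P v) = 0) := by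
    simp only [Finset.mem_filter, Finset.mem_univ, true_and]
    rw [hgT z hz]
    exact hψz.ne
  refine ⟨univ.filter fun v => (ψ + t • h) (P v) = 0, ⟨⟨ψ + t • h, fun v hv => by
    simpa using hv, fun v hv => ?_⟩, fun hu => ?_⟩, hzF, fun v hv hv0 => ?_, a, ha, ?_⟩
  · exact lt_of_le_of_ne (hg v) (by simpa using hv)
  · rw [hu] at hzF
    exact hzF (Finset.mem_univ z)
  · simp only [Finset.mem_filter, Finset.mem_univ, true_and]
    rw [hgT v hv, hv0]
  · simpa using hga

/-- a proper face has at most four vertices -/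
theorem PFace.card_le {P : V → W} {κ : W →ₗ[ℝ] ℝ} (hP : Poly P κ) {F : Finset V}
    (hF : PFace P F) : F.card ≤ 4 := by
  classical
  have := hP.fin
  by_contra hcon
  have hli := hP.simp F hF
  have h1 : Fintype.card F ≤ finrank ℝ W := hli.fintype_card_le_finrank
  rw [hP.dim, Fintype.card_coe] at h1
  have h2 : Fintype.card F = finrank ℝ W := by
    rw [hP.dim, Fintype.card_coe]; omega
  have hne : F.Nonempty := Finset.card_pos.1 (by omega)
  obtain ⟨x₀, hx₀⟩ := hne
  have : Nonempty F := ⟨⟨x₀, hx₀⟩⟩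
  have h3 := hli.span_eq_top_of_card_eq_finrank h2
  obtain ⟨⟨φ, h0, h4⟩, hne⟩ := hF
  have hφ : φ = 0 := by
    apply LinearMap.ext_on_range h3
    intro v
    simpa using h0 v v.2
  apply hne
  rw [Finset.eq_univ_iff_forall]
  intro v
  by_contra hv
  have := h4 v hv
  rw [hφ] at this
  simp at this

/-- the hypothesis that no missing face has dimension at least three -/
def NoMissing (P : V → W) : Prop :=
  ∀ F : Finset V, 4 ≤ F.card → (∀ G : Finset V, G ⊂ F → PFace P G) → PFace P F

/-- Every separating set has at least five vertices. -/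
theorem Sep.card_ge {P : V → W} {κ : W →ₗ[ℝ] ℝ} (hP : Poly P κ) (hm : NoMissing P)
    {A T B : Finset V} (hs : Sep P A T B) : 5 ≤ T.card := by
  classical
  by_contra hcon
  have hT4 : T.card ≤ 4 := by omega
  obtain ⟨h, hne, hT⟩ := exists_vanishing hP T hT4
  -- the statement is symmetric in `A` and `B`; we may assume that `h > 0` on `A`
  have key : ∀ (A B : Finset V) (h : W →ₗ[ℝ] ℝ), Sep P A T B → (∀ v ∈ T, h (P v) = 0) →
      (∀ a ∈ A, 0 < h (P a)) → (∀ b ∈ B, h (P b) < 0) → False := by
    intro A B h hs hT hA hB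
    obtain ⟨a, ha⟩ := hs.neA
    have haT : a ∉ T := fun h => hs.disjA a h ha
    by_cases hc : T.card ≤ 3
    · obtain ⟨g, hg, hg2⟩ := exists_vanishing hP (insert a T) (by
        have := Finset.card_insert_le a T; omega)
      exact hg (hs.span_insert hP (fun v hv => hg2 v (Finset.mem_insert_of_mem hv)) haT
        (hg2 a (Finset.mem_insert_self _ _)))
    · have hface : ∀ z ∈ T, PFace P (T.erase z) := by
        intro z hz
        obtain ⟨g, hg, hg2⟩ := exists_vanishing hP (insert a (T.erase z)) (by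
          have h1 := Finset.card_insert_le a (T.erase z)
          have h2 := Finset.card_erase_of_mem hz
          omega)
        have hgT : ∀ v ∈ T, v ≠ z → g (P v) = 0 := fun v hv hvz =>
          hg2 v (Finset.mem_insert_of_mem (Finset.mem_erase.2 ⟨hvz, hv⟩))
        have hgz : g (P z) ≠ 0 := by
          intro hz0
          refine hg (hs.span_insert hP (fun v hv => ?_) haT (hg2 a (Finset.mem_insert_self _ _)))
          by_cases hvz : v = z
          · rw [hvz, hz0]
          · exact hgT v hv hvz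
        have aux : ∀ g : W →ₗ[ℝ] ℝ, (∀ v ∈ T, v ≠ z → g (P v) = 0) → g (P z) < 0 →
            PFace P (T.erase z) := by
          intro g hgT hgz
          obtain ⟨F, hF, hzF, hTF, -⟩ := hs.tilt hP hA hT (ψ := g) (fun v hv => by
            by_cases hvz : v = z
            · rw [hvz]; exact hgz.le
            · rw [hgT v hv hvz]) hz hgz
          refine hF.mono hP fun v hv => ?_
          rw [Finset.mem_erase] at hv
          exact hTF v hv.2 (hgT v hv.2 hv.1)
        rcases lt_or_gt_of_ne hgz with h1 | h1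
        · exact aux g hgT h1
        · exact aux (-g) (fun v hv hvz => by simp [hgT v hv hvz]) (by simpa using h1)
      have hTface : PFace P T := by
        refine hm T (by omega) fun G hG => ?_
        obtain ⟨z, hz, hzG⟩ := Finset.exists_of_ssubset hG
        exact (hface z hz).mono hP (Finset.subset_erase.2 ⟨hG.1, hzG⟩)
      obtain ⟨⟨φ, h0, h1⟩, -⟩ := hTface
      obtain ⟨b, hb⟩ := hs.neB
      have hφ : φ ≠ 0 := by
        rintro rfl
        have := h1 a haT
        simp at this
      have hbT : b ∉ T := fun h => hs.disjB b h hb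
      rcases hs.signs hP hφ h0 with ⟨h2, -⟩ | ⟨-, h2⟩
      · exact absurd (h2 a ha) (not_lt.2 (h1 a haT).le)
      · exact absurd (h2 b hb) (not_lt.2 (h1 b hbT).le)
  rcases hs.signs hP hne hT with ⟨h1, h2⟩ | ⟨h1, h2⟩
  · exact key A B h hs hT h1 h2
  · exact key B A h hs.symm hT h2 h1

/-- A separating set minus one vertex still spans a hyperplane: all functionals vanishing on
it are multiples of one functional. -/
theorem Sep.near_span {P : V → W} {κ : W →ₗ[ℝ] ℝ} (hP : Poly P κ) (hm : NoMissing P)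
    {A T B : Finset V} (hs : Sep P A T B) {s : V} (hsT : s ∈ T) :
    ∃ h : W →ₗ[ℝ] ℝ, ∀ l : W →ₗ[ℝ] ℝ, (∀ v ∈ T, v ≠ s → l (P v) = 0) → ∃ c : ℝ, l = c • h := by
  classical
  have h5 := hs.card_ge hP hm
  by_cases hex : ∃ h : W →ₗ[ℝ] ℝ, h ≠ 0 ∧ ∀ v ∈ T, h (P v) = 0
  · obtain ⟨h, hne, hT⟩ := hex
    refine ⟨h, fun l hl => ?_⟩
    -- first, `l` vanishes at `s`
    have key : ∀ (A B : Finset V) (h : W →ₗ[ℝ] ℝ), Sep P A T B → (∀ v ∈ T, h (P v) = 0) →
        (∀ a ∈ A, 0 < h (P a)) → ∀ l : W →ₗ[ℝ] ℝ, (∀ v ∈ T, v ≠ s → l (P v) = 0) →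
        l (P s) < 0 → False := by
      intro A B h hs hT hA l hl hls
      obtain ⟨F, hF, hsF, hTF, a, ha, haF⟩ := hs.tilt hP hA hT (ψ := l) (fun v hv => by
        by_cases hvz : v = s
        · rw [hvz]; exact hls.le
        · rw [hl v hv hvz]) hsT hls
      have hsub : insert a (T.erase s) ⊆ F := by
        intro v hv
        rw [Finset.mem_insert, Finset.mem_erase] at hv
        rcases hv with rfl | ⟨hvs, hvT⟩
        · exact haF
        · exact hTF v hvT (hl v hvT hvs)
      have h1 := Finset.card_le_card hsub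
      have h2 : (insert a (T.erase s)).card = T.card := by
        rw [Finset.card_insert_of_notMem, Finset.card_erase_of_mem hsT]
        · have := Finset.card_pos.2 ⟨s, hsT⟩; omega
        · intro h
          exact hs.disjA a (Finset.mem_of_mem_erase h) ha
      have h3 := hF.card_le hP
      omega
    have key2 : ∀ l : W →ₗ[ℝ] ℝ, (∀ v ∈ T, v ≠ s → l (P v) = 0) → ¬ l (P s) < 0 := by
      intro l hl hls
      rcases hs.signs hP hne hT with ⟨h1, h2⟩ | ⟨h1, h2⟩
      · exact key A B h hs hT h1 l hl hls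
      · exact key B A h hs.symm hT h2 l hl hls
    have hls : l (P s) = 0 := by
      rcases lt_trichotomy (l (P s)) 0 with h1 | h1 | h1
      · exact absurd h1 (key2 l hl)
      · exact h1
      · exact absurd (by simpa using h1) (key2 (-l) fun v hv hvs => by simp [hl v hv hvs])
    have hlT : ∀ v ∈ T, l (P v) = 0 := by
      intro v hv
      by_cases hvs : v = s
      · rw [hvs, hls]
      · exact hl v hv hvs
    obtain ⟨a, ha⟩ := hs.neA
    have haT : a ∉ T := fun h => hs.disjA a h ha
    have hha : h (P a) ≠ 0 := by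
      intro h0
      exact hne (hs.span_insert hP hT haT h0)
    refine ⟨l (P a) / h (P a), ?_⟩
    rw [← sub_eq_zero]
    refine hs.span_insert hP (fun v hv => ?_) haT ?_
    · simp [hlT v hv, hT v hv]
    · simp only [LinearMap.sub_apply, LinearMap.smul_apply, smul_eq_mul]
      field_simp
      ring
  · push Not at hex
    by_cases hex2 : ∃ h : W →ₗ[ℝ] ℝ, h ≠ 0 ∧ ∀ v ∈ T, v ≠ s → h (P v) = 0
    · obtain ⟨h, hne, hT⟩ := hex2
      have hhs : h (P s) ≠ 0 := by
        intro h0
        obtain ⟨v, hv, hv2⟩ := hex h hne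
        by_cases hvs : v = s
        · rw [hvs] at hv2; exact hv2 h0
        · exact hv2 (hT v hv hvs)
      refine ⟨h, fun l hl => ⟨l (P s) / h (P s), ?_⟩⟩
      by_contra hcon
      have hcon' : l - (l (P s) / h (P s)) • h ≠ 0 := fun h => hcon (sub_eq_zero.1 h)
      obtain ⟨v, hv, hv2⟩ := hex _ hcon'
      apply hv2
      by_cases hvs : v = s
      · rw [hvs]
        simp only [LinearMap.sub_apply, LinearMap.smul_apply, smul_eq_mul]
        field_simp
        ring
      · simp [hl v hv hvs, hT v hv hvs]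
    · push Not at hex2
      refine ⟨0, fun l hl => ⟨0, ?_⟩⟩
      by_contra hcon
      have hl0 : l ≠ 0 := fun h => hcon (by rw [h, smul_zero])
      obtain ⟨v, hv, hvs, hv2⟩ := hex2 l hl0
      exact hv2 (hl v hv hvs)

/-- closed neighbourhood of a vertex -/
def nb (P : V → W) (u : V) : Set V := {v | v = u ∨ Adj P u v}

theorem self_mem_nb {P : V → W} (u : V) : u ∈ nb P u := Or.inl rfl

/-- the common closed neighbourhood of two adjacent vertices spans -/
theorem nb_inter_span {P : V → W} {κ : W →ₗ[ℝ] ℝ} (hP : Poly P κ) {u w : V}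
    (huw : Adj P u w) {l : W →ₗ[ℝ] ℝ} (hl : ∀ v ∈ nb P u, v ∈ nb P w → l (P v) = 0) :
    l = 0 := by
  classical
  by_contra h0
  have key : ∀ l : W →ₗ[ℝ] ℝ, (∀ v ∈ nb P u, v ∈ nb P w → l (P v) = 0) →
      (∃ x, 0 < l (P x)) → False := by
    intro l hl hx
    have hu : l (P u) = 0 := hl u (self_mem_nb u) (Or.inr huw.symm)
    have hw : l (P w) = 0 := hl w (Or.inr huw) (self_mem_nb w)
    obtain ⟨v, hv, hv2⟩ := huw.2.extend hP (h := l) (by
      have := Finset.card_insert_le u {w}
      simp only [Finset.card_singleton] at this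
      omega) (by
      intro v hv
      simp only [Finset.mem_insert, Finset.mem_singleton] at hv
      rcases hv with rfl | rfl
      · exact hu
      · exact hw) hx
    have hvu : v ≠ u := by rintro rfl; rw [hu] at hv; exact lt_irrefl _ hv
    have hvw : v ≠ w := by rintro rfl; rw [hw] at hv; exact lt_irrefl _ hv
    have h1 : Adj P u v := ⟨hvu.symm, hv2.mono hP (by
      intro x hx
      simp only [Finset.mem_insert, Finset.mem_singleton] at hx ⊢
      clear * - hx
      tauto)⟩
    have h2 : Adj P w v := ⟨hvw.symm, hv2.mono hP (by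
      intro x hx
      simp only [Finset.mem_insert, Finset.mem_singleton] at hx ⊢
      clear * - hx
      tauto)⟩
    rw [hl v (Or.inr h1) (Or.inr h2)] at hv
    exact lt_irrefl _ hv
  have : ∃ x, l (P x) ≠ 0 := by
    by_contra hcon
    push Not at hcon
    exact h0 (hP.span l hcon)
  obtain ⟨x, hx⟩ := this
  rcases lt_or_gt_of_ne hx with hx | hx
  · exact key (-l) (fun v h1 h2 => by simp [hl v h1 h2]) ⟨x, by simpa using hx⟩
  · exact key l hl ⟨x, hx⟩

end Pool.Agent.Lib.MP_36627d_co
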