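import Pool.Agent.Lib.MP_36627d_co.Star2

/-!
# Counting the facets through a vertex, and the absence of stresses on vertex stars
-/

open Finset Module

namespace Pool.Agent.Lib.MP_36627d_co

open scoped Classical

variable {V W : Type*} [Fintype V] [AddCommGroup W] [Module ℝ W]

/-- A generic height on the neighbours of `u`. -/
theorem exists_ratio {P : V → W} {κ : W →ₗ[ℝ] ℝ} (hP : Poly P κ) (u : V) :
    ∃ c g : W →ₗ[ℝ] ℝ, c (P u) = 0 ∧ (∀ v, v ≠ u → 0 < c (P v)) ∧ g (P u) = 0 ∧
      ∀ v v', Adj P u v → Adj P u v' → v ≠ v' → g (P v) / c (P v) ≠ g (P v') / c (P v') := by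
  classical
  obtain ⟨φ, hφ0, hφ1, -⟩ := (hP.vert u).support
  set c : W →ₗ[ℝ] ℝ := -φ with hcdef
  have hcu : c (P u) = 0 := by rw [hcdef, LinearMap.neg_apply, hφ0 u (by simp), neg_zero]
  have hcpos : ∀ v, v ≠ u → 0 < c (P v) := by
    intro v hv
    rw [hcdef, LinearMap.neg_apply]
    have := hφ1 v (by simpa using hv)
    linarith
  let N : Submodule ℝ (W →ₗ[ℝ] ℝ) :=
    { carrier := {f | f (P u) = 0}
      add_mem' := by
        rintro f g h1 h2
        have h1' : f (P u) = 0 := h1
        have h2' : g (P u) = 0 := h2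
        show (f + g) (P u) = 0
        rw [LinearMap.add_apply, h1', h2', add_zero]
      zero_mem' := rfl
      smul_mem' := by
        rintro c f h1
        have h1' : f (P u) = 0 := h1
        show (c • f) (P u) = 0
        rw [LinearMap.smul_apply, h1', smul_zero] }
  let ev : {p : V × V // Adj P u p.1 ∧ Adj P u p.2 ∧ p.1 ≠ p.2} → Dual ℝ (W →ₗ[ℝ] ℝ) := fun p =>
    { toFun := fun f => c (P p.1.2) * f (P p.1.1) - c (P p.1.1) * f (P p.1.2)
      map_add' := fun f g => by simp only [LinearMap.add_apply]; ring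
      map_smul' := fun t f => by
        simp only [LinearMap.smul_apply, smul_eq_mul, RingHom.id_apply]; ring }
  obtain ⟨g, hgN, hg⟩ := Module.Dual.exists_forall_mem_ne_zero_of_forall_exists N ev (by
    rintro ⟨⟨v, v'⟩, hv, hv', hne⟩
    obtain ⟨ψ, hψ0, hψ1, -⟩ := hv.2.support
    refine ⟨ψ, hψ0 u (by simp), ?_⟩
    show c (P v') * ψ (P v) - c (P v) * ψ (P v') ≠ 0
    rw [hψ0 v (by simp), mul_zero, zero_sub]
    refine neg_ne_zero.2 (mul_ne_zero (hcpos v hv.1.symm).ne' (hψ1 v' ?_).ne)
    simp only [Finset.mem_insert, Finset.mem_singleton]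
    push Not
    exact ⟨hv'.1.symm, hne.symm⟩)
  refine ⟨c, g, hcu, hcpos, hgN, fun v v' hv hv' hne h => ?_⟩
  have h1 := hg ⟨(v, v'), hv, hv', hne⟩
  have h2 : c (P v') * g (P v) - c (P v) * g (P v') ≠ 0 := h1
  have h3 := (hcpos v hv.1.symm).ne'
  have h4 := (hcpos v' hv'.1.symm).ne'
  rw [div_eq_div_iff h3 h4] at h
  apply h2
  linarith

/-- For every neighbour `a` there are at most two facets with `a` in the middle. -/
theorem middle_le {P : V → W} {κ : W →ₗ[ℝ] ℝ} (hP : Poly P κ) {u a : V}
    {c g : W →ₗ[ℝ] ℝ} (hcu : c (P u) = 0) (hcpos : ∀ v, v ≠ u → 0 < c (P v))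
    (hgu : g (P u) = 0) :
    (univ.filter fun t : V × V × V => (PFace P {u, t.1, t.2.1, t.2.2} ∧
      ({u, t.1, t.2.1, t.2.2} : Finset V).card = 4 ∧
      g (P t.1) / c (P t.1) < g (P t.2.1) / c (P t.2.1) ∧
      g (P t.2.1) / c (P t.2.1) < g (P t.2.2) / c (P t.2.2)) ∧ t.2.1 = a).card ≤ 2 := by
  classical
  set S := (univ.filter fun t : V × V × V => (PFace P {u, t.1, t.2.1, t.2.2} ∧
      ({u, t.1, t.2.1, t.2.2} : Finset V).card = 4 ∧
      g (P t.1) / c (P t.1) < g (P t.2.1) / c (P t.2.1) ∧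
      g (P t.2.1) / c (P t.2.1) < g (P t.2.2) / c (P t.2.2)) ∧ t.2.1 = a) with hS
  by_cases hne : S.Nonempty
  swap
  · rw [Finset.not_nonempty_iff_eq_empty.1 hne]; simp
  -- the functional `s`
  set s : W →ₗ[ℝ] ℝ := g - (g (P a) / c (P a)) • c with hs
  have hsv : ∀ v, s (P v) = g (P v) - (g (P a) / c (P a)) * c (P v) := fun v => rfl
  have hmem : ∀ t ∈ S, PFace P {u, a, t.2.2, t.1} ∧
      ({u, a, t.2.2, t.1} : Finset V).card = 4 ∧ 0 < s (P t.2.2) ∧ s (P t.1) < 0 ∧
      t.2.1 = a ∧ u ≠ a := by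
    intro t ht
    rw [hS] at ht
    simp only [Finset.mem_filter, Finset.mem_univ, true_and] at ht
    obtain ⟨⟨hF, hc4, h1, h2⟩, h3⟩ := ht
    have hperm : ({u, t.1, t.2.1, t.2.2} : Finset V) = {u, a, t.2.2, t.1} := by
      rw [h3]
      ext v
      simp only [Finset.mem_insert, Finset.mem_singleton]
      clear * - v
      tauto
    rw [hperm] at hF hc4
    rw [h3] at h1 h2
    obtain ⟨c1, c2, c3, -, -, -⟩ := card4 hc4
    have p1 := hcpos t.1 c3.symm
    have p2 := hcpos t.2.2 c2.symm
    refine ⟨hF, hc4, ?_, ?_, h3, c1⟩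
    · rw [hsv]
      rw [lt_div_iff₀ p2] at h2
      linarith
    · rw [hsv]
      rw [div_lt_iff₀ p1] at h1
      linarith
  obtain ⟨t₀, ht₀⟩ := hne
  obtain ⟨-, -, hs1, hs2, -, hua⟩ := hmem t₀ ht₀
  have hca := (hcpos a hua.symm).ne'
  have hsu : s (P u) = 0 := by rw [hsv, hgu, hcu]; ring
  have hsa : s (P a) = 0 := by
    rw [hsv]
    field_simp
    ring
  -- an interior vector on which `s` vanishes
  have hinner : ∃ e, Inner P u e ∧ s e = 0 := by
    have key : ∀ b : V, s (P b) ≠ 0 → 0 ≤ - (s (ee P)) / s (P b) →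
        ∃ e, Inner P u e ∧ s e = 0 := by
      intro b hb hnn
      refine ⟨∑ v, (1 + if v = b then - (s (ee P)) / s (P b) else 0) • P v,
        inner_of_pos u (fun v => ?_), ?_⟩
      · split_ifs <;> linarith
      · have h1 : ∑ v, (1 + if v = b then - (s (ee P)) / s (P b) else 0) • P v =
            ee P + (- (s (ee P)) / s (P b)) • P b := by
          simp only [add_smul, one_smul, Finset.sum_add_distrib, ee, ite_smul, zero_smul,
            Finset.sum_ite_eq', Finset.mem_univ, if_true]
        rw [h1, map_add, map_smul, smul_eq_mul]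
        field_simp
        ring
    rcases le_total (s (ee P)) 0 with h1 | h1
    · exact key t₀.2.2 hs1.ne' (div_nonneg (by linarith) hs1.le)
    · exact key t₀.1 hs2.ne (div_nonneg_of_nonpos (by linarith) hs2.le)
  obtain ⟨e, he, hse⟩ := hinner
  obtain ⟨τ, hτ0, hτ⟩ := exists_kill hP {P u, P a, e, P t₀.2.2} Finset.card_le_four
  have hτu : τ (P u) = 0 := hτ _ (by simp)
  have hτa : τ (P a) = 0 := hτ _ (by simp)
  have hτe : τ e = 0 := hτ _ (by simp)
  have hτb : τ (P t₀.2.2) = 0 := hτ _ (by simp)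
  have hτs : ∀ c : ℝ, τ ≠ c • s := by
    rintro c rfl
    rw [LinearMap.smul_apply, smul_eq_mul] at hτb
    rcases mul_eq_zero.1 hτb with h1 | h1
    · exact hτ0 (by rw [h1, zero_smul])
    · exact hs1.ne' h1
  -- the sign map
  let f : V × V × V → Bool := fun t =>
    decide (0 < s (P t.2.2) * τ (P t.1) - s (P t.1) * τ (P t.2.2))
  have hcard : S.card ≤ (univ : Finset Bool).card := by
    refine Finset.card_le_card_of_injOn f (fun _ _ => Finset.mem_univ _) ?_
    intro t ht t' ht' hff
    obtain ⟨hF, hc4, hb, hx, hta, -⟩ := hmem t ht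
    obtain ⟨hF', hc4', hb', hx', hta', -⟩ := hmem t' ht'
    have n1 := crossing_ne hP he hsu hsa hse hτu hτa hτe hF hc4 hb.ne' hτs
    have n2 := crossing_ne hP he hsu hsa hse hτu hτa hτe hF' hc4' hb'.ne' hτs
    have hpos : 0 < (s (P t.2.2) * τ (P t.1) - s (P t.1) * τ (P t.2.2)) *
        (s (P t'.2.2) * τ (P t'.1) - s (P t'.1) * τ (P t'.2.2)) := by
      have hff' : (0 < s (P t.2.2) * τ (P t.1) - s (P t.1) * τ (P t.2.2)) ↔
          (0 < s (P t'.2.2) * τ (P t'.1) - s (P t'.1) * τ (P t'.2.2)) := by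
        have := hff
        simp only [f, decide_eq_decide] at this
        exact this
      rcases lt_or_gt_of_ne n1 with h1 | h1
      · rcases lt_or_gt_of_ne n2 with h2 | h2
        · exact mul_pos_of_neg_of_neg h1 h2
        · exact absurd (hff'.2 h2) (not_lt.2 h1.le)
      · exact mul_pos h1 (hff'.1 h1)
    obtain ⟨h1, h2⟩ := crossing hP he hsu hsa hse hτu hτa hτe hF hc4 hF' hb hx hb' hx' hpos
    obtain ⟨x1, x2, x3⟩ := t
    obtain ⟨y1, y2, y3⟩ := t'
    simp only at h1 h2 hta hta'
    rw [h1, h2, hta, hta']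
  simpa using hcard

/-- neighbours of `u` -/
noncomputable def Nbr (P : V → W) (u : V) : Finset V := univ.filter fun v => Adj P u v

theorem mem_Nbr {P : V → W} {u v : V} : v ∈ Nbr P u ↔ Adj P u v := by
  simp [Nbr]

/-- edges of the link of `u`, oriented by the height `r` -/
noncomputable def Edg (P : V → W) (u : V) (r : V → ℝ) : Finset (V × V) :=
  univ.filter fun p => PFace P {u, p.1, p.2} ∧ ({u, p.1, p.2} : Finset V).card = 3 ∧
    r p.1 < r p.2

omit [Fintype V] in
theorem card3 {u a b : V} (h : ({u, a, b} : Finset V).card = 3) : u ≠ a ∧ u ≠ b ∧ a ≠ b := by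
  refine ⟨?_, ?_, ?_⟩ <;> rintro rfl
  · have h1 : ({u, u, b} : Finset V) = {u, b} := by simp
    rw [h1] at h
    have := Finset.card_le_two (a := u) (b := b)
    omega
  · have h1 : ({u, a, u} : Finset V) = {u, a} := by
      ext v; simp only [Finset.mem_insert, Finset.mem_singleton]; clear * - v; tauto
    rw [h1] at h
    have := Finset.card_le_two (a := u) (b := a)
    omega
  · have h1 : ({u, a, a} : Finset V) = {u, a} := by
      ext v; simp only [Finset.mem_insert, Finset.mem_singleton]; clear * - v; tauto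
    rw [h1] at h
    have := Finset.card_le_two (a := u) (b := a)
    omega

/-- Euler's bound for the link of a vertex -/
theorem edge_bound {P : V → W} {κ : W →ₗ[ℝ] ℝ} (hP : Poly P κ) {u : V}
    {c g : W →ₗ[ℝ] ℝ} (hcu : c (P u) = 0) (hcpos : ∀ v, v ≠ u → 0 < c (P v))
    (hgu : g (P u) = 0)
    (hinj : ∀ v v', Adj P u v → Adj P u v' → v ≠ v' →
      g (P v) / c (P v) ≠ g (P v') / c (P v')) :
    (Edg P u (fun v => g (P v) / c (P v))).card + 6 ≤ 3 * (Nbr P u).card := by
  classical
  set r : V → ℝ := fun v => g (P v) / c (P v) with hr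
  set Tri := (univ.filter fun t : V × V × V => PFace P {u, t.1, t.2.1, t.2.2} ∧
      ({u, t.1, t.2.1, t.2.2} : Finset V).card = 4 ∧ r t.1 < r t.2.1 ∧ r t.2.1 < r t.2.2)
    with hTri
  set O3 := (univ.filter fun t : V × V × V => PFace P {u, t.1, t.2.1, t.2.2} ∧
      ({u, t.1, t.2.1, t.2.2} : Finset V).card = 4) with hO3
  set O2 := (univ.filter fun p : V × V => PFace P {u, p.1, p.2} ∧
      ({u, p.1, p.2} : Finset V).card = 3) with hO2
  have hadj4 : ∀ a b x, PFace P {u, a, b, x} → ({u, a, b, x} : Finset V).card = 4 →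
      Adj P u a ∧ Adj P u b ∧ Adj P u x := by
    intro a b x hF hc4
    obtain ⟨c1, c2, c3, c4, c5, c6⟩ := card4 hc4
    refine ⟨⟨c1, hF.mono hP ?_⟩, ⟨c2, hF.mono hP ?_⟩, ⟨c3, hF.mono hP ?_⟩⟩ <;>
    · intro v hv
      simp only [Finset.mem_insert, Finset.mem_singleton] at hv ⊢
      clear * - hv
      tauto
  -- extreme vertices
  obtain ⟨G, hG, hGF, hGc⟩ := (hP.vert u).exists_facet hP
  have huG : u ∈ G := hG (Finset.mem_singleton_self u)
  obtain ⟨a, b, x, hab, hax, hbx, hGe⟩ := Finset.card_eq_three.1 (by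
    rw [Finset.card_erase_of_mem huG, hGc] : (G.erase u).card = 3)
  have hGu : G = {u, a, b, x} := by rw [← Finset.insert_erase huG, hGe]
  rw [hGu] at hGF hGc
  obtain ⟨hua, hub, hux⟩ := hadj4 a b x hGF hGc
  have haN : a ∈ Nbr P u := mem_Nbr.2 hua
  have hbN : b ∈ Nbr P u := mem_Nbr.2 hub
  obtain ⟨top, htop, htopmax⟩ := Finset.exists_max_image (Nbr P u) r ⟨a, haN⟩
  obtain ⟨bot, hbot, hbotmin⟩ := Finset.exists_min_image (Nbr P u) r ⟨a, haN⟩
  have htb : top ≠ bot := by
    rintro h
    rw [← h] at hbotmin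
    have h1 := le_antisymm (htopmax a haN) (hbotmin a haN)
    have h2 := le_antisymm (htopmax b hbN) (hbotmin b hbN)
    exact hinj a b hua hub hab (by show r a = r b; rw [h1, h2])
  have hNc : ((Nbr P u).erase top).erase bot = ((Nbr P u).erase top).erase bot := rfl
  have hNcard : (((Nbr P u).erase top).erase bot).card + 2 = (Nbr P u).card := by
    rw [Finset.card_erase_of_mem (Finset.mem_erase.2 ⟨htb.symm, hbot⟩),
      Finset.card_erase_of_mem htop]
    have : 1 < (Nbr P u).card := Finset.one_lt_card.2 ⟨top, htop, bot, hbot, htb⟩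
    omega
  -- (4) `|Tri| ≤ 2 (deg - 2)`
  have h4 : Tri.card ≤ 2 * (((Nbr P u).erase top).erase bot).card := by
    refine Finset.card_le_mul_card_image_of_maps_to (f := fun t : V × V × V => t.2.1)
      (fun t ht => ?_) 2 (fun a' _ => ?_)
    · rw [hTri] at ht
      simp only [Finset.mem_filter, Finset.mem_univ, true_and] at ht
      obtain ⟨hF, hc4, h1, h2⟩ := ht
      obtain ⟨n1, n2, n3⟩ := hadj4 _ _ _ hF hc4
      refine Finset.mem_erase.2 ⟨?_, Finset.mem_erase.2 ⟨?_, mem_Nbr.2 n2⟩⟩
      · intro h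
        have h' : t.2.1 = bot := h
        rw [h'] at h1
        exact absurd (hbotmin t.1 (mem_Nbr.2 n1)) (not_le.2 h1)
      · intro h
        have h' : t.2.1 = top := h
        rw [h'] at h2
        exact absurd (htopmax t.2.2 (mem_Nbr.2 n3)) (not_le.2 h2)
    · rw [hTri, Finset.filter_filter]
      exact middle_le hP hcu hcpos hgu
  -- (3) `|O3| ≤ 6 |Tri|`
  let pm : Fin 6 → V × V × V → V × V × V := fun i t =>
    match i with
    | 0 => (t.1, t.2.1, t.2.2)
    | 1 => (t.1, t.2.2, t.2.1)
    | 2 => (t.2.1, t.1, t.2.2)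
    | 3 => (t.2.1, t.2.2, t.1)
    | 4 => (t.2.2, t.1, t.2.1)
    | 5 => (t.2.2, t.2.1, t.1)
  have h3 : O3.card ≤ 6 * Tri.card := by
    have hsub : O3 ⊆ (univ : Finset (Fin 6)).biUnion fun i => Tri.image (pm i) := by
      rintro ⟨a, b, x⟩ ht
      rw [hO3] at ht
      simp only [Finset.mem_filter, Finset.mem_univ, true_and] at ht
      obtain ⟨hF, hc4⟩ := ht
      obtain ⟨n1, n2, n3⟩ := hadj4 _ _ _ hF hc4
      obtain ⟨c1, c2, c3, c4, c5, c6⟩ := card4 hc4
      have r1 : r a ≠ r b := hinj a b n1 n2 c4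
      have r2 : r a ≠ r x := hinj a x n1 n3 c5
      have r3 : r b ≠ r x := hinj b x n2 n3 c6
      have e1 : ({u, a, x, b} : Finset V) = {u, a, b, x} := insert4_swap'
      have e2 : ({u, b, a, x} : Finset V) = {u, a, b, x} := insert4_swap
      have e3 : ({u, b, x, a} : Finset V) = {u, a, b, x} := by
        ext v; simp only [Finset.mem_insert, Finset.mem_singleton]; clear * - v; tauto
      have e4 : ({u, x, a, b} : Finset V) = {u, a, b, x} := by
        ext v; simp only [Finset.mem_insert, Finset.mem_singleton]; clear * - v; tauto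
      have e5 : ({u, x, b, a} : Finset V) = {u, a, b, x} := by
        ext v; simp only [Finset.mem_insert, Finset.mem_singleton]; clear * - v; tauto
      simp only [Finset.mem_biUnion, Finset.mem_univ, true_and, Finset.mem_image]
      rcases lt_or_gt_of_ne r1 with q1 | q1 <;> rcases lt_or_gt_of_ne r2 with q2 | q2 <;>
        rcases lt_or_gt_of_ne r3 with q3 | q3
      · exact ⟨0, (a, b, x), by
          rw [hTri]; simp only [Finset.mem_filter, Finset.mem_univ, true_and]
          exact ⟨hF, hc4, q1, q3⟩, rfl⟩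
      · exact ⟨1, (a, x, b), by
          rw [hTri]; simp only [Finset.mem_filter, Finset.mem_univ, true_and]
          rw [e1]; exact ⟨hF, hc4, q2, q3⟩, rfl⟩
      · exact absurd (q1.trans q3) (not_lt.2 q2.le)
      · exact ⟨3, (x, a, b), by
          rw [hTri]; simp only [Finset.mem_filter, Finset.mem_univ, true_and]
          rw [e4]; exact ⟨hF, hc4, q2, q1⟩, rfl⟩
      · exact ⟨2, (b, a, x), by
          rw [hTri]; simp only [Finset.mem_filter, Finset.mem_univ, true_and]
          rw [e2]; exact ⟨hF, hc4, q1, q2⟩, rfl⟩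
      · exact absurd (q2.trans q3) (not_lt.2 q1.le)
      · exact ⟨4, (b, x, a), by
          rw [hTri]; simp only [Finset.mem_filter, Finset.mem_univ, true_and]
          rw [e3]; exact ⟨hF, hc4, q3, q2⟩, rfl⟩
      · exact ⟨5, (x, b, a), by
          rw [hTri]; simp only [Finset.mem_filter, Finset.mem_univ, true_and]
          rw [e5]; exact ⟨hF, hc4, q3, q1⟩, rfl⟩
    calc O3.card ≤ _ := Finset.card_le_card hsub
      _ ≤ (univ : Finset (Fin 6)).card * Tri.card :=
          Finset.card_biUnion_le_card_mul _ _ _ fun i _ => Finset.card_image_le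
      _ = 6 * Tri.card := by simp
  -- (2) `2 |O2| ≤ |O3|`
  have h2 : 2 * O2.card ≤ O3.card := by
    refine Finset.mul_card_image_le_card_of_maps_to
      (f := fun t : V × V × V => (t.1, t.2.1)) (fun t ht => ?_) 2 (fun p hp => ?_)
    · rw [hO3] at ht
      rw [hO2]
      simp only [Finset.mem_filter, Finset.mem_univ, true_and] at ht ⊢
      obtain ⟨hF, hc4⟩ := ht
      obtain ⟨c1, c2, c3, c4, c5, c6⟩ := card4 hc4
      refine ⟨hF.mono hP ?_, ?_⟩
      · intro v hv
        simp only [Finset.mem_insert, Finset.mem_singleton] at hv ⊢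
        clear * - hv
        tauto
      · rw [Finset.card_eq_three]
        exact ⟨u, t.1, t.2.1, c1, c2, c4, rfl⟩
    · obtain ⟨a, b⟩ := p
      rw [hO2] at hp
      simp only [Finset.mem_filter, Finset.mem_univ, true_and] at hp
      obtain ⟨hF, hc3⟩ := hp
      obtain ⟨h, -, -, -, x, y, hx, hy, hhx, hhy, hxF, hyF, -⟩ := hF.ridge hP hc3
      have hxy : x ≠ y := by rintro rfl; linarith
      have hins : ∀ z, ({u, a, b, z} : Finset V) = insert z {u, a, b} := by
        intro z
        ext v
        simp only [Finset.mem_insert, Finset.mem_singleton]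
        clear * - v
        tauto
      have hsub : ({(a, b, x), (a, b, y)} : Finset (V × V × V)) ⊆
          O3.filter fun t : V × V × V => (t.1, t.2.1) = (a, b) := by
        intro t ht
        simp only [Finset.mem_insert, Finset.mem_singleton] at ht
        rw [hO3, Finset.filter_filter]
        simp only [Finset.mem_filter, Finset.mem_univ, true_and]
        rcases ht with rfl | rfl
        · simp only
          rw [hins x]
          exact ⟨⟨hxF, by rw [Finset.card_insert_of_notMem hx, hc3]⟩, trivial⟩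
        · simp only
          rw [hins y]
          exact ⟨⟨hyF, by rw [Finset.card_insert_of_notMem hy, hc3]⟩, trivial⟩
      have h5 := Finset.card_le_card hsub
      rw [Finset.card_pair (by simp [hxy])] at h5
      exact h5
  -- (1) `2 |Edg| ≤ |O2|`
  have h1 : 2 * (Edg P u r).card ≤ O2.card := by
    have hdisj : Disjoint (Edg P u r) ((Edg P u r).image Prod.swap) := by
      rw [Finset.disjoint_left]
      rintro ⟨a, b⟩ h1 h2
      simp only [Finset.mem_image, Prod.exists, Prod.swap_prod_mk, Prod.mk.injEq] at h2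
      obtain ⟨b', a', h3, rfl, rfl⟩ := h2
      rw [Edg] at h1 h3
      simp only [Finset.mem_filter, Finset.mem_univ, true_and] at h1 h3
      exact absurd h1.2.2 (not_lt.2 h3.2.2.le)
    have hsub : Edg P u r ∪ (Edg P u r).image Prod.swap ⊆ O2 := by
      intro p hp
      rw [Finset.mem_union] at hp
      rw [hO2]
      simp only [Finset.mem_filter, Finset.mem_univ, true_and]
      rcases hp with hp | hp
      · rw [Edg] at hp
        simp only [Finset.mem_filter, Finset.mem_univ, true_and] at hp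
        exact ⟨hp.1, hp.2.1⟩
      · rw [Finset.mem_image] at hp
        obtain ⟨q, hq, rfl⟩ := hp
        rw [Edg] at hq
        simp only [Finset.mem_filter, Finset.mem_univ, true_and] at hq
        have : ({u, q.swap.1, q.swap.2} : Finset V) = {u, q.1, q.2} := by
          ext v
          simp only [Finset.mem_insert, Finset.mem_singleton, Prod.fst_swap, Prod.snd_swap]
          clear * - v
          tauto
        rw [this]
        exact ⟨hq.1, hq.2.1⟩
    have h5 := Finset.card_le_card hsub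
    rw [Finset.card_union_of_disjoint hdisj, Finset.card_image_of_injective _
      Prod.swap_injective] at h5
    omega
  omega

end Pool.Agent.Lib.MP_36627d_co
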