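import Pool.Agent.Lib.MP_36627d_co.Facet

/-!
# The link of an edge: a linear functional changes sign exactly twice
-/

open Finset Module

namespace Pool.Agent.Lib.MP_36627d_co

open scoped Classical

variable {V W : Type*} [Fintype V] [AddCommGroup W] [Module ℝ W]

/-- `e` is interior to the cone at `u` -/
def Inner (P : V → W) (u : V) (e : W) : Prop :=
  ∀ F : Finset V, PFace P F → u ∈ F → ∀ φ : W →ₗ[ℝ] ℝ, (∀ v ∈ F, φ (P v) = 0) →
    (∀ v, v ∉ F → φ (P v) < 0) → φ e < 0

theorem inner_of_pos {P : V → W} (u : V) {t : V → ℝ} (ht : ∀ v, 0 < t v) :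
    Inner P u (∑ v, t v • P v) := by
  intro F hF _ φ h0 h1
  have hex : ∃ v, v ∉ F := by
    by_contra hcon
    push Not at hcon
    exact hF.2 (Finset.eq_univ_iff_forall.2 hcon)
  obtain ⟨v₀, hv₀⟩ := hex
  rw [map_sum]
  refine Finset.sum_neg' (fun v _ => ?_) ⟨v₀, Finset.mem_univ _, ?_⟩
  · rw [map_smul, smul_eq_mul]
    by_cases hv : v ∈ F
    · rw [h0 v hv, mul_zero]
    · exact (mul_neg_of_pos_of_neg (ht v) (h1 v hv)).le
  · rw [map_smul, smul_eq_mul]
    exact mul_neg_of_pos_of_neg (ht v₀) (h1 v₀ hv₀)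

theorem inner_ee (P : V → W) (u : V) : Inner P u (ee P) := by
  have := inner_of_pos (P := P) u (t := fun _ => 1) (fun _ => one_pos)
  simpa [ee] using this

/-- supporting functional normalised at `e` -/
theorem Inner.support {P : V → W} {u : V} {e : W} (he : Inner P u e) {F : Finset V}
    (hF : PFace P F) (hu : u ∈ F) :
    ∃ φ : W →ₗ[ℝ] ℝ, (∀ v ∈ F, φ (P v) = 0) ∧ (∀ v, v ∉ F → φ (P v) < 0) ∧ φ e = -1 := by
  obtain ⟨⟨φ, h0, h1⟩, hne⟩ := id hF
  have hneg := he F hF hu φ h0 h1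
  refine ⟨(-(φ e)⁻¹) • φ, fun v hv => ?_, fun v hv => ?_, ?_⟩
  · rw [LinearMap.smul_apply, h0 v hv, smul_zero]
  · rw [LinearMap.smul_apply, smul_eq_mul]
    have h2 : (φ e)⁻¹ < 0 := inv_lt_zero.2 hneg
    have h3 := h1 v hv
    nlinarith
  · rw [LinearMap.smul_apply, smul_eq_mul]
    have h2 : φ e ≠ 0 := hneg.ne
    field_simp

/-- two functionals that kill `P u`, `P a`, `e` and are not proportional are independent on
`P b`, `P x` for every facet `{u, a, b, x}` -/
theorem crossing_ne {P : V → W} {κ : W →ₗ[ℝ] ℝ} (hP : Poly P κ) {u a b x : V} {e : W}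
    (he : Inner P u e) {s τ : W →ₗ[ℝ] ℝ} (hsu : s (P u) = 0) (hsa : s (P a) = 0)
    (hse : s e = 0) (hτu : τ (P u) = 0) (hτa : τ (P a) = 0) (hτe : τ e = 0)
    (hF : PFace P {u, a, b, x}) (hc : ({u, a, b, x} : Finset V).card = 4)
    (hb : s (P b) ≠ 0) (hτ : ∀ c : ℝ, τ ≠ c • s) :
    s (P b) * τ (P x) - s (P x) * τ (P b) ≠ 0 := by
  intro h0
  obtain ⟨φ, hφ0, -, hφe⟩ := he.support hF (by simp)
  refine hτ (τ (P b) / s (P b)) (facet_ext hP hF hc hφ0 (e := e) (by rw [hφe]; norm_num)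
    (fun v hv => ?_) ?_)
  · simp only [Finset.mem_insert, Finset.mem_singleton] at hv
    rw [LinearMap.smul_apply, smul_eq_mul]
    rcases hv with rfl | rfl | rfl | rfl
    · rw [hsu, hτu, mul_zero]
    · rw [hsa, hτa, mul_zero]
    · field_simp
    · field_simp
      linarith
  · rw [LinearMap.smul_apply, hse, hτe, smul_zero]

/-- For each sign of `τ` there is at most one facet `{u, a, b, x}` on which `s` changes sign. -/
theorem crossing {P : V → W} {κ : W →ₗ[ℝ] ℝ} (hP : Poly P κ) {u a b x b' x' : V} {e : W}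
    (he : Inner P u e) {s τ : W →ₗ[ℝ] ℝ} (hsu : s (P u) = 0) (hsa : s (P a) = 0)
    (hse : s e = 0) (hτu : τ (P u) = 0) (hτa : τ (P a) = 0) (hτe : τ e = 0)
    (hF : PFace P {u, a, b, x}) (hc : ({u, a, b, x} : Finset V).card = 4)
    (hF' : PFace P {u, a, b', x'})
    (hb : 0 < s (P b)) (hx : s (P x) < 0) (hb' : 0 < s (P b')) (hx' : s (P x') < 0)
    (hr : 0 < (s (P b) * τ (P x) - s (P x) * τ (P b)) *
      (s (P b') * τ (P x') - s (P x') * τ (P b'))) : b = b' ∧ x = x' := by
  obtain ⟨φ, hφ0, hφ1, hφe⟩ := he.support hF (by simp)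
  obtain ⟨ψ, hψ0, hψ1, hψe⟩ := he.support hF' (by simp)
  have hφle : ∀ v, φ (P v) ≤ 0 := fun v => by
    by_cases hv : v ∈ ({u, a, b, x} : Finset V)
    · rw [hφ0 v hv]
    · exact (hφ1 v hv).le
  have hψle : ∀ v, ψ (P v) ≤ 0 := fun v => by
    by_cases hv : v ∈ ({u, a, b', x'} : Finset V)
    · rw [hψ0 v hv]
    · exact (hψ1 v hv).le
  set r := s (P b) * τ (P x) - s (P x) * τ (P b) with hrdef
  set r' := s (P b') * τ (P x') - s (P x') * τ (P b') with hrdef'
  have hr0 : r ≠ 0 := by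
    rintro h0
    rw [h0, zero_mul] at hr
    exact lt_irrefl _ hr
  have hφu := hφ0 u (by simp)
  have hφa := hφ0 a (by simp)
  have hφb := hφ0 b (by simp)
  have hφx := hφ0 x (by simp)
  have hψu := hψ0 u (by simp)
  have hψa := hψ0 a (by simp)
  have hψb := hψ0 b' (by simp)
  have hψx := hψ0 x' (by simp)
  set β := (s (P b) * (-ψ (P x)) - s (P x) * (-ψ (P b))) / r with hβ
  set α := ((-ψ (P b)) * τ (P x) - (-ψ (P x)) * τ (P b)) / r with hα
  have hdiff : φ - ψ = α • s + β • τ := by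
    refine facet_ext hP hF hc hφ0 (e := e) (by rw [hφe]; norm_num) (fun v hv => ?_) ?_
    · simp only [Finset.mem_insert, Finset.mem_singleton] at hv
      rw [LinearMap.sub_apply, LinearMap.add_apply, LinearMap.smul_apply, LinearMap.smul_apply,
        smul_eq_mul, smul_eq_mul]
      rcases hv with rfl | rfl | rfl | rfl
      · rw [hsu, hτu, hφu, hψu]; ring
      · rw [hsa, hτa, hφa, hψa]; ring
      · rw [hφb, hα, hβ]
        field_simp
        rw [hrdef]
        ring
      · rw [hφx, hα, hβ]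
        field_simp
        rw [hrdef]
        ring
    · rw [LinearMap.sub_apply, LinearMap.add_apply, LinearMap.smul_apply, LinearMap.smul_apply,
        hφe, hψe, hse, hτe]
      simp
  have e1 : β * r = -(s (P b) * ψ (P x) - s (P x) * ψ (P b)) := by
    rw [hβ]
    field_simp
    ring
  have e2 : β * r' = s (P b') * φ (P x') - s (P x') * φ (P b') := by
    have h1 := LinearMap.congr_fun hdiff (P b')
    have h2 := LinearMap.congr_fun hdiff (P x')
    rw [LinearMap.sub_apply, LinearMap.add_apply, LinearMap.smul_apply, LinearMap.smul_apply,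
        smul_eq_mul, smul_eq_mul] at h1 h2
    rw [hψb, sub_zero] at h1
    rw [hψx, sub_zero] at h2
    rw [hrdef', h1, h2]
    ring
  have p1 : s (P b) * ψ (P x) ≤ 0 := mul_nonpos_of_nonneg_of_nonpos hb.le (hψle x)
  have p2 : 0 ≤ s (P x) * ψ (P b) := mul_nonneg_of_nonpos_of_nonpos hx.le (hψle b)
  have p3 : s (P b') * φ (P x') ≤ 0 := mul_nonpos_of_nonneg_of_nonpos hb'.le (hφle x')
  have p4 : 0 ≤ s (P x') * φ (P b') := mul_nonneg_of_nonpos_of_nonpos hx'.le (hφle b')
  have hβ0 : β = 0 := by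
    by_contra hne
    have h1 : 0 ≤ β * r := by linarith
    have h2 : β * r' ≤ 0 := by linarith
    have h3 : 0 < β * β := mul_self_pos.2 hne
    have h4 : 0 < (β * r) * (β * r') := by
      have : (β * r) * (β * r') = (β * β) * (r * r') := by ring
      rw [this]
      exact mul_pos h3 hr
    have h5 := mul_nonpos_of_nonneg_of_nonpos h1 h2
    linarith
  rw [hβ0, zero_mul] at e1
  have q1 : s (P b) * ψ (P x) = 0 := by linarith
  have q2 : s (P x) * ψ (P b) = 0 := by linarith
  have q3 : ψ (P x) = 0 := (mul_eq_zero.1 q1).resolve_left hb.ne'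
  have q4 : ψ (P b) = 0 := (mul_eq_zero.1 q2).resolve_left hx.ne
  have m3 : x ∈ ({u, a, b', x'} : Finset V) := by
    by_contra hcon
    exact (hψ1 x hcon).ne q3
  have m4 : b ∈ ({u, a, b', x'} : Finset V) := by
    by_contra hcon
    exact (hψ1 b hcon).ne q4
  simp only [Finset.mem_insert, Finset.mem_singleton] at m3 m4
  constructor
  · rcases m4 with rfl | rfl | rfl | rfl
    · rw [hsu] at hb; exact absurd hb (lt_irrefl _)
    · rw [hsa] at hb; exact absurd hb (lt_irrefl _)
    · rfl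
    · exact absurd hx' (not_lt.2 hb.le)
  · rcases m3 with rfl | rfl | rfl | rfl
    · rw [hsu] at hx; exact absurd hx (lt_irrefl _)
    · rw [hsa] at hx; exact absurd hx (lt_irrefl _)
    · exact absurd hb' (not_lt.2 hx.le)
    · rfl

end Pool.Agent.Lib.MP_36627d_co
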