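import Mathlib

/-!
# Definitions: simplicial 4-polytopes, their boundary complexes and the ring `A(Δ)`

Everything is stated for a finite family of points `p : Fin n → Fin 4 → ℝ` in real 4-space,
the vertices of the polytope `P = conv {p v}`.
-/

open Finset MvPolynomial

namespace Pool.Agent.Lib.MP_36627d_co

variable {n : ℕ}

/-- `F` is the set of those vertices of `P` that lie on a supporting hyperplane of `P`:
some linear functional `g` is constant, equal to `b`, on the vertices in `F` and smaller than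
`b` on all other vertices.  (`F = ∅` is allowed, and `F = univ` is the improper face `P`.) -/
def IsFace (p : Fin n → Fin 4 → ℝ) (F : Finset (Fin n)) : Prop :=
  ∃ (g : Fin 4 → ℝ) (b : ℝ), (∀ v ∈ F, ∑ i, g i * p v i = b) ∧
    ∀ v, v ∉ F → ∑ i, g i * p v i < b

/-- The boundary complex `Δ = ∂P`: the vertex sets of the proper faces of `P`. -/
def boundaryComplex (p : Fin n → Fin 4 → ℝ) : Set (Finset (Fin n)) :=
  {F | IsFace p F ∧ F ≠ Finset.univ}

/-- The points `p v` are the (distinct) vertices of a simplicial 4-polytope in `ℝ⁴`. -/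
structure IsSimplicialPolytope (p : Fin n → Fin 4 → ℝ) : Prop where
  /-- `P` is 4-dimensional -/
  full : affineSpan ℝ (Set.range p) = ⊤
  /-- every `p v` is a vertex of `P`, and different `v` give different vertices -/
  vertex : ∀ v, IsFace p {v}
  /-- every proper face of `P` is a simplex -/
  simplicial : ∀ F ∈ boundaryComplex p, AffineIndependent ℝ (fun v : F => p v)

/-- `F` is a missing face of `Δ`: not a face, while all its proper subsets are faces. -/
def IsMissingFace (Δ : Set (Finset (Fin n))) (F : Finset (Fin n)) : Prop :=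
  F ∉ Δ ∧ ∀ G, G ⊂ F → G ∈ Δ

/-- No missing face has dimension (`= card - 1`) greater than `2`. -/
def NoMissingFaceAboveTwo (Δ : Set (Finset (Fin n))) : Prop :=
  ∀ F, IsMissingFace Δ F → F.card - 1 ≤ 2

/-- The Stanley–Reisner ideal of `Δ`. -/
noncomputable def stanleyReisner (Δ : Set (Finset (Fin n))) : Ideal (MvPolynomial (Fin n) ℝ) :=
  Ideal.span {f | ∃ F : Finset (Fin n), F ∉ Δ ∧ f = ∏ v ∈ F, X v}

/-- `θ_i = ∑_v p(v)_i x_v`. -/
noncomputable def theta (p : Fin n → Fin 4 → ℝ) (i : Fin 4) : MvPolynomial (Fin n) ℝ :=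
  ∑ v, C (p v i) * X v

/-- `c = ∑_v x_v`. -/
noncomputable def cc (n : ℕ) : MvPolynomial (Fin n) ℝ := ∑ v, X v

/-- The ideal `I_Δ + (θ_1, …, θ_4, c)` of `ℝ[x_1, …, x_n]`. -/
noncomputable def idealA (p : Fin n → Fin 4 → ℝ) : Ideal (MvPolynomial (Fin n) ℝ) :=
  stanleyReisner (boundaryComplex p) ⊔ Ideal.span (Set.range (theta p) ∪ {cc n})

/-- The ring `A(Δ) = ℝ[Δ] / (Θ, c)`. -/
abbrev ringA (p : Fin n → Fin 4 → ℝ) : Type := MvPolynomial (Fin n) ℝ ⧸ idealA p

/-- The image of `x_v` in `A(Δ)`. -/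
noncomputable def xA (p : Fin n → Fin 4 → ℝ) (v : Fin n) : ringA p :=
  Ideal.Quotient.mk (idealA p) (X v)

/-- The degree `k` part `A(Δ)_k`: classes of homogeneous polynomials of degree `k`. -/
def gradedPart (p : Fin n → Fin 4 → ℝ) (k : ℕ) : Set (ringA p) :=
  {a | ∃ f : MvPolynomial (Fin n) ℝ, f.IsHomogeneous k ∧ a = Ideal.Quotient.mk (idealA p) f}

/-- The socle of `A(Δ)`. -/
def socle (p : Fin n → Fin 4 → ℝ) : Set (ringA p) := {a | ∀ v, xA p v * a = 0}

/-- `A(Δ)` is level: if `s` is the largest degree with `A(Δ)_s ≠ 0`, then the socle lies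
entirely in degree `s`. -/
def IsLevel (p : Fin n → Fin 4 → ℝ) : Prop :=
  ∃ s, gradedPart p s ≠ {0} ∧ (∀ k, s < k → gradedPart p k = {0}) ∧ socle p ⊆ gradedPart p s

end Pool.Agent.Lib.MP_36627d_co
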