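import Pool.Agent.Lib.MP_36627d_co.Web

/-!
# The quadratic forms of the vertex links
-/

open Finset Module

namespace Pool.Agent.Lib.MP_36627d_co

open scoped Classical

variable {V W : Type*} [Fintype V] [AddCommGroup W] [Module ℝ W]

/-- The relations of degree two in the link of a vertex `a`. -/
structure Coef (P : V → W) (u : V) (e : W) (β δ : V → V → ℝ) (ξ κ ε : V → ℝ) : Prop where
  A : ∀ (a : V) (f : W →ₗ[ℝ] ℝ), f (P u) = 0 →
    ∑ b, β a b * f (P b) = ξ a * f (P a) + κ a * f e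
  D : ∀ (a : V) (f : W →ₗ[ℝ] ℝ), f (P u) = 0 →
    ∑ b, δ a b * f (P b) = κ a * f (P a) + ε a * f e

theorem Web.relf {P : V → W} {u : V} {e : W} {w : V → V → V → ℝ} {β δ γ : V → V → ℝ}
    (h : Web P u e w β δ γ) (a b : V) {f : W →ₗ[ℝ] ℝ} (hf : f (P u) = 0) :
    ∑ x, w a b x * f (P x) = β a b * f (P a) + β b a * f (P b) + δ a b * f e := by
  have h1 := congrArg f (h.rel a b)
  simp only [map_sum, map_smul, map_add, smul_eq_mul, hf, mul_zero, add_zero] at h1
  exact h1

theorem Web.zero_left {P : V → W} {u : V} {e : W} {w : V → V → V → ℝ} {β δ γ : V → V → ℝ}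
    (h : Web P u e w β δ γ) {a : V} (ha : ∀ b x, w a b x = 0) (b : V) :
    β a b = 0 ∧ δ a b = 0 :=
  ⟨(h.zero a b (ha b)).1, (h.zero a b (ha b)).2.1⟩

/-- symmetry of the double sum -/
theorem Web.double {P : V → W} {u : V} {e : W} {w : V → V → V → ℝ} {β δ γ : V → V → ℝ}
    (h : Web P u e w β δ γ) (a : V) (F : V → V → ℝ) :
    ∑ b, ∑ x, w a b x * F b x = ∑ b, ∑ x, w a b x * F x b := by
  rw [Finset.sum_comm]
  refine Finset.sum_congr rfl fun b _ => Finset.sum_congr rfl fun x _ => ?_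
  rw [h.s23 a x b]

theorem exists_coef {P : V → W} {u : V} {e : W} {w : V → V → V → ℝ} {β δ γ : V → V → ℝ}
    (h : Web P u e w β δ γ)
    (hf : ∀ a b x, w a b x ≠ 0 → (∃ f : W →ₗ[ℝ] ℝ, f (P u) = 0 ∧ f (P a) = 1 ∧ f e = 0) ∧
      ∃ g : W →ₗ[ℝ] ℝ, g (P u) = 0 ∧ g (P a) = 0 ∧ g e = 1) :
    ∃ ξ κ ε : V → ℝ, Coef P u e β δ ξ κ ε ∧ ∀ a, (∀ b x, w a b x = 0) → ξ a = 0 := by
  have key : ∀ a, ∃ ξ κ ε : ℝ, (∀ f : W →ₗ[ℝ] ℝ, f (P u) = 0 →
      ∑ b, β a b * f (P b) = ξ * f (P a) + κ * f e) ∧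
      (∀ f : W →ₗ[ℝ] ℝ, f (P u) = 0 → ∑ b, δ a b * f (P b) = κ * f (P a) + ε * f e) ∧
      ((∀ b x, w a b x = 0) → ξ = 0) := by
    intro a
    by_cases ha : ∀ b x, w a b x = 0
    · refine ⟨0, 0, 0, fun f _ => ?_, fun f _ => ?_, fun _ => rfl⟩
      · simp [fun b => (h.zero_left ha b).1]
      · simp [fun b => (h.zero_left ha b).2]
    · push Not at ha
      obtain ⟨b, x, hbx⟩ := ha
      obtain ⟨⟨f₀, hf1, hf2, hf3⟩, ⟨g₀, hg1, hg2, hg3⟩⟩ := hf a b x hbx
      have hS : ∀ f g : W →ₗ[ℝ] ℝ, f (P u) = 0 → g (P u) = 0 →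
          ∑ b, ∑ x, w a b x * (f (P b) * g (P x)) =
            g (P a) * (∑ b, β a b * f (P b)) + (∑ b, β b a * (f (P b) * g (P b))) +
              g e * (∑ b, δ a b * f (P b)) := by
        intro f g _ hgu
        rw [Finset.mul_sum, Finset.mul_sum, ← Finset.sum_add_distrib, ← Finset.sum_add_distrib]
        refine Finset.sum_congr rfl fun b _ => ?_
        have h1 := h.relf a b hgu
        calc ∑ x, w a b x * (f (P b) * g (P x)) = f (P b) * ∑ x, w a b x * g (P x) := by
              rw [Finset.mul_sum]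
              exact Finset.sum_congr rfl fun x _ => by ring
          _ = _ := by rw [h1]; ring
      have hsymm : ∀ f g : W →ₗ[ℝ] ℝ, f (P u) = 0 → g (P u) = 0 →
          g (P a) * (∑ b, β a b * f (P b)) + g e * (∑ b, δ a b * f (P b)) =
          f (P a) * (∑ b, β a b * g (P b)) + f e * (∑ b, δ a b * g (P b)) := by
        intro f g hfu hgu
        have h1 := hS f g hfu hgu
        have h2 := hS g f hgu hfu
        have h3 := h.double a (fun b x => f (P b) * g (P x))
        have h4 : ∑ b, ∑ x, w a b x * (f (P x) * g (P b)) =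
            ∑ b, ∑ x, w a b x * (g (P b) * f (P x)) :=
          Finset.sum_congr rfl fun b _ => Finset.sum_congr rfl fun x _ => by ring
        have h5 : ∑ b, β b a * (f (P b) * g (P b)) = ∑ b, β b a * (g (P b) * f (P b)) :=
          Finset.sum_congr rfl fun b _ => by ring
        rw [h1, h4, h2, h5] at h3
        linarith
      refine ⟨∑ b, β a b * f₀ (P b), ∑ b, δ a b * f₀ (P b), ∑ b, δ a b * g₀ (P b),
        fun g hg => ?_, fun g hg => ?_, fun hz => absurd (hz b x) hbx⟩
      · have h1 := hsymm f₀ g hf1 hg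
        rw [hf2, hf3] at h1
        linarith
      · have h1 := hsymm g₀ g hg1 hg
        have h2 := hsymm f₀ g₀ hf1 hg1
        rw [hg2, hg3] at h1
        rw [hf2, hf3, hg2, hg3] at h2
        have h3 : ∑ b, β a b * g₀ (P b) = ∑ b, δ a b * f₀ (P b) := by linarith
        rw [← h3]
        linarith
  choose ξ κ ε h1 h2 h3 using key
  exact ⟨ξ, κ, ε, ⟨h1, h2⟩, h3⟩

/-- The quadratic form of the link of `a` -/
noncomputable def QQ (w : V → V → V → ℝ) (β : V → V → ℝ) (ξ : V → ℝ) (a : V)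
    (f g : V → ℝ) : ℝ :=
  ∑ b, ∑ x, w a b x * (f x * g b) - f a * ∑ b, β a b * g b - ∑ b, β b a * (f b * g b)
    - g a * ∑ b, β a b * f b + ξ a * (f a * g a)

/-- the bending of `f` along the edge `a b` -/
noncomputable def bend (w : V → V → V → ℝ) (β : V → V → ℝ) (a b : V) (f : V → ℝ) : ℝ :=
  ∑ x, w a b x * f x - β a b * f a - β b a * f b

theorem QQ_symm {P : V → W} {u : V} {e : W} {w : V → V → V → ℝ} {β δ γ : V → V → ℝ}
    (h : Web P u e w β δ γ) (ξ : V → ℝ) (a : V) (f g : V → ℝ) :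
    QQ w β ξ a f g = QQ w β ξ a g f := by
  have h1 := h.double a (fun b x => f x * g b)
  have h2 : ∑ b, ∑ x, w a b x * (f b * g x) = ∑ b, ∑ x, w a b x * (g x * f b) :=
    Finset.sum_congr rfl fun b _ => Finset.sum_congr rfl fun x _ => by ring
  have h3 : ∑ b, β b a * (f b * g b) = ∑ b, β b a * (g b * f b) :=
    Finset.sum_congr rfl fun b _ => by ring
  unfold QQ
  rw [h1, h2, h3]
  ring

theorem QQ_add (w : V → V → V → ℝ) (β : V → V → ℝ) (ξ : V → ℝ) (a : V) (f f' g : V → ℝ) :
    QQ w β ξ a (f + f') g = QQ w β ξ a f g + QQ w β ξ a f' g := by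
  unfold QQ
  simp only [Pi.add_apply, add_mul, mul_add, Finset.sum_add_distrib]
  ring

theorem QQ_smul (w : V → V → V → ℝ) (β : V → V → ℝ) (ξ : V → ℝ) (a : V) (c : ℝ)
    (f g : V → ℝ) : QQ w β ξ a (c • f) g = c * QQ w β ξ a f g := by
  unfold QQ
  have h1 : ∑ b, ∑ x, w a b x * ((c • f) x * g b) = c * ∑ b, ∑ x, w a b x * (f x * g b) := by
    rw [Finset.mul_sum]
    refine Finset.sum_congr rfl fun b _ => ?_
    rw [Finset.mul_sum]
    exact Finset.sum_congr rfl fun x _ => by simp only [Pi.smul_apply, smul_eq_mul]; ring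
  have h2 : ∑ b, β b a * ((c • f) b * g b) = c * ∑ b, β b a * (f b * g b) := by
    rw [Finset.mul_sum]
    exact Finset.sum_congr rfl fun x _ => by simp only [Pi.smul_apply, smul_eq_mul]; ring
  have h3 : ∑ b, β a b * (c • f) b = c * ∑ b, β a b * f b := by
    rw [Finset.mul_sum]
    exact Finset.sum_congr rfl fun x _ => by simp only [Pi.smul_apply, smul_eq_mul]; ring
  rw [h1, h2, h3]
  simp only [Pi.smul_apply, smul_eq_mul]
  ring

theorem QQ_lin {P : V → W} {u : V} {e : W} {w : V → V → V → ℝ} {β δ γ : V → V → ℝ}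
    (h : Web P u e w β δ γ) {ξ κ ε : V → ℝ} (hc : Coef P u e β δ ξ κ ε) (a : V)
    {l : W →ₗ[ℝ] ℝ} (hl : l (P u) = 0) (g : V → ℝ) :
    QQ w β ξ a (fun v => l (P v)) g = l e * (∑ b, δ a b * g b - κ a * g a) := by
  unfold QQ
  have h1 : ∑ b, ∑ x, w a b x * (l (P x) * g b) =
      ∑ b, (β a b * l (P a) + β b a * l (P b) + δ a b * l e) * g b := by
    refine Finset.sum_congr rfl fun b _ => ?_
    rw [← h.relf a b hl, Finset.sum_mul]
    exact Finset.sum_congr rfl fun x _ => by ring
  have h2 : ∑ b, (β a b * l (P a) + β b a * l (P b) + δ a b * l e) * g b =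
      l (P a) * ∑ b, β a b * g b + ∑ b, β b a * (l (P b) * g b) + l e * ∑ b, δ a b * g b := by
    rw [Finset.mul_sum, Finset.mul_sum, ← Finset.sum_add_distrib, ← Finset.sum_add_distrib]
    exact Finset.sum_congr rfl fun x _ => by ring
  rw [h1, h2, hc.A a l hl]
  ring

theorem bend_lin {P : V → W} {u : V} {e : W} {w : V → V → V → ℝ} {β δ γ : V → V → ℝ}
    (h : Web P u e w β δ γ) (a b : V) {l : W →ₗ[ℝ] ℝ} (hl : l (P u) = 0) :
    bend w β a b (fun v => l (P v)) = δ a b * l e := by
  unfold bend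
  rw [h.relf a b hl]
  ring

theorem bend_add (w : V → V → V → ℝ) (β : V → V → ℝ) (a b : V) (f f' : V → ℝ) :
    bend w β a b (f + f') = bend w β a b f + bend w β a b f' := by
  unfold bend
  simp only [Pi.add_apply, mul_add, Finset.sum_add_distrib]
  ring

/-- adding a linear functional that vanishes at `e` -/
theorem QQ_shift {P : V → W} {u : V} {e : W} {w : V → V → V → ℝ} {β δ γ : V → V → ℝ}
    (h : Web P u e w β δ γ) {ξ κ ε : V → ℝ} (hc : Coef P u e β δ ξ κ ε) (a : V)
    {l : W →ₗ[ℝ] ℝ} (hl : l (P u) = 0) (hle : l e = 0) (g : V → ℝ) :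
    QQ w β ξ a (g + fun v => l (P v)) (g + fun v => l (P v)) = QQ w β ξ a g g := by
  rw [QQ_add, QQ_lin h hc a hl, hle, zero_mul, add_zero, QQ_symm h, QQ_add,
    QQ_lin h hc a hl, hle, zero_mul, add_zero]

/-- The global identity -/
theorem QQ_global {P : V → W} {u : V} {e : W} {w : V → V → V → ℝ} {β δ γ : V → V → ℝ}
    (h : Web P u e w β δ γ) {ξ κ ε : V → ℝ} (hc : Coef P u e β δ ξ κ ε)
    {c : W →ₗ[ℝ] ℝ} (hcu : c (P u) = 0) (f : V → ℝ) :
    ∑ a, c (P a) * QQ w β ξ a f f = c e * ∑ b, f b * (∑ a, δ b a * f a - κ b * f b) := by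
  have hw : ∀ a b x, w a b x = w b x a := fun a b x => by rw [h.s12 a b x, h.s23 b a x]
  have T1 : ∑ a, c (P a) * ∑ b, ∑ x, w a b x * (f x * f b) =
      ∑ b, ∑ x, (f b * f x) * (β b x * c (P b) + β x b * c (P x) + δ b x * c e) := by
    have e1 : ∀ b x, (f b * f x) * (β b x * c (P b) + β x b * c (P x) + δ b x * c e) =
        ∑ a, c (P a) * (w a b x * (f x * f b)) := by
      intro b x
      rw [← h.relf b x hcu, Finset.mul_sum]
      exact Finset.sum_congr rfl fun a _ => by rw [hw a b x]; ring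
    simp only [e1, Finset.mul_sum]
    rw [Finset.sum_comm]
    refine Finset.sum_congr rfl fun b _ => ?_
    rw [Finset.sum_comm]
  have T1' : ∑ b, ∑ x, (f b * f x) * (β b x * c (P b) + β x b * c (P x) + δ b x * c e) =
      2 * (∑ a, c (P a) * (f a * ∑ b, β a b * f b)) + c e * ∑ b, f b * ∑ x, δ b x * f x := by
    have e1 : ∑ b, ∑ x, (f b * f x) * (β b x * c (P b)) =
        ∑ a, c (P a) * (f a * ∑ b, β a b * f b) := by
      refine Finset.sum_congr rfl fun b _ => ?_
      rw [Finset.mul_sum, Finset.mul_sum]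
      exact Finset.sum_congr rfl fun x _ => by ring
    have e2 : ∑ b, ∑ x, (f b * f x) * (β x b * c (P x)) =
        ∑ a, c (P a) * (f a * ∑ b, β a b * f b) := by
      rw [Finset.sum_comm, ← e1]
      exact Finset.sum_congr rfl fun b _ => Finset.sum_congr rfl fun x _ => by ring
    have e3 : ∑ b, ∑ x, (f b * f x) * (δ b x * c e) = c e * ∑ b, f b * ∑ x, δ b x * f x := by
      rw [Finset.mul_sum]
      refine Finset.sum_congr rfl fun b _ => ?_
      rw [Finset.mul_sum, Finset.mul_sum]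
      exact Finset.sum_congr rfl fun x _ => by ring
    have e4 : ∑ b, ∑ x, (f b * f x) * (β b x * c (P b) + β x b * c (P x) + δ b x * c e) =
        ∑ b, ∑ x, (f b * f x) * (β b x * c (P b)) + ∑ b, ∑ x, (f b * f x) * (β x b * c (P x)) +
        ∑ b, ∑ x, (f b * f x) * (δ b x * c e) := by
      rw [← Finset.sum_add_distrib, ← Finset.sum_add_distrib]
      refine Finset.sum_congr rfl fun b _ => ?_
      rw [← Finset.sum_add_distrib, ← Finset.sum_add_distrib]
      exact Finset.sum_congr rfl fun x _ => by ring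
    rw [e4, e1, e2, e3]
    ring
  have T3 : ∑ a, c (P a) * ∑ b, β b a * (f b * f b) =
      ∑ b, (f b * f b) * (ξ b * c (P b) + κ b * c e) := by
    have e1 : ∀ b, (f b * f b) * (ξ b * c (P b) + κ b * c e) =
        ∑ a, c (P a) * (β b a * (f b * f b)) := by
      intro b
      rw [← hc.A b c hcu, Finset.mul_sum]
      exact Finset.sum_congr rfl fun a _ => by ring
    simp only [e1, Finset.mul_sum]
    rw [Finset.sum_comm]
  have T : ∑ a, c (P a) * QQ w β ξ a f f =
      ∑ a, c (P a) * ∑ b, ∑ x, w a b x * (f x * f b) -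
      2 * (∑ a, c (P a) * (f a * ∑ b, β a b * f b)) -
      ∑ a, c (P a) * ∑ b, β b a * (f b * f b) + ∑ a, c (P a) * (ξ a * (f a * f a)) := by
    rw [Finset.mul_sum, ← Finset.sum_sub_distrib, ← Finset.sum_sub_distrib,
      ← Finset.sum_add_distrib]
    refine Finset.sum_congr rfl fun a _ => ?_
    unfold QQ
    ring
  rw [T, T1, T1', T3]
  have e5 : ∑ b, (f b * f b) * (ξ b * c (P b) + κ b * c e) =
      ∑ a, c (P a) * (ξ a * (f a * f a)) + c e * ∑ b, κ b * (f b * f b) := by
    rw [Finset.mul_sum, ← Finset.sum_add_distrib]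
    exact Finset.sum_congr rfl fun b _ => by ring
  have e6 : ∑ b, f b * (∑ a, δ b a * f a - κ b * f b) =
      ∑ b, f b * ∑ x, δ b x * f x - ∑ b, κ b * (f b * f b) := by
    rw [← Finset.sum_sub_distrib]
    exact Finset.sum_congr rfl fun b _ => by ring
  rw [e5, e6]
  ring

/-- Infinitesimal motions give solutions of the adjoint equation. -/
theorem motion_eq {P : V → W} {u : V} {e : W} {w : V → V → V → ℝ} {β δ γ : V → V → ℝ}
    (h : Web P u e w β δ γ) {ξ κ ε : V → ℝ} (hc : Coef P u e β δ ξ κ ε)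
    {m : V → W →ₗ[ℝ] ℝ} (hmu : ∀ a, m a (P u) = 0) (hma : ∀ a, m a (P a) = 0)
    (hmb : ∀ a b x, w a b x ≠ 0 → m a (P b) + m b (P a) = 0) (a : V) :
    ∑ b, δ a b * m b e - κ a * m a e = 0 := by
  have hβ : ∀ a b, β a b * m b (P a) = -(β a b * m a (P b)) := by
    intro a b
    by_cases hz : ∀ x, w a b x = 0
    · rw [(h.zero a b hz).1]; ring
    · push Not at hz
      obtain ⟨x, hx⟩ := hz
      have := hmb a b x hx
      have h1 : m b (P a) = - m a (P b) := by linarith
      rw [h1]; ring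
  have hw : ∀ a b x, w a b x = w b x a := fun a b x => by rw [h.s12 a b x, h.s23 b a x]
  have S1 : ∑ b, ∑ x, w a b x * m b (P x) = 0 := by
    have h1 := h.double a (fun b x => m b (P x))
    have h2 : ∑ b, ∑ x, w a b x * m b (P x) + ∑ b, ∑ x, w a b x * m x (P b) = 0 := by
      rw [← Finset.sum_add_distrib]
      refine Finset.sum_eq_zero fun b _ => ?_
      rw [← Finset.sum_add_distrib]
      refine Finset.sum_eq_zero fun x _ => ?_
      by_cases hz : w a b x = 0
      · rw [hz]; ring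
      · have h3 := hmb b x a (by rw [← hw]; exact hz)
        rw [← mul_add, h3, mul_zero]
    linarith
  have S2 : ∑ b, ∑ x, w a b x * m b (P x) =
      ∑ b, (-(β a b * m a (P b)) + δ a b * m b e) := by
    refine Finset.sum_congr rfl fun b _ => ?_
    rw [h.relf a b (hmu b), hβ a b, hma b]
    ring
  rw [S1, Finset.sum_add_distrib, Finset.sum_neg_distrib, hc.A a (m a) (hmu a), hma a] at S2
  linarith

/-- Negativity after normalisation -/
theorem local_neg {P : V → W} {u : V} {e : W} {w : V → V → V → ℝ} {β δ γ : V → V → ℝ}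
    (h : Web P u e w β δ γ) (ξ : V → ℝ) {a : V} {s : W →ₗ[ℝ] ℝ} (hsu : s (P u) = 0)
    (hsa : s (P a) = 0) (hse : s e = 0) (hs : ∀ b x, w a b x ≠ 0 → s (P b) ≠ 0)
    {f : V → ℝ} (hfa : f a = 0)
    (hcr : ∀ b x, w a b x ≠ 0 → 0 < s (P b) → s (P x) < 0 →
      f b / s (P b) - f x / s (P x) = 0) :
    QQ w β ξ a f f ≤ 0 ∧ (QQ w β ξ a f f = 0 → ∀ b, bend w β a b f = 0) := by
  have hs' : ∀ b x, w a b x ≠ 0 → s (P x) ≠ 0 := fun b x hbx =>
    hs x b (by rw [← h.s23 a b x]; exact hbx)
  have hβ : ∀ b, β b a * f b = ∑ x, w a b x * (s (P x) * (f b / s (P b))) := by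
    intro b
    by_cases hz : ∀ x, w a b x = 0
    · rw [(h.zero b a (fun x => by rw [h.s12 b a x]; exact hz x)).1]
      simp [hz]
    · push Not at hz
      obtain ⟨x, hx⟩ := hz
      have h1 := h.relf a b hsu
      rw [hsa, hse, mul_zero, zero_add, mul_zero, add_zero] at h1
      have h2 := hs b x hx
      have h3 : β b a * f b = (β b a * s (P b)) * (f b / s (P b)) := by field_simp
      rw [h3, ← h1, Finset.sum_mul]
      exact Finset.sum_congr rfl fun x _ => by ring
  set G : V → V → ℝ := fun b x => f x * f b - s (P x) * (f b / s (P b)) * f b with hG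
  have hQ : QQ w β ξ a f f = ∑ b, ∑ x, w a b x * G b x := by
    unfold QQ
    rw [hfa]
    have h1 : ∑ b, β b a * (f b * f b) =
        ∑ b, ∑ x, w a b x * (s (P x) * (f b / s (P b)) * f b) := by
      refine Finset.sum_congr rfl fun b _ => ?_
      have : β b a * (f b * f b) = (β b a * f b) * f b := by ring
      rw [this, hβ b, Finset.sum_mul]
      exact Finset.sum_congr rfl fun x _ => by ring
    have h2 : ∑ b, ∑ x, w a b x * G b x = ∑ b, ∑ x, w a b x * (f x * f b) -
        ∑ b, ∑ x, w a b x * (s (P x) * (f b / s (P b)) * f b) := by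
      rw [← Finset.sum_sub_distrib]
      refine Finset.sum_congr rfl fun b _ => ?_
      rw [← Finset.sum_sub_distrib]
      exact Finset.sum_congr rfl fun x _ => by rw [hG]; ring
    rw [h1, h2]
    ring
  have hterm : ∀ b x, w a b x * (G b x + G x b) =
      -(w a b x * (s (P b) * s (P x) * (f b / s (P b) - f x / s (P x)) ^ 2)) := by
    intro b x
    by_cases hz : w a b x = 0
    · rw [hz]; ring
    · have h1 := hs b x hz
      have h2 := hs' b x hz
      rw [hG]
      field_simp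
      ring
  have hle : ∀ b x, w a b x * (G b x + G x b) ≤ 0 := by
    intro b x
    rw [hterm]
    by_cases hz : w a b x = 0
    · rw [hz]; simp
    · have h1 := hs b x hz
      have h2 := hs' b x hz
      have hwn := h.nonneg a b x
      rcases lt_or_gt_of_ne h1 with h3 | h3 <;> rcases lt_or_gt_of_ne h2 with h4 | h4
      · have := mul_pos_of_neg_of_neg h3 h4
        have h5 : 0 ≤ w a b x * (s (P b) * s (P x) * (f b / s (P b) - f x / s (P x)) ^ 2) := by
          positivity
        linarith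
      · have h5 := hcr x b (by rw [← h.s23 a b x]; exact hz) h4 h3
        have h6 : f b / s (P b) - f x / s (P x) = 0 := by linarith
        rw [h6]; simp
      · have h5 := hcr b x hz h3 h4
        rw [h5]; simp
      · have := mul_pos h3 h4
        have h5 : 0 ≤ w a b x * (s (P b) * s (P x) * (f b / s (P b) - f x / s (P x)) ^ 2) := by
          positivity
        linarith
  have h2Q : 2 * QQ w β ξ a f f = ∑ b, ∑ x, w a b x * (G b x + G x b) := by
    have h1 := h.double a G
    have h2 : ∑ b, ∑ x, w a b x * (G b x + G x b) =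
        ∑ b, ∑ x, w a b x * G b x + ∑ b, ∑ x, w a b x * G x b := by
      rw [← Finset.sum_add_distrib]
      refine Finset.sum_congr rfl fun b _ => ?_
      rw [← Finset.sum_add_distrib]
      exact Finset.sum_congr rfl fun x _ => by ring
    rw [h2, ← h1, ← hQ]
    ring
  constructor
  · have h1 : ∑ b, ∑ x, w a b x * (G b x + G x b) ≤ 0 :=
      Finset.sum_nonpos fun b _ => Finset.sum_nonpos fun x _ => hle b x
    linarith
  · intro hQ0 b
    rw [hQ0, mul_zero] at h2Q
    have h1 := (Finset.sum_eq_zero_iff_of_nonpos (fun b _ =>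
      Finset.sum_nonpos fun x _ => hle b x)).1 h2Q.symm b (Finset.mem_univ b)
    have h2 := fun x => (Finset.sum_eq_zero_iff_of_nonpos (fun x _ => hle b x)).1 h1 x
      (Finset.mem_univ x)
    unfold bend
    rw [hfa, mul_zero, sub_zero, hβ b, ← Finset.sum_sub_distrib]
    refine Finset.sum_eq_zero fun x _ => ?_
    by_cases hz : w a b x = 0
    · rw [hz]; ring
    · have h3 := h2 x
      rw [hterm] at h3
      have h4 := hs b x hz
      have h5 := hs' b x hz
      have h6 : f b / s (P b) - f x / s (P x) = 0 := by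
        by_contra hne
        have h7 : w a b x * (s (P b) * s (P x) * (f b / s (P b) - f x / s (P x)) ^ 2) ≠ 0 :=
          mul_ne_zero hz (mul_ne_zero (mul_ne_zero h4 h5) (pow_ne_zero 2 hne))
        exact h7 (by linarith)
      have h7 : f b / s (P b) = f x / s (P x) := by linarith
      rw [h7]
      field_simp
      ring

end Pool.Agent.Lib.MP_36627d_co
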