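import Pool.Agent.Lib.MP_36627d_co.Dehn

/-!
# Hyperbolicity of the forms of the vertex links
-/

open Finset Module

namespace Pool.Agent.Lib.MP_36627d_co

open scoped Classical

variable {V W : Type*} [Fintype V] [AddCommGroup W] [Module ℝ W]

/-- Data for a generic line through the link of an edge `u a` -/
structure Cross (P : V → W) (u : V) (e : W) (w : V → V → V → ℝ) (a : V)
    (s τ : W →ₗ[ℝ] ℝ) : Prop where
  su : s (P u) = 0
  sa : s (P a) = 0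
  se : s e = 0
  τu : τ (P u) = 0
  τa : τ (P a) = 0
  τe : τ e = 0
  ne : ∀ b x, w a b x ≠ 0 → s (P b) ≠ 0
  rne : ∀ b x, w a b x ≠ 0 → 0 < s (P b) → s (P x) < 0 →
    s (P b) * τ (P x) - s (P x) * τ (P b) ≠ 0
  uniq : ∀ b x b' x', w a b x ≠ 0 → w a b' x' ≠ 0 → 0 < s (P b) → s (P x) < 0 →
    0 < s (P b') → s (P x') < 0 →
    0 < (s (P b) * τ (P x) - s (P x) * τ (P b)) *
      (s (P b') * τ (P x') - s (P x') * τ (P b')) → b = b' ∧ x = x'

theorem exists_rho {P : V → W} {u : V} {e : W} {w : V → V → V → ℝ} {a : V}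
    {s τ : W →ₗ[ℝ] ℝ} (hC : Cross P u e w a s τ) {σ : ℝ} (hσ : σ ≠ 0) :
    ∃ ρ : (V → ℝ) →ₗ[ℝ] ℝ, (∀ b x, w a b x ≠ 0 → 0 < s (P b) → s (P x) < 0 →
      0 < σ * (s (P b) * τ (P x) - s (P x) * τ (P b)) →
      ∀ f : V → ℝ, f b / s (P b) - f x / s (P x) = ρ f) ∧
      (ρ = 0 ∨ ρ (fun v => τ (P v)) ≠ 0) := by
  by_cases hex : ∃ b x, w a b x ≠ 0 ∧ 0 < s (P b) ∧ s (P x) < 0 ∧
      0 < σ * (s (P b) * τ (P x) - s (P x) * τ (P b))
  · obtain ⟨b, x, hbx, hb, hx, hr⟩ := hex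
    refine ⟨(s (P b))⁻¹ • LinearMap.proj b - (s (P x))⁻¹ • LinearMap.proj x, ?_, Or.inr ?_⟩
    · intro b' x' hbx' hb' hx' hr' f
      have hpos : 0 < (s (P b) * τ (P x) - s (P x) * τ (P b)) *
          (s (P b') * τ (P x') - s (P x') * τ (P b')) := by
        have h1 := mul_pos hr hr'
        have h2 : 0 < σ * σ := mul_self_pos.2 hσ
        have h3 : (σ * σ) * ((s (P b) * τ (P x) - s (P x) * τ (P b)) *
          (s (P b') * τ (P x') - s (P x') * τ (P b'))) =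
          σ * (s (P b) * τ (P x) - s (P x) * τ (P b)) *
          (σ * (s (P b') * τ (P x') - s (P x') * τ (P b'))) := by ring
        rw [← h3] at h1
        exact (pos_iff_pos_of_mul_pos h1).1 h2
      obtain ⟨rfl, rfl⟩ := hC.uniq b x b' x' hbx hbx' hb hx hb' hx' hpos
      simp only [LinearMap.sub_apply, LinearMap.smul_apply, LinearMap.proj_apply, smul_eq_mul]
      field_simp
    · simp only [LinearMap.sub_apply, LinearMap.smul_apply, LinearMap.proj_apply, smul_eq_mul]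
      have h1 := hC.rne b x hbx hb hx
      have h2 : (s (P b))⁻¹ * τ (P b) - (s (P x))⁻¹ * τ (P x) =
          -(s (P b) * τ (P x) - s (P x) * τ (P b)) / (s (P b) * s (P x)) := by
        field_simp [hb.ne', hx.ne]
        ring
      rw [h2]
      exact div_ne_zero (neg_ne_zero.2 h1) (mul_ne_zero hb.ne' hx.ne)
  · push Not at hex
    refine ⟨0, ?_, Or.inl rfl⟩
    intro b x hbx hb hx hr
    exact absurd hr (not_lt.2 (hex b x hbx hb hx))

/-- The form `QQ a` is nonpositive on a hyperplane. -/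
theorem local_hyp {P : V → W} {u : V} {e : W} {w : V → V → V → ℝ} {β δ γ : V → V → ℝ}
    (h : Web P u e w β δ γ) {ξ κ ε : V → ℝ} (hc : Coef P u e β δ ξ κ ε) {a : V}
    {s τ : W →ₗ[ℝ] ℝ} (hC : Cross P u e w a s τ) {l₁ : W →ₗ[ℝ] ℝ} (hl1 : l₁ (P u) = 0)
    (hl2 : l₁ (P a) = 1) (hl3 : l₁ e = 0) :
    ∃ L : (V → ℝ) →ₗ[ℝ] ℝ, ∀ f, L f = 0 → QQ w β ξ a f f ≤ 0 ∧
      (QQ w β ξ a f f = 0 → ∀ b, bend w β a b f = 0) := by
  obtain ⟨ρ, hρ, hρ0⟩ := exists_rho hC (σ := 1) one_ne_zero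
  obtain ⟨ρ', hρ', -⟩ := exists_rho hC (σ := -1) (by norm_num)
  let D1 : (V → ℝ) →ₗ[ℝ] (V → ℝ) :=
    LinearMap.id - (LinearMap.proj a : (V → ℝ) →ₗ[ℝ] ℝ).smulRight (fun v => l₁ (P v))
  let D2 : (V → ℝ) →ₗ[ℝ] (V → ℝ) :=
    LinearMap.id - ((ρ (fun v => τ (P v)))⁻¹ • ρ).smulRight (fun v => τ (P v))
  have hD1 : ∀ f v, D1 f v = f v - f a * l₁ (P v) := fun f v => rfl
  have hD2 : ∀ f v, D2 f v = f v - ((ρ (fun v => τ (P v)))⁻¹ * ρ f) * τ (P v) :=
    fun f v => rfl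
  have hρD2 : ∀ f, ρ (D2 f) = 0 := by
    intro f
    have h1 : D2 f = f - ((ρ (fun v => τ (P v)))⁻¹ * ρ f) • (fun v => τ (P v)) := by
      ext v
      rw [hD2]
      rfl
    rw [h1, map_sub, map_smul, smul_eq_mul]
    rcases hρ0 with h2 | h2
    · rw [h2]; simp
    · field_simp
      ring
  refine ⟨ρ'.comp (D2.comp D1), fun f hf => ?_⟩
  have hf' : ρ' (D2 (D1 f)) = 0 := hf
  set g := D2 (D1 f) with hg
  -- `f = g + l ∘ P`
  set c := (ρ (fun v => τ (P v)))⁻¹ * ρ (D1 f) with hcdef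
  have hfg : f = g + fun v => (f a • l₁ + c • τ) (P v) := by
    ext v
    rw [Pi.add_apply, hg, hD2, hD1]
    simp only [LinearMap.add_apply, LinearMap.smul_apply, smul_eq_mul]
    ring
  have hlu : (f a • l₁ + c • τ) (P u) = 0 := by
    simp [hl1, hC.τu]
  have hle : (f a • l₁ + c • τ) e = 0 := by
    simp [hl3, hC.τe]
  have hga : g a = 0 := by
    rw [hg, hD2, hD1, hl2, hC.τa]
    ring
  have hQ : QQ w β ξ a f f = QQ w β ξ a g g := by
    conv_lhs => rw [hfg]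
    exact QQ_shift h hc a hlu hle g
  have hB : ∀ b, bend w β a b f = bend w β a b g := by
    intro b
    conv_lhs => rw [hfg]
    rw [bend_add, bend_lin h a b hlu, hle, mul_zero, add_zero]
  have key := local_neg h ξ hC.su hC.sa hC.se hC.ne hga (fun b x hbx hb hx => by
    rcases lt_or_gt_of_ne (hC.rne b x hbx hb hx) with h1 | h1
    · rw [hρ' b x hbx hb hx (by linarith)]
      exact hf'
    · rw [hρ b x hbx hb hx (by linarith)]
      exact hρD2 _)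
  rw [hQ]
  exact ⟨key.1, fun h0 b => by rw [hB b]; exact key.2 h0 b⟩

/-- The reversed Cauchy-Schwarz consequence: primitive functions have nonpositive form. -/
theorem local_prim {P : V → W} {u : V} {e : W} {w : V → V → V → ℝ} {β δ γ : V → V → ℝ}
    (h : Web P u e w β δ γ) {ξ κ ε : V → ℝ} (hc : Coef P u e β δ ξ κ ε) {a : V}
    {s τ : W →ₗ[ℝ] ℝ} (hC : Cross P u e w a s τ) {l₁ : W →ₗ[ℝ] ℝ} (hl1 : l₁ (P u) = 0)
    (hl2 : l₁ (P a) = 1) (hl3 : l₁ e = 0) {c : W →ₗ[ℝ] ℝ} (hcu : c (P u) = 0)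
    (hce : c e ≠ 0) (hε : 0 < ε a) {z : V → ℝ} (hz : ∑ b, δ a b * z b - κ a * z a = 0) :
    QQ w β ξ a z z ≤ 0 ∧ (QQ w β ξ a z z = 0 → ∀ b, bend w β a b z = 0) := by
  obtain ⟨L, hL⟩ := local_hyp h hc hC hl1 hl2 hl3
  set C : V → ℝ := fun v => c (P v) with hCdef
  have hCC : 0 < QQ w β ξ a C C := by
    rw [hCdef, QQ_lin h hc a hcu, hc.D a c hcu]
    have h1 : c e * (κ a * c (P a) + ε a * c e - κ a * c (P a)) = ε a * (c e * c e) := by ring
    rw [h1]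
    exact mul_pos hε (mul_self_pos.2 hce)
  have hCz : QQ w β ξ a C z = 0 := by
    rw [hCdef, QQ_lin h hc a hcu, hz, mul_zero]
  have hzC : QQ w β ξ a z C = 0 := by rw [QQ_symm h, hCz]
  have hLC : L C ≠ 0 := fun h0 => absurd (hL C h0).1 (not_le.2 hCC)
  set t := L z / L C with ht
  have hLt : L (z + (-t) • C) = 0 := by
    rw [map_add, map_smul, smul_eq_mul, ht]
    field_simp
    ring
  have hexp : QQ w β ξ a (z + (-t) • C) (z + (-t) • C) =
      QQ w β ξ a z z + t ^ 2 * QQ w β ξ a C C := by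
    rw [QQ_add, QQ_smul, QQ_symm h ξ a z, QQ_symm h ξ a C (z + (-t) • C), QQ_add, QQ_add,
      QQ_smul, QQ_smul, hCz, hzC]
    ring
  have h1 := hL _ hLt
  rw [hexp] at h1
  have h2 : 0 ≤ t ^ 2 * QQ w β ξ a C C := by positivity
  refine ⟨by linarith [h1.1], fun h0 => ?_⟩
  have h3 : t ^ 2 * QQ w β ξ a C C = 0 := by linarith [h1.1]
  have h4 : t = 0 := by
    rcases mul_eq_zero.1 h3 with h5 | h5
    · exact pow_eq_zero_iff (two_ne_zero) |>.1 h5
    · exact absurd h5 hCC.ne'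
  have h5 := h1.2 (by rw [h0, h3]; ring)
  rw [h4] at h5
  simpa using h5

end Pool.Agent.Lib.MP_36627d_co
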