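import Pool.Agent.Lib.MP_36627d_co.Cone

/-!
# Facets through a vertex
-/

open Finset Module

namespace Pool.Agent.Lib.MP_36627d_co

open scoped Classical

variable {V W : Type*} [Fintype V] [AddCommGroup W] [Module ℝ W]

/-- the sum of all vertices -/
noncomputable def ee (P : V → W) : W := ∑ v, P v

/-- normalised supporting functional -/
theorem PFace.support {P : V → W} {F : Finset V} (hF : PFace P F) :
    ∃ φ : W →ₗ[ℝ] ℝ, (∀ v ∈ F, φ (P v) = 0) ∧ (∀ v, v ∉ F → φ (P v) < 0) ∧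
      φ (ee P) = -1 := by
  obtain ⟨⟨φ, h0, h1⟩, hne⟩ := hF
  have hle : ∀ v, φ (P v) ≤ 0 := by
    intro v
    by_cases hv : v ∈ F
    · rw [h0 v hv]
    · exact (h1 v hv).le
  have hex : ∃ v, v ∉ F := by
    by_contra hcon
    push Not at hcon
    exact hne (Finset.eq_univ_iff_forall.2 hcon)
  obtain ⟨v₀, hv₀⟩ := hex
  have hneg : φ (ee P) < 0 := by
    rw [ee, map_sum]
    exact Finset.sum_neg' (fun v _ => hle v) ⟨v₀, Finset.mem_univ _, h1 v₀ hv₀⟩
  refine ⟨(-(φ (ee P))⁻¹) • φ, fun v hv => ?_, fun v hv => ?_, ?_⟩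
  · rw [LinearMap.smul_apply, h0 v hv, smul_zero]
  · rw [LinearMap.smul_apply, smul_eq_mul]
    have h2 : (φ (ee P))⁻¹ < 0 := inv_lt_zero.2 hneg
    have h3 := h1 v hv
    nlinarith
  · rw [LinearMap.smul_apply, smul_eq_mul]
    have h2 : φ (ee P) ≠ 0 := hneg.ne
    field_simp

/-- A functional that kills a facet and one more vector outside its hyperplane is zero. -/
theorem facet_ext {P : V → W} {κ : W →ₗ[ℝ] ℝ} (hP : Poly P κ) {F : Finset V}
    (hF : PFace P F) (hc : F.card = 4) {e : W} {φ : W →ₗ[ℝ] ℝ}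
    (hφ : ∀ v ∈ F, φ (P v) = 0) (hφe : φ e ≠ 0) {E : Type*} [AddCommGroup E] [Module ℝ E]
    {l l' : W →ₗ[ℝ] E}
    (hl : ∀ v ∈ F, l (P v) = l' (P v)) (hle : l e = l' e) : l = l' := by
  classical
  have hfin := hP.fin
  have hli := hP.simp F hF
  have hnot : e ∉ Submodule.span ℝ (Set.range (fun v : F => P v)) := by
    intro hmem
    apply hφe
    have : ∀ x ∈ Submodule.span ℝ (Set.range (fun v : F => P v)), φ x = 0 := by
      intro x hx
      induction hx using Submodule.span_induction with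
      | mem x hx => obtain ⟨v, rfl⟩ := hx; exact hφ v v.2
      | zero => simp
      | add x y _ _ hx hy => simp [hx, hy]
      | smul c x _ hx => simp [hx]
    exact this e hmem
  have hopt := linearIndependent_option'.2 ⟨hli, hnot⟩
  have hcard : Fintype.card (Option F) = finrank ℝ W := by
    rw [Fintype.card_option, Fintype.card_coe, hc, hP.dim]
  have hsp := hopt.span_eq_top_of_card_eq_finrank hcard
  apply LinearMap.ext_on_range hsp
  intro o
  cases o with
  | none => exact hle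
  | some v => exact hl v v.2

/-- finitely many vectors are killed by a nonzero functional -/
theorem exists_kill {P : V → W} {κ : W →ₗ[ℝ] ℝ} (hP : Poly P κ) (S : Finset W)
    (hS : S.card ≤ 4) : ∃ h : W →ₗ[ℝ] ℝ, h ≠ 0 ∧ ∀ x ∈ S, h x = 0 := by
  classical
  have := hP.fin
  have hlt : Submodule.span ℝ (↑S : Set W) < ⊤ := by
    apply lt_top_iff_ne_top.2
    intro htop
    have h1 : finrank ℝ (Submodule.span ℝ (↑S : Set W)) ≤ S.card :=
      finrank_span_finset_le_card _
    rw [htop, finrank_top, hP.dim] at h1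
    omega
  obtain ⟨f, hf, hle⟩ := Submodule.exists_le_ker_of_lt_top _ hlt
  exact ⟨f, hf, fun x hx => by simpa using hle (Submodule.subset_span hx)⟩

/-- The structure of a ridge: it lies in exactly two facets, on different sides. -/
theorem PFace.ridge {P : V → W} {κ : W →ₗ[ℝ] ℝ} (hP : Poly P κ) {R : Finset V}
    (hR : PFace P R) (hc : R.card = 3) :
    ∃ h : W →ₗ[ℝ] ℝ, (∀ v ∈ R, h (P v) = 0) ∧ h (ee P) = 0 ∧
      (∀ l : W →ₗ[ℝ] ℝ, (∀ v ∈ R, l (P v) = 0) → l (ee P) = 0 → ∃ c : ℝ, l = c • h) ∧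
      ∃ x y, x ∉ R ∧ y ∉ R ∧ 0 < h (P x) ∧ h (P y) < 0 ∧ PFace P (insert x R) ∧
        PFace P (insert y R) ∧ ∀ z, z ∉ R → PFace P (insert z R) → z = x ∨ z = y := by
  classical
  obtain ⟨h, hne, hh⟩ := exists_kill hP (insert (ee P) (R.image P)) (by
    have h1 := Finset.card_insert_le (ee P) (R.image P)
    have h2 : (R.image P).card ≤ R.card := Finset.card_image_le
    omega)
  have he : h (ee P) = 0 := hh _ (Finset.mem_insert_self _ _)
  have h0 : ∀ v ∈ R, h (P v) = 0 := fun v hv =>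
    hh _ (Finset.mem_insert_of_mem (Finset.mem_image_of_mem P hv))
  -- both signs occur
  have hsum : ∑ v, h (P v) = 0 := by rw [← map_sum]; exact he
  have hnz : ∃ v, h (P v) ≠ 0 := by
    by_contra hcon
    push Not at hcon
    exact hne (hP.span h hcon)
  have hpos : ∃ v, 0 < h (P v) := by
    by_contra hcon
    push Not at hcon
    obtain ⟨v, hv⟩ := hnz
    exact hv ((Finset.sum_eq_zero_iff_of_nonpos (fun v _ => hcon v)).1 hsum v
      (Finset.mem_univ v))
  have hneg : ∃ v, 0 < (-h) (P v) := by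
    by_contra hcon
    push Not at hcon
    obtain ⟨v, hv⟩ := hnz
    refine hv ((Finset.sum_eq_zero_iff_of_nonneg (fun v _ => ?_)).1 hsum v
      (Finset.mem_univ v))
    have := hcon v
    rw [LinearMap.neg_apply] at this
    linarith
  obtain ⟨x, hx, hxF⟩ := hR.extend hP hc.le h0 hpos
  obtain ⟨y, hy, hyF⟩ := hR.extend hP hc.le (fun v hv => by simp [h0 v hv]) hneg
  have hxR : x ∉ R := fun hxR => by rw [h0 x hxR] at hx; exact lt_irrefl _ hx
  have hy' : h (P y) < 0 := by simpa using hy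
  have hyR : y ∉ R := fun hyR => by rw [h0 y hyR] at hy'; exact lt_irrefl _ hy'
  have hcard : ∀ z, z ∉ R → (insert z R).card = 4 := fun z hz => by
    rw [Finset.card_insert_of_notMem hz, hc]
  have hmul : ∀ l : W →ₗ[ℝ] ℝ, (∀ v ∈ R, l (P v) = 0) → l (ee P) = 0 →
      ∃ c : ℝ, l = c • h := by
    intro l hl hle
    obtain ⟨φ, hφ0, -, hφe⟩ := hxF.support
    refine ⟨l (P x) / h (P x), facet_ext hP hxF (hcard x hxR) hφ0 (by rw [hφe]; norm_num)
      (fun v hv => ?_) ?_⟩
    · rw [Finset.mem_insert] at hv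
      rw [LinearMap.smul_apply, smul_eq_mul]
      rcases hv with rfl | hv
      · field_simp
      · rw [hl v hv, h0 v hv, mul_zero]
    · rw [LinearMap.smul_apply, smul_eq_mul, hle, he, mul_zero]
  -- uniqueness
  have huniq : ∀ z z' : V, z ∉ R → z' ∉ R → PFace P (insert z R) → PFace P (insert z' R) →
      0 < h (P z) * h (P z') → z = z' := by
    intro z z' hz hz' hzF hz'F hzz
    obtain ⟨φ, hφ0, hφ1, hφe⟩ := hzF.support
    obtain ⟨φ', hφ'0, hφ'1, hφ'e⟩ := hz'F.support
    obtain ⟨c, hcc⟩ := hmul (φ - φ') (fun v hv => by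
      rw [LinearMap.sub_apply, hφ0 v (Finset.mem_insert_of_mem hv),
        hφ'0 v (Finset.mem_insert_of_mem hv), sub_zero]) (by
      rw [LinearMap.sub_apply, hφe, hφ'e, sub_self])
    by_contra hne
    have h1 : φ (P z) = 0 := hφ0 z (Finset.mem_insert_self _ _)
    have h2 : φ' (P z') = 0 := hφ'0 z' (Finset.mem_insert_self _ _)
    have h3 : φ (P z') < 0 := hφ1 z' (by
      rw [Finset.mem_insert]; push Not; exact ⟨fun h => hne h.symm, hz'⟩)
    have h4 : φ' (P z) < 0 := hφ'1 z (by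
      rw [Finset.mem_insert]; push Not; exact ⟨hne, hz⟩)
    have h5 := LinearMap.congr_fun hcc (P z)
    have h6 := LinearMap.congr_fun hcc (P z')
    simp only [LinearMap.sub_apply, LinearMap.smul_apply, smul_eq_mul, h1, h2] at h5 h6
    -- `c h(z) = -φ'(z) > 0`, `c h(z') = φ(z') < 0`
    have h7 : 0 < c * h (P z) := by linarith
    have h8 : c * h (P z') < 0 := by linarith
    nlinarith [mul_pos h7 (neg_pos.2 h8), sq_nonneg c]
  refine ⟨h, h0, he, hmul, x, y, hxR, hyR, hx, hy', hxF, hyF, fun z hz hzF => ?_⟩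
  have hhz : h (P z) ≠ 0 := by
    intro hz0
    obtain ⟨φ, hφ0, -, hφe⟩ := hzF.support
    refine hne (facet_ext hP hzF (hcard z hz) hφ0 (by rw [hφe]; norm_num) (fun v hv => ?_) ?_)
    · rw [Finset.mem_insert] at hv
      rcases hv with rfl | hv
      · simpa using hz0
      · simpa using h0 v hv
    · simpa using he
  rcases lt_or_gt_of_ne hhz with h1 | h1
  · exact Or.inr (huniq z y hz hyR hzF hyF (mul_pos_of_neg_of_neg h1 hy'))
  · exact Or.inl (huniq z x hz hxR hzF hxF (mul_pos h1 hx))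

/-- Facets through `u` are connected through ridges through `u`. -/
theorem star_induct {P : V → W} {κ : W →ₗ[ℝ] ℝ} (hP : Poly P κ) {u : V}
    (R : Finset V → Prop)
    (h : ∀ (G : Finset V) (y y' : V), PFace P G → G.card = 4 → u ∈ G → y ∈ G → y ≠ u →
      y' ∉ G → PFace P (insert y' (G.erase y)) → R G → R (insert y' (G.erase y)))
    {F₀ G₀ : Finset V} (hF₀ : PFace P F₀) (hF₀c : F₀.card = 4) (huF₀ : u ∈ F₀)
    (hG₀ : PFace P G₀) (hG₀c : G₀.card = 4) (huG₀ : u ∈ G₀) (hR : R F₀) : R G₀ := by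
  classical
  -- normalised supporting functionals
  have hsup : ∀ G : Finset V, ∃ φ : W →ₗ[ℝ] ℝ, PFace P G → (∀ v ∈ G, φ (P v) = 0) ∧
      (∀ v, v ∉ G → φ (P v) < 0) ∧ φ (ee P) = -1 := by
    intro G
    by_cases hG : PFace P G
    · obtain ⟨φ, hφ⟩ := hG.support
      exact ⟨φ, fun _ => hφ⟩
    · exact ⟨0, fun h => absurd h hG⟩
  choose φ hφ using hsup
  set q : W := ∑ v ∈ G₀, P v with hq
  obtain ⟨G, hG, hmax⟩ := Finset.exists_max_image
    (univ.filter fun G : Finset V => PFace P G ∧ G.card = 4 ∧ u ∈ G ∧ R G)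
    (fun G => φ G q) ⟨F₀, by
      simp only [Finset.mem_filter, Finset.mem_univ, true_and]
      exact ⟨hF₀, hF₀c, huF₀, hR⟩⟩
  simp only [Finset.mem_filter, Finset.mem_univ, true_and] at hG hmax
  obtain ⟨hG1, hGc, huG, hRG⟩ := hG
  by_cases hGG : G = G₀
  · rw [← hGG]; exact hRG
  exfalso
  obtain ⟨hφ0, hφ1, hφe⟩ := hφ G hG1
  obtain ⟨hψ0, hψ1, hψe⟩ := hφ G₀ hG₀
  -- `φ_G q < 0`
  have hnot : ¬ G₀ ⊆ G := fun hsub =>
    hGG (Finset.eq_of_subset_of_card_le hsub (by rw [hGc, hG₀c])).symm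
  obtain ⟨v₀, hv₀, hv₀G⟩ := Finset.not_subset.1 hnot
  have hφq : φ G q < 0 := by
    rw [hq, map_sum]
    refine Finset.sum_neg' (fun v _ => ?_) ⟨v₀, hv₀, hφ1 v₀ hv₀G⟩
    by_cases hv : v ∈ G
    · rw [hφ0 v hv]
    · exact (hφ1 v hv).le
  have hψq : φ G₀ q = 0 := by
    rw [hq, map_sum]
    exact Finset.sum_eq_zero fun v hv => hψ0 v hv
  -- dual functionals of the basis given by `G` and `ee`
  have hdual : ∀ y, y ∈ G → ∃ χ : W →ₗ[ℝ] ℝ, (∀ v ∈ G, χ (P v) = if v = y then 1 else 0) ∧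
      χ (ee P) = 0 := by
    intro y hy
    obtain ⟨χ, hχ⟩ := exists_dual_of_li (hP.simp G hG1) (fun v => if v = y then 1 else 0)
    refine ⟨χ + χ (ee P) • φ G, fun v hv => ?_, ?_⟩
    · rw [LinearMap.add_apply, LinearMap.smul_apply, hφ0 v hv, hχ v hv, smul_zero, add_zero]
    · rw [LinearMap.add_apply, LinearMap.smul_apply, hφe, smul_eq_mul]
      ring
  -- some coefficient is negative
  have hneg : ∃ y ∈ G, y ≠ u ∧ ∃ χ : W →ₗ[ℝ] ℝ, (∀ v ∈ G, χ (P v) = if v = y then 1 else 0) ∧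
      χ (ee P) = 0 ∧ χ q < 0 := by
    by_contra hcon
    push Not at hcon
    have hdual' : ∀ y : V, ∃ χ : W →ₗ[ℝ] ℝ, y ∈ G →
        (∀ v ∈ G, χ (P v) = if v = y then 1 else 0) ∧ χ (ee P) = 0 := by
      intro y
      by_cases hy : y ∈ G
      · obtain ⟨χ, hχ⟩ := hdual y hy
        exact ⟨χ, fun _ => hχ⟩
      · exact ⟨0, fun h => absurd h hy⟩
    choose χ hχ using hdual'
    have hexp : φ G₀ = (∑ y ∈ G, φ G₀ (P y) • χ y) + φ G := by
      apply facet_ext hP hG1 hGc hφ0 (e := ee P) (by rw [hφe]; norm_num)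
      · intro v hv
        rw [LinearMap.add_apply, hφ0 v hv, add_zero, LinearMap.sum_apply]
        rw [Finset.sum_eq_single v]
        · rw [LinearMap.smul_apply, (hχ v hv).1 v hv, if_pos rfl, smul_eq_mul, mul_one]
        · intro y hy hyv
          rw [LinearMap.smul_apply, (hχ y hy).1 v hv, if_neg hyv.symm, smul_zero]
        · intro h; exact absurd hv h
      · rw [LinearMap.add_apply, hφe, hψe, LinearMap.sum_apply]
        rw [Finset.sum_eq_zero, zero_add]
        intro y hy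
        rw [LinearMap.smul_apply, (hχ y hy).2, smul_zero]
    have h1 := LinearMap.congr_fun hexp q
    rw [hψq, LinearMap.add_apply, LinearMap.sum_apply] at h1
    have h2 : ∑ y ∈ G, (φ G₀ (P y) • χ y) q ≤ 0 := by
      apply Finset.sum_nonpos
      intro y hy
      rw [LinearMap.smul_apply, smul_eq_mul]
      by_cases hyu : y = u
      · rw [hyu, hψ0 u huG₀, zero_mul]
      · have h3 := hcon y hy hyu (χ y) (hχ y hy).1 (hχ y hy).2
        have h4 : φ G₀ (P y) ≤ 0 := by
          by_cases hyG : y ∈ G₀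
          · rw [hψ0 y hyG]
          · exact (hψ1 y hyG).le
        exact mul_nonpos_of_nonpos_of_nonneg h4 h3
    linarith
  obtain ⟨y, hy, hyu, χ, hχ1, hχe, hχq⟩ := hneg
  -- cross the ridge opposite to `y`
  have hRc : (G.erase y).card = 3 := by rw [Finset.card_erase_of_mem hy, hGc]
  have hRF : PFace P (G.erase y) := hG1.mono hP (Finset.erase_subset _ _)
  obtain ⟨y', hy', hy'F⟩ := hRF.extend hP hRc.le (h := -χ) (fun v hv => by
    rw [LinearMap.neg_apply, hχ1 v (Finset.mem_of_mem_erase hv),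
      if_neg (Finset.ne_of_mem_erase hv), neg_zero]) (by
    by_contra hcon
    push Not at hcon
    have hsum : ∑ v, χ (P v) = 0 := by rw [← map_sum]; exact hχe
    have h1 := (Finset.sum_eq_zero_iff_of_nonneg (fun v _ => by
      have := hcon v
      rw [LinearMap.neg_apply] at this
      linarith)).1 hsum y (Finset.mem_univ y)
    rw [hχ1 y hy, if_pos rfl] at h1
    exact one_ne_zero h1)
  have hχy' : χ (P y') < 0 := by simpa using hy'
  have hy'G : y' ∉ G := by
    intro hy'G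
    rw [hχ1 y' hy'G] at hχy'
    split_ifs at hχy' <;> linarith
  have hG'c : (insert y' (G.erase y)).card = 4 := by
    rw [Finset.card_insert_of_notMem (fun h => hy'G (Finset.mem_of_mem_erase h)), hRc]
  have huG' : u ∈ insert y' (G.erase y) :=
    Finset.mem_insert_of_mem (Finset.mem_erase.2 ⟨hyu.symm, huG⟩)
  have hRG' := h G y y' hG1 hGc huG hy hyu hy'G hy'F hRG
  have hle := hmax _ ⟨hy'F, hG'c, huG', hRG'⟩
  obtain ⟨hζ0, hζ1, hζe⟩ := hφ _ hy'F
  -- `φ_{G'} - φ_G = c χ` with `c = φ_{G'}(y) < 0`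
  have hdiff : φ (insert y' (G.erase y)) = φ G + φ (insert y' (G.erase y)) (P y) • χ := by
    apply facet_ext hP hG1 hGc hφ0 (e := ee P) (by rw [hφe]; norm_num)
    · intro v hv
      rw [LinearMap.add_apply, hφ0 v hv, zero_add, LinearMap.smul_apply, hχ1 v hv]
      by_cases hvy : v = y
      · rw [hvy, if_pos rfl, smul_eq_mul, mul_one]
      · rw [if_neg hvy, smul_zero]
        exact hζ0 v (Finset.mem_insert_of_mem (Finset.mem_erase.2 ⟨hvy, hv⟩))
    · rw [LinearMap.add_apply, hζe, hφe, LinearMap.smul_apply, hχe, smul_zero, add_zero]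
  have hcneg : φ (insert y' (G.erase y)) (P y) < 0 := by
    apply hζ1
    rw [Finset.mem_insert]
    push Not
    refine ⟨?_, fun h => Finset.ne_of_mem_erase h rfl⟩
    rintro rfl
    exact hy'G hy
  have h5 := LinearMap.congr_fun hdiff q
  rw [LinearMap.add_apply, LinearMap.smul_apply, smul_eq_mul] at h5
  have h6 : 0 < φ (insert y' (G.erase y)) (P y) * χ q := mul_pos_of_neg_of_neg hcneg hχq
  linarith

end Pool.Agent.Lib.MP_36627d_co
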