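import Pool.Agent.Lib.MP_36627d_co.Algebra

/-!
# Levelness of `A(∂P)`
-/

open Finset Module MvPolynomial

namespace Pool.Agent.Lib.MP_36627d_co

open scoped Classical

variable {n : ℕ}

theorem mk_eq_zero {p : Fin n → Fin 4 → ℝ} {f : MvPolynomial (Fin n) ℝ} :
    Ideal.Quotient.mk (idealA p) f = 0 ↔ f ∈ idealA p := Ideal.Quotient.eq_zero_iff_mem

theorem coeff_linForm_of_degree {p : Fin n → Fin 4 → ℝ} (l : ((Fin 4 → ℝ) × ℝ) →ₗ[ℝ] ℝ)
    (m : Fin n →₀ ℕ) (hm : m.degree ≠ 1) : coeff m (linForm p l) = 0 := by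
  rw [linForm, coeff_sum]
  refine Finset.sum_eq_zero fun v _ => ?_
  rw [coeff_C_mul, coeff_X, if_neg, mul_zero]
  rintro rfl
  exact hm (by simp)

theorem coeff_linForm_single {p : Fin n → Fin 4 → ℝ} (l : ((Fin 4 → ℝ) × ℝ) →ₗ[ℝ] ℝ)
    (a : Fin n) : coeff (Finsupp.single a 1) (linForm p l) = l (hom p a) := by
  rw [← one_mul (linForm p l), coeff_mul_linForm]
  simp only [coeff_X_one]
  simp

theorem nonempty_of {p : Fin n → Fin 4 → ℝ} {κ : ((Fin 4 → ℝ) × ℝ) →ₗ[ℝ] ℝ}
    (hP : Poly (hom p) κ) : Nonempty (Fin n) := by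
  by_contra hne
  have h1 : (fct 0 1 : ((Fin 4 → ℝ) × ℝ) →ₗ[ℝ] ℝ) = 0 :=
    hP.span _ fun v => absurd ⟨v⟩ hne
  have h2 := LinearMap.congr_fun h1 (0, 1)
  rw [fct_apply] at h2
  simp at h2

theorem gradedPart_eq_zero_iff {p : Fin n → Fin 4 → ℝ} (k : ℕ) :
    gradedPart p k = {0} ↔ ∀ f : MvPolynomial (Fin n) ℝ, f.IsHomogeneous k → f ∈ idealA p := by
  constructor
  · intro h f hf
    have : Ideal.Quotient.mk (idealA p) f ∈ gradedPart p k := ⟨f, hf, rfl⟩
    rw [h, Set.mem_singleton_iff] at this
    exact mk_eq_zero.1 this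
  · intro h
    ext a
    rw [Set.mem_singleton_iff]
    constructor
    · rintro ⟨f, hf, rfl⟩
      exact mk_eq_zero.2 (h f hf)
    · rintro rfl
      exact ⟨0, isHomogeneous_zero _ _ _, by simp⟩

/-- Levelness for the natural embedding of simplicial 4-polytopes without missing
tetrahedra. -/
theorem level_of (p : Fin n → Fin 4 → ℝ) (hp : IsSimplicialPolytope p)
    (hm : NoMissingFaceAboveTwo (boundaryComplex p)) : IsLevel p := by
  have hP := poly_of p hp
  have hM := noMissing_of p hm
  refine ⟨2, fun h2 => ?_, fun k hk => ?_, fun a ha => ?_⟩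
  · -- `A(Δ)_2 ≠ 0`
    rw [gradedPart_eq_zero_iff] at h2
    obtain ⟨v₀⟩ := nonempty_of hP
    obtain ⟨-, l, hl⟩ := linear_part hP hM (X v₀) fun v =>
      h2 _ ((isHomogeneous_X ℝ v).mul (isHomogeneous_X ℝ v₀))
    have hl0 : l = 0 := by
      refine span_compl hP hM v₀ fun v hv => ?_
      rw [← hl v, coeff_X, if_neg]
      intro h
      have := Finsupp.single_left_injective one_ne_zero h
      exact hv this.symm
    have h3 := hl v₀
    rw [hl0] at h3
    simp at h3
  · -- `A(Δ)_k = 0` for `k > 2`
    rw [gradedPart_eq_zero_iff]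
    intro f hf
    refine high_mem hP f fun m hmf => ?_
    by_contra hcon
    exact hmf (hf.coeff_eq_zero (by omega))
  · -- the socle
    obtain ⟨f, rfl⟩ := Ideal.Quotient.mk_surjective a
    have hf : ∀ v, X v * f ∈ idealA p := by
      intro v
      have h1 : xA p v * Ideal.Quotient.mk (idealA p) f = 0 := ha v
      rw [xA, ← map_mul] at h1
      exact mk_eq_zero.1 h1
    obtain ⟨h0, l, hl⟩ := linear_part hP hM f hf
    obtain ⟨v₀⟩ := nonempty_of hP
    have h0' := h0 v₀
    refine ⟨homogeneousComponent 2 f, homogeneousComponent_isHomogeneous 2 f, ?_⟩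
    have hmem : f - homogeneousComponent 2 f - linForm p l ∈ idealA p := by
      refine high_mem hP _ fun m hmf => ?_
      by_contra hcon
      apply hmf
      rw [coeff_sub, coeff_sub, coeff_homogeneousComponent]
      have hcases : m.degree = 0 ∨ m.degree = 1 ∨ m.degree = 2 := by omega
      rcases hcases with h1 | h1 | h1
      · have h2 : m = 0 := by rwa [Finsupp.degree_eq_zero_iff] at h1
        rw [coeff_linForm_of_degree l m (by omega), if_neg (by omega), h2, h0']
        ring
      · have h2 : ∃ v, m = Finsupp.single v 1 := by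
          have hne : m ≠ 0 := by
            rintro rfl
            simp at h1
          obtain ⟨v, hv⟩ := Finsupp.support_nonempty_iff.2 hne
          have hle : Finsupp.single v 1 ≤ m := by
            rw [Finsupp.single_le_iff]
            have := Finsupp.mem_support_iff.1 hv
            omega
          refine ⟨v, ?_⟩
          have h3 : (Finsupp.single v 1 + (m - Finsupp.single v 1)).degree = m.degree := by
            rw [add_tsub_cancel_of_le hle]
          rw [map_add, Finsupp.degree_single] at h3
          have h4 : (m - Finsupp.single v 1).degree = 0 := by omega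
          rw [Finsupp.degree_eq_zero_iff] at h4
          rw [← add_tsub_cancel_of_le hle, h4, add_zero]
        obtain ⟨v, rfl⟩ := h2
        rw [coeff_linForm_single, hl v, if_neg (by simp)]
        ring
      · rw [coeff_linForm_of_degree l m (by omega), if_pos h1]
        ring
    have h5 : f - homogeneousComponent 2 f ∈ idealA p := by
      have := Ideal.add_mem _ hmem (linForm_mem p l)
      simpa using this
    rw [← sub_eq_zero, ← map_sub]
    exact mk_eq_zero.2 h5

end Pool.Agent.Lib.MP_36627d_co
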