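import Pool.Agent.Lib.MP_36627d_co.Cone

/-!
# The extremal argument

`y` is a function on the vertices; for every vertex `v` there is an infinitesimal motion `M v`
of all vertices that preserves all edges not at `v`, and changes the length of the edge `v a`
by `y v - y a`.  We show that `y` is the restriction of a linear functional on `W` (an affine
function on the polytope).
-/

open Finset Module

namespace Pool.Agent.Lib.MP_36627d_co

open scoped Classical

variable {V W : Type*} [Fintype V] [AddCommGroup W] [Module ℝ W]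

/-- alternating bilinear forms -/
def Alt (Ω : W →ₗ[ℝ] (W →ₗ[ℝ] ℝ)) : Prop := ∀ x, Ω x x = 0

theorem Alt.skew {Ω : W →ₗ[ℝ] (W →ₗ[ℝ] ℝ)} (h : Alt Ω) (x y : W) : Ω x y = -Ω y x := by
  have := h (x + y)
  simp only [map_add, LinearMap.add_apply, h x, h y, zero_add, add_zero] at this
  linarith

theorem Alt.sub {Ω Ω' : W →ₗ[ℝ] (W →ₗ[ℝ] ℝ)} (h : Alt Ω) (h' : Alt Ω') : Alt (Ω - Ω') :=
  fun x => by simp [h x, h' x]

theorem Alt.eq_zero {P : V → W} {Ω : W →ₗ[ℝ] (W →ₗ[ℝ] ℝ)} (h : Alt Ω) {S : Set V}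
    (hS : ∀ l : W →ₗ[ℝ] ℝ, (∀ v ∈ S, l (P v) = 0) → l = 0) (h0 : ∀ v ∈ S, Ω (P v) = 0) :
    Ω = 0 := by
  apply LinearMap.ext
  intro x
  apply hS
  intro v hv
  rw [h.skew, h0 v hv]
  simp

theorem Alt.eq_zero_of_near {P : V → W} {Ω : W →ₗ[ℝ] (W →ₗ[ℝ] ℝ)} (h : Alt Ω) {S : Set V}
    {g : W →ₗ[ℝ] ℝ}
    (hS : ∀ l : W →ₗ[ℝ] ℝ, (∀ v ∈ S, l (P v) = 0) → ∃ c : ℝ, l = c • g)
    (h0 : ∀ v ∈ S, Ω (P v) = 0) : Ω = 0 := by
  have h1 : ∀ x, ∃ c : ℝ, Ω x = c • g := fun x => hS _ fun v hv => by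
    rw [h.skew, h0 v hv]
    simp
  by_cases hg : g = 0
  · apply LinearMap.ext
    intro x
    obtain ⟨c, hc⟩ := h1 x
    rw [hc, hg]
    simp
  · have : ∃ x₀, g x₀ ≠ 0 := by
      by_contra hcon
      push Not at hcon
      exact hg (LinearMap.ext hcon)
    obtain ⟨x₀, hx₀⟩ := this
    obtain ⟨c₀, hc₀⟩ := h1 x₀
    have hc0 : c₀ = 0 := by
      have := h x₀
      rw [hc₀, LinearMap.smul_apply, smul_eq_mul] at this
      exact (mul_eq_zero.1 this).resolve_right hx₀
    apply LinearMap.ext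
    intro x
    obtain ⟨c, hc⟩ := h1 x
    have h2 := h.skew x x₀
    rw [hc, hc₀, hc0] at h2
    simp only [LinearMap.smul_apply, smul_eq_mul, zero_mul, neg_zero] at h2
    rw [hc, (mul_eq_zero.1 h2).resolve_right hx₀]
    simp

theorem eq_of_sub_eq_zero {Ω Ω' : W →ₗ[ℝ] (W →ₗ[ℝ] ℝ)} (h : Ω' - Ω = 0) : Ω' = Ω := by
  apply LinearMap.ext
  intro x
  apply LinearMap.ext
  intro y
  have := LinearMap.congr_fun (LinearMap.congr_fun h x) y
  simp only [LinearMap.sub_apply, LinearMap.zero_apply] at this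
  linarith

/-- `K` is the restriction of an infinitesimal isometry -/
def Rig (P : V → W) (K : V → W →ₗ[ℝ] ℝ) (S : Set V) : Prop :=
  ∃ Ω : W →ₗ[ℝ] (W →ₗ[ℝ] ℝ), Alt Ω ∧ ∀ v ∈ S, K v = Ω (P v)

/-- Infinitesimal rigidity of all vertex stars. -/
def StarRigid (P : V → W) : Prop :=
  ∀ (u : V) (K : V → W →ₗ[ℝ] ℝ), (∀ a ∈ nb P u, K a (P a) = 0) →
    (∀ a ∈ nb P u, ∀ b ∈ nb P u, Adj P a b → K a (P b) + K b (P a) = 0) → Rig P K (nb P u)

theorem rig_conn {P : V → W} {κ : W →ₗ[ℝ] ℝ} (hP : Poly P κ) {K : V → W →ₗ[ℝ] ℝ} {X : Set V}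
    {x₀ : V} (hx₀ : x₀ ∈ X) (hX : ∀ x ∈ X, Conn P X x₀ x) (hK : ∀ x ∈ X, Rig P K (nb P x)) :
    ∃ Ω : W →ₗ[ℝ] (W →ₗ[ℝ] ℝ), Alt Ω ∧ ∀ x ∈ X, ∀ v ∈ nb P x, K v = Ω (P v) := by
  obtain ⟨Ω, hΩ, h0⟩ := hK x₀ hx₀
  refine ⟨Ω, hΩ, fun x hx => ?_⟩
  have key : ∀ x, Conn P X x₀ x → ∀ v ∈ nb P x, K v = Ω (P v) := by
    intro x hx
    induction hx with
    | refl => exact h0
    | @tail c d _ h2 ih =>
      obtain ⟨Ω', hΩ', h1⟩ := hK d h2.2.2
      have : Ω' - Ω = 0 := by
        refine (hΩ'.sub hΩ).eq_zero (P := P) (S := {v | v ∈ nb P c ∧ v ∈ nb P d}) ?_ ?_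
        · intro l hl
          exact nb_inter_span hP h2.1 fun v hv hv' => hl v ⟨hv, hv'⟩
        · rintro v ⟨hv, hv'⟩
          rw [LinearMap.sub_apply, ← ih v hv, ← h1 v hv', sub_self]
      rw [eq_of_sub_eq_zero this] at h1
      exact h1
  exact key x (hX x hx)

theorem aff_conn {P : V → W} {κ : W →ₗ[ℝ] ℝ} (hP : Poly P κ) {y : V → ℝ} {X : Set V}
    {x₀ : V} (hx₀ : x₀ ∈ X) (hX : ∀ x ∈ X, Conn P X x₀ x)
    (hK : ∀ x ∈ X, ∃ l : W →ₗ[ℝ] ℝ, ∀ v ∈ nb P x, y v = l (P v)) :
    ∃ l : W →ₗ[ℝ] ℝ, ∀ x ∈ X, ∀ v ∈ nb P x, y v = l (P v) := by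
  obtain ⟨l, h0⟩ := hK x₀ hx₀
  refine ⟨l, fun x hx => ?_⟩
  have key : ∀ x, Conn P X x₀ x → ∀ v ∈ nb P x, y v = l (P v) := by
    intro x hx
    induction hx with
    | refl => exact h0
    | @tail c d _ h2 ih =>
      obtain ⟨l', h1⟩ := hK d h2.2.2
      have : l' - l = 0 := by
        refine nb_inter_span hP h2.1 fun v hv hv' => ?_
        rw [LinearMap.sub_apply, ← ih v hv, ← h1 v hv', sub_self]
      rw [sub_eq_zero.1 this] at h1
      exact h1
  exact key x (hX x hx)

/-- complete graphs on a spanning set are rigid -/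
theorem rig_complete {P : V → W} {K : V → W →ₗ[ℝ] ℝ} {S : Set V}
    (hS : Submodule.span ℝ (P '' S) = ⊤) (h0 : ∀ a ∈ S, K a (P a) = 0)
    (h1 : ∀ a ∈ S, ∀ b ∈ S, a ≠ b → K a (P b) + K b (P a) = 0) : Rig P K S := by
  classical
  have h1' : ∀ a ∈ S, ∀ b ∈ S, K a (P b) + K b (P a) = 0 := by
    intro a ha b hb
    by_cases hab : a = b
    · subst hab; rw [h0 a ha]; simp
    · exact h1 a ha b hb hab
  let L : (S →₀ ℝ) →ₗ[ℝ] W := Finsupp.linearCombination ℝ (fun v : S => P v)
  let Km : (S →₀ ℝ) →ₗ[ℝ] (W →ₗ[ℝ] ℝ) := Finsupp.linearCombination ℝ (fun v : S => K v)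
  have hL : LinearMap.range L = ⊤ := by
    rw [Finsupp.range_linearCombination, ← hS]
    congr 1
    ext x
    simp
  have hext : ∀ l : W →ₗ[ℝ] ℝ, (∀ v ∈ S, l (P v) = 0) → l = 0 := by
    intro l hl
    have : ∀ x ∈ Submodule.span ℝ (P '' S), l x = 0 := by
      intro x hx
      induction hx using Submodule.span_induction with
      | mem x hx => obtain ⟨v, hv, rfl⟩ := hx; exact hl v hv
      | zero => simp
      | add x y _ _ hx hy => simp [hx, hy]
      | smul c x _ hx => simp [hx]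
    rw [hS] at this
    exact LinearMap.ext fun x => this x Submodule.mem_top
  have hsw : ∀ (c : S →₀ ℝ) (b : V), b ∈ S → (Km c) (P b) = -K b (L c) := by
    intro c b hb
    induction c using Finsupp.induction_linear with
    | zero => simp
    | add f g hf hg => simp only [map_add, LinearMap.add_apply, hf, hg]; ring
    | single a r =>
      have := h1' a a.2 b hb
      simp only [Km, L, Finsupp.linearCombination_single, LinearMap.smul_apply, map_smul,
        smul_eq_mul]
      linear_combination r * this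
  have hker : ∀ c : S →₀ ℝ, L c = 0 → Km c = 0 := by
    intro c hc
    apply hext
    intro b hb
    rw [hsw c b hb, hc]
    simp
  obtain ⟨R, hR⟩ := LinearMap.exists_rightInverse_of_surjective L hL
  have hRL : ∀ c, Km (R (L c)) = Km c := by
    intro c
    have h2 : L (R (L c) - c) = 0 := by
      rw [map_sub, sub_eq_zero]
      exact LinearMap.congr_fun hR (L c)
    have h3 := hker _ h2
    rw [map_sub, sub_eq_zero] at h3
    exact h3
  have hPa : ∀ a (ha : a ∈ S), Km (R (P a)) = K a := by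
    intro a ha
    have h2 : L (Finsupp.single ⟨a, ha⟩ 1) = P a := by
      simp [L]
    rw [← h2, hRL]
    simp [Km]
  refine ⟨Km.comp R, fun x => ?_, fun a ha => ?_⟩
  · obtain ⟨c, rfl⟩ : ∃ c, L c = x := by
      have : x ∈ LinearMap.range L := by rw [hL]; exact Submodule.mem_top
      exact this
    rw [LinearMap.comp_apply, hRL]
    have hgen : ∀ c d : S →₀ ℝ, (Km c) (L d) = -(Km d) (L c) := by
      intro c d
      induction d using Finsupp.induction_linear with
      | zero => simp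
      | add f g hf hg => simp only [map_add, LinearMap.add_apply, hf, hg]; ring
      | single a r =>
        have h5 := hsw c a a.2
        simp only [Km, L, Finsupp.linearCombination_single, LinearMap.smul_apply, map_smul,
          smul_eq_mul] at h5 ⊢
        rw [h5]
        ring
    have := hgen c c
    linarith
  · rw [LinearMap.comp_apply, hPa a ha]

/-- there are at least six vertices; more precisely the vertices other than `s` span -/
theorem span_compl {P : V → W} {κ : W →ₗ[ℝ] ℝ} (hP : Poly P κ) (hm : NoMissing P) (s : V)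
    {l : W →ₗ[ℝ] ℝ} (hl : ∀ v, v ≠ s → l (P v) = 0) : l = 0 := by
  classical
  have hfin := hP.fin
  by_contra h0
  have hls : l (P s) ≠ 0 := by
    intro h1
    refine h0 (hP.span l fun v => ?_)
    by_cases hv : v = s
    · rw [hv, h1]
    · exact hl v hv
  -- the vertices other than `s` form a face
  have hF : PFace P (univ.erase s) := by
    refine ⟨?_, fun h => ?_⟩
    · rcases lt_or_gt_of_ne hls with h1 | h1
      · refine ⟨l, fun v hv => hl v (Finset.ne_of_mem_erase hv), fun v hv => ?_⟩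
        have : v = s := by simpa using hv
        rw [this]; exact h1
      · refine ⟨-l, fun v hv => by simp [hl v (Finset.ne_of_mem_erase hv)], fun v hv => ?_⟩
        have : v = s := by simpa using hv
        rw [this]; simpa using h1
    · have : s ∈ univ.erase s := by rw [h]; exact Finset.mem_univ s
      simp at this
  have hc := hF.card_le hP
  rw [Finset.card_erase_of_mem (Finset.mem_univ s), Finset.card_univ] at hc
  -- so all vectors form a basis
  have hsp : Submodule.span ℝ (Set.range P) = ⊤ := by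
    by_contra hne
    obtain ⟨f, hf, hle⟩ := Submodule.exists_le_ker_of_lt_top _ (lt_top_iff_ne_top.2 hne)
    exact hf (hP.span f fun v => by
      simpa using hle (Submodule.subset_span ⟨v, rfl⟩))
  have hcard : Fintype.card V = finrank ℝ W := by
    apply le_antisymm
    · rw [hP.dim]; omega
    · have := finrank_range_le_card (R := ℝ) P
      rw [Set.finrank, hsp, finrank_top] at this
      exact this
  have hli : LinearIndependent ℝ P := by
    rw [linearIndependent_iff_card_eq_finrank_span, Set.finrank, hsp, finrank_top]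
    exact hcard
  have hall : ∀ G : Finset V, G ⊂ univ → PFace P G := by
    intro G hG
    have hli' : LinearIndependent ℝ (fun v : (univ : Finset V) => P v) :=
      hli.comp (fun v : (univ : Finset V) => (v : V)) Subtype.val_injective
    obtain ⟨ψ, hψ⟩ := exists_dual_of_li hli' (fun v => if v ∈ G then 0 else -1)
    refine ⟨⟨ψ, fun v hv => ?_, fun v hv => ?_⟩, hG.ne⟩
    · rw [hψ v (Finset.mem_univ v), if_pos hv]
    · rw [hψ v (Finset.mem_univ v), if_neg hv]; norm_num
  have := hm univ (by rw [Finset.card_univ, hcard, hP.dim]; norm_num) hall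
  exact this.2 rfl

/-- The data of the main argument. -/
structure Data (P : V → W) (y : V → ℝ) (M : V → V → W →ₗ[ℝ] ℝ) : Prop where
  self : ∀ v a, M v a (P a) = 0
  edge : ∀ v a b, Adj P a b → M v a (P b) + M v b (P a) =
    (if a = v then y a - y b else 0) + (if b = v then y b - y a else 0)

/-- `y` is affine on the closed neighbourhood of `u` -/
def Good (P : V → W) (y : V → ℝ) (u : V) : Prop :=
  ∃ l : W →ₗ[ℝ] ℝ, ∀ v ∈ nb P u, y v = l (P v)

/-- Modification of the motion `K` at `s` by the gradient of `l`. -/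
noncomputable def modif (P : V → W) (κ : W →ₗ[ℝ] ℝ) (K : V → W →ₗ[ℝ] ℝ) (s : V)
    (l : W →ₗ[ℝ] ℝ) : V → W →ₗ[ℝ] ℝ :=
  fun v => if v = s then K s - (l (P s) • κ - l) else K v

/-- If `K` is a motion as in `Data` for the vertex `s`, and `y = l` on the stars of the
vertices of the connected set `X ∌ s`, then the modified motion is rigid there. -/
theorem modif_rigid {P : V → W} {κ : W →ₗ[ℝ] ℝ} (hP : Poly P κ) (hst : StarRigid P)
    {y : V → ℝ} {K : V → W →ₗ[ℝ] ℝ} {s : V} (hK0 : ∀ a, K a (P a) = 0)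
    (hK : ∀ a b, Adj P a b → K a (P b) + K b (P a) =
      (if a = s then y a - y b else 0) + (if b = s then y b - y a else 0))
    {X : Set V} {x₀ : V} (hx₀ : x₀ ∈ X) (hX : ∀ x ∈ X, Conn P X x₀ x)
    {l : W →ₗ[ℝ] ℝ} (hl : ∀ x ∈ X, ∀ v ∈ nb P x, y v = l (P v)) :
    ∃ Ω : W →ₗ[ℝ] (W →ₗ[ℝ] ℝ), Alt Ω ∧
      ∀ x ∈ X, ∀ v ∈ nb P x, modif P κ K s l v = Ω (P v) := by
  refine rig_conn hP hx₀ hX fun x hx => hst x _ ?_ ?_
  · intro a _
    by_cases has : a = s
    · subst has
      simp [modif, hK0, hP.one]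
    · simp [modif, has, hK0]
  · intro a ha b hb hab
    have h1 := hK a b hab
    have hya := hl x hx a ha
    have hyb := hl x hx b hb
    by_cases has : a = s
    · subst has
      have hba : b ≠ a := hab.1.symm
      simp only [modif, if_true, if_neg hba, LinearMap.sub_apply, LinearMap.smul_apply,
        smul_eq_mul, hP.one] at h1 ⊢
      rw [hya, hyb] at h1
      linarith
    · by_cases hbs : b = s
      · subst hbs
        simp only [modif, if_true, if_neg has, LinearMap.sub_apply, LinearMap.smul_apply,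
          smul_eq_mul, hP.one] at h1 ⊢
        rw [hya, hyb] at h1
        linarith
      · simp only [modif, if_neg has, if_neg hbs] at h1 ⊢
        linarith

end Pool.Agent.Lib.MP_36627d_co
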