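import Pool.Agent.Lib.MP_36627d_co.Main

/-!
# The extremal argument, conclusion
-/

open Finset Module

namespace Pool.Agent.Lib.MP_36627d_co

open scoped Classical

variable {V W : Type*} [Fintype V] [AddCommGroup W] [Module ℝ W]

theorem nb_symm {P : V → W} {a b : V} (h : a ∈ nb P b) : b ∈ nb P a := by
  rcases h with h | h
  · exact Or.inl h.symm
  · exact Or.inr h.symm

theorem Conn.trans {P : V → W} {X : Set V} {a b c : V} (h : Conn P X a b) (h' : Conn P X b c) :
    Conn P X a c := Relation.ReflTransGen.trans h h'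

theorem Conn.single {P : V → W} {X : Set V} {a b : V} (h : Adj P a b) (ha : a ∈ X)
    (hb : b ∈ X) : Conn P X a b := Relation.ReflTransGen.single ⟨h, ha, hb⟩

/-- paths stay inside the component -/
theorem Conn.inside {P : V → W} {X : Set V} {a b : V} (h : Conn P X a b) :
    Conn P {v | Conn P X a v} a b := by
  induction h with
  | refl => exact Relation.ReflTransGen.refl
  | @tail c d h1 h2 ih =>
    exact Relation.ReflTransGen.tail ih ⟨h2.1, h1, Relation.ReflTransGen.tail h1 h2⟩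

/-- the separation defined by a component of an induced subgraph -/
theorem sep_of_comp {P : V → W} {X : Set V} {a : V} (b : V)
    (hb : ¬ Conn P X a b) (hb' : ∀ c, Conn P X a c → ¬ Adj P c b) :
    Sep P (univ.filter fun v => Conn P X a v)
      (univ.filter fun v => ¬ Conn P X a v ∧ ∃ c, Conn P X a c ∧ Adj P c v)
      (univ.filter fun v => ¬ Conn P X a v ∧ ¬ ∃ c, Conn P X a c ∧ Adj P c v) where
  neA := ⟨a, by
    simp only [Finset.mem_filter, Finset.mem_univ, true_and]
    exact Relation.ReflTransGen.refl⟩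
  neB := ⟨b, by
    simp only [Finset.mem_filter, Finset.mem_univ, true_and]
    exact ⟨hb, fun ⟨c, hc, hc'⟩ => hb' c hc hc'⟩⟩
  cover v := by
    simp only [Finset.mem_filter, Finset.mem_univ, true_and]
    by_cases h1 : Conn P X a v
    · exact Or.inl h1
    · by_cases h2 : ∃ c, Conn P X a c ∧ Adj P c v
      · exact Or.inr (Or.inl ⟨h1, h2⟩)
      · exact Or.inr (Or.inr ⟨h1, h2⟩)
  disjA v := by
    simp only [Finset.mem_filter, Finset.mem_univ, true_and]
    exact fun h => h.1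
  disjB v := by
    simp only [Finset.mem_filter, Finset.mem_univ, true_and]
    exact fun h h' => h'.2 h.2
  disjAB v := by
    simp only [Finset.mem_filter, Finset.mem_univ, true_and]
    exact fun h h' => h'.1 h
  noedge a' ha' b' hb' hab := by
    simp only [Finset.mem_filter, Finset.mem_univ, true_and] at ha' hb'
    exact hb'.2 ⟨a', ha', hab⟩

/-- Conclusion at the vertex `s` -/
theorem good_of {P : V → W} {κ : W →ₗ[ℝ] ℝ} (hP : Poly P κ)
    {y : V → ℝ} {K : V → W →ₗ[ℝ] ℝ} {s : V} (hK0 : ∀ a, K a (P a) = 0)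
    (hK : ∀ a b, Adj P a b → K a (P b) + K b (P a) =
      (if a = s then y a - y b else 0) + (if b = s then y b - y a else 0))
    (h : ∀ v, Adj P s v → K v (P s) = 0) : Good P y s := by
  refine ⟨y s • κ - K s, ?_⟩
  intro v hv
  simp only [LinearMap.sub_apply, LinearMap.smul_apply, smul_eq_mul, hP.one]
  rcases hv with rfl | hv
  · rw [hK0]; ring
  · have h1 := hK s v hv
    rw [h v hv, if_pos rfl, if_neg hv.1.symm] at h1
    linarith

/-- Subtracting an infinitesimal isometry preserves the equations. -/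
theorem sub_iso {P : V → W} {y : V → ℝ} {K : V → W →ₗ[ℝ] ℝ} {s : V}
    (hK0 : ∀ a, K a (P a) = 0)
    (hK : ∀ a b, Adj P a b → K a (P b) + K b (P a) =
      (if a = s then y a - y b else 0) + (if b = s then y b - y a else 0))
    {Ω : W →ₗ[ℝ] (W →ₗ[ℝ] ℝ)} (hΩ : Alt Ω) :
    (∀ a, (K a - Ω (P a)) (P a) = 0) ∧
    (∀ a b, Adj P a b → (K a - Ω (P a)) (P b) + (K b - Ω (P b)) (P a) =
      (if a = s then y a - y b else 0) + (if b = s then y b - y a else 0)) := by
  constructor
  · intro a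
    rw [LinearMap.sub_apply, hK0, hΩ, sub_zero]
  · intro a b hab
    have h1 := hK a b hab
    have h2 := hΩ.skew (P a) (P b)
    simp only [LinearMap.sub_apply]
    linarith

/-- Step 2 of the argument: a bad vertex is adjacent to all other vertices. -/
theorem bad_universal {P : V → W} {κ : W →ₗ[ℝ] ℝ} (hP : Poly P κ) (hm : NoMissing P)
    (hst : StarRigid P) {y : V → ℝ} {M : V → V → W →ₗ[ℝ] ℝ} (hD : Data P y M) (s : V)
    (hs : ¬ Good P y s) (x : V) : x ∈ nb P s := by
  classical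
  by_contra hx
  obtain ⟨⟨s, x₀⟩, hq, hmax⟩ := Finset.exists_max_image
    (univ.filter fun q : V × V => ¬ Good P y q.1 ∧ q.2 ∉ nb P q.1)
    (fun q => (univ.filter fun v => Conn P (nb P q.1)ᶜ q.2 v).card)
    ⟨(s, x), by simp only [Finset.mem_filter, Finset.mem_univ, true_and]; exact ⟨hs, hx⟩⟩
  simp only [Finset.mem_filter, Finset.mem_univ, true_and] at hq
  obtain ⟨hbad, hx₀⟩ := hq
  clear hs hx
  have hCout : ∀ c, Conn P (nb P s)ᶜ x₀ c → c ∉ nb P s := fun c hc => hc.mem hx₀
  have hsC : ¬ Conn P (nb P s)ᶜ x₀ s := fun h => hCout s h (self_mem_nb s)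
  have hsC' : ∀ c, Conn P (nb P s)ᶜ x₀ c → ¬ Adj P c s := fun c hc hcs =>
    hCout c hc (Or.inr hcs.symm)
  have hsep := sep_of_comp s hsC hsC'
  -- `T ⊆ nb s`
  have hT : ∀ v, ¬ Conn P (nb P s)ᶜ x₀ v → (∃ c, Conn P (nb P s)ᶜ x₀ c ∧ Adj P c v) →
      v ∈ nb P s := by
    rintro v hv ⟨c, hc, hcv⟩
    by_contra hvs
    exact hv (hc.trans (Conn.single hcv (hCout c hc) hvs))
  -- maximality
  have hbadZ : ∀ z, ¬ Good P y z → (¬ Conn P (nb P s)ᶜ x₀ z ∧
      ¬ ∃ c, Conn P (nb P s)ᶜ x₀ c ∧ Adj P c z) → ∀ t, ¬ Conn P (nb P s)ᶜ x₀ t →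
      (∃ c, Conn P (nb P s)ᶜ x₀ c ∧ Adj P c t) → t ∈ nb P z := by
    rintro z hz ⟨hz1, hz2⟩ t ht ⟨c, hc, hct⟩
    by_contra htz
    have hCz : ∀ c, Conn P (nb P s)ᶜ x₀ c → c ∈ (nb P z)ᶜ := by
      intro c hc hcz
      rcases hcz with rfl | hcz
      · exact hz1 hc
      · exact hz2 ⟨c, hc, hcz.symm⟩
    have hsub : ∀ v, Conn P (nb P s)ᶜ x₀ v → Conn P (nb P z)ᶜ x₀ v := by
      intro v hv
      exact hv.inside.mono fun x hx => hCz x hx
    have h1 := hmax (z, x₀) (by
      simp only [Finset.mem_filter, Finset.mem_univ, true_and]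
      exact ⟨hz, hCz x₀ Relation.ReflTransGen.refl⟩)
    have h2 : (univ.filter fun v => Conn P (nb P s)ᶜ x₀ v) ⊂
        (univ.filter fun v => Conn P (nb P z)ᶜ x₀ v) := by
      rw [Finset.ssubset_iff_of_subset]
      · refine ⟨t, ?_, ?_⟩
        · simp only [Finset.mem_filter, Finset.mem_univ, true_and]
          exact (hsub c hc).trans (Conn.single hct (hCz c hc) htz)
        · simpa only [Finset.mem_filter, Finset.mem_univ, true_and] using ht
      · intro v hv
        simp only [Finset.mem_filter, Finset.mem_univ, true_and] at hv ⊢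
        exact hsub v hv
    have h3 := Finset.card_lt_card h2
    simp only at h1
    omega
  -- the motion `M s` is rigid on `C ∪ T`
  obtain ⟨Ω, hΩ, hΩ0⟩ := rig_conn hP (K := M s) (X := {v | Conn P (nb P s)ᶜ x₀ v}) (x₀ := x₀)
    Relation.ReflTransGen.refl (fun x hx => Conn.inside hx) (fun c hc => hst c (M s)
      (fun a _ => hD.self s a) (fun a ha b hb hab => by
        have has : a ≠ s := by rintro rfl; exact hCout c hc (nb_symm ha)
        have hbs : b ≠ s := by rintro rfl; exact hCout c hc (nb_symm hb)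
        rw [hD.edge s a b hab, if_neg has, if_neg hbs, add_zero]))
  obtain ⟨hK0, hK⟩ := sub_iso (hD.self s) (hD.edge s) hΩ
  set K : V → W →ₗ[ℝ] ℝ := fun a => M s a - Ω (P a) with hKdef
  have hKT : ∀ v, (∃ c, Conn P (nb P s)ᶜ x₀ c ∧ Adj P c v) → K v = 0 := by
    rintro v ⟨c, hc, hcv⟩
    have := hΩ0 c hc v (Or.inr hcv)
    simp only [hKdef]
    rw [this]
    exact sub_self _
  -- bad vertices of `Z`
  have hKZ : ∀ z, ¬ Good P y z → (¬ Conn P (nb P s)ᶜ x₀ z ∧
      ¬ ∃ c, Conn P (nb P s)ᶜ x₀ c ∧ Adj P c z) → z ≠ s → K z = 0 := by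
    intro z hz hz1 hzs
    refine hsep.span_insert hP (z := z) ?_ ?_ (hK0 z)
    · intro t ht
      simp only [Finset.mem_filter, Finset.mem_univ, true_and] at ht
      have htz := hbadZ z hz hz1 t ht.1 ht.2
      rcases htz with rfl | htz
      · exact hK0 t
      · have h1 := hK z t htz
        have hts : t ≠ s := by
          rintro rfl
          obtain ⟨c, hc, hct⟩ := ht.2
          exact hsC' c hc hct
        rw [if_neg hzs, if_neg hts] at h1
        have h2 : K t = 0 := hKT t ht.2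
        have h3 : (K z) (P t) + (K t) (P z) = 0 + 0 := h1
        rw [h2] at h3
        simpa using h3
    · simp only [Finset.mem_filter, Finset.mem_univ, true_and]
      exact fun h => hz1.2 h.2
  refine hbad (good_of hP hK0 hK fun v hv => ?_)
  have hvs : v ≠ s := hv.1.symm
  show (K v) (P s) = 0
  suffices hKv : K v = 0 by rw [hKv]; simp
  by_cases hvT : ∃ c, Conn P (nb P s)ᶜ x₀ c ∧ Adj P c v
  · exact hKT v hvT
  have hvC : ¬ Conn P (nb P s)ᶜ x₀ v := fun h => hCout v h (Or.inr hv)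
  by_cases hvg : Good P y v
  swap
  · exact hKZ v hvg ⟨hvC, hvT⟩ hvs
  -- `v` is good; take its component among the good vertices of `Z`
  set G : Set V := {z | Good P y z ∧ ¬ Conn P (nb P s)ᶜ x₀ z ∧
    ¬ ∃ c, Conn P (nb P s)ᶜ x₀ c ∧ Adj P c z} with hG
  have hvG : v ∈ G := ⟨hvg, hvC, hvT⟩
  have hXG : ∀ x, Conn P G v x → x ∈ G := fun x hx => hx.mem hvG
  have hsep' := sep_of_comp (P := P) (X := G) (a := v) x₀
    (fun h => (hXG x₀ h).2.1 Relation.ReflTransGen.refl)
    (fun c hc hcx => (hXG c hc).2.2 ⟨x₀, Relation.ReflTransGen.refl, hcx.symm⟩)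
  obtain ⟨l, hl⟩ := aff_conn hP (y := y) (X := {x | Conn P G v x}) (x₀ := v)
    Relation.ReflTransGen.refl (fun x hx => Conn.inside hx) (fun x hx => (hXG x hx).1)
  obtain ⟨Ω₁, hΩ₁, hΩ₁0⟩ := modif_rigid hP hst (K := K) (s := s) hK0 hK
    (X := {x | Conn P G v x}) (x₀ := v) Relation.ReflTransGen.refl
    (fun x hx => Conn.inside hx) hl
  have hsT' : s ∈ (univ.filter fun x => ¬ Conn P G v x ∧ ∃ c, Conn P G v c ∧ Adj P c x) := by
    simp only [Finset.mem_filter, Finset.mem_univ, true_and]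
    exact ⟨fun h => hbad (hXG s h).1, v, Relation.ReflTransGen.refl, hv.symm⟩
  obtain ⟨g, hg⟩ := hsep'.near_span hP hm hsT'
  have hΩ₁z : Ω₁ = 0 := by
    refine hΩ₁.eq_zero_of_near (P := P) (S := {x | x ≠ s ∧ ¬ Conn P G v x ∧
      ∃ c, Conn P G v c ∧ Adj P c x}) (g := g) ?_ ?_
    · intro l hl
      refine hg l fun x hx hxs => ?_
      simp only [Finset.mem_filter, Finset.mem_univ, true_and] at hx
      exact hl x ⟨hxs, hx⟩
    · rintro x ⟨hxs, hx, c, hc, hcx⟩
      have h1 := hΩ₁0 c hc x (Or.inr hcx)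
      rw [modif, if_neg hxs] at h1
      rw [← h1]
      by_cases hxT : ∃ c, Conn P (nb P s)ᶜ x₀ c ∧ Adj P c x
      · exact hKT x hxT
      have hxC : ¬ Conn P (nb P s)ᶜ x₀ x := fun h => (hXG c hc).2.2 ⟨x, h, hcx.symm⟩
      refine hKZ x (fun hxg => ?_) ⟨hxC, hxT⟩ hxs
      exact hx (hc.trans (Conn.single hcx (hXG c hc) ⟨hxg, hxC, hxT⟩))
  have h1 := hΩ₁0 v Relation.ReflTransGen.refl v (self_mem_nb v)
  rw [modif, if_neg hvs, hΩ₁z] at h1
  simpa using h1

/-- The main statement about cone configurations. -/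
theorem affine_of_data {P : V → W} {κ : W →ₗ[ℝ] ℝ} (hP : Poly P κ) (hm : NoMissing P)
    (hst : StarRigid P) {y : V → ℝ} {M : V → V → W →ₗ[ℝ] ℝ} (hD : Data P y M) :
    ∃ l : W →ₗ[ℝ] ℝ, ∀ v, y v = l (P v) := by
  classical
  have huniv := bad_universal hP hm hst hD
  by_cases hall : ∀ s, Good P y s
  · by_cases hne : Nonempty V
    · obtain ⟨x₀⟩ := hne
      obtain ⟨l, hl⟩ := aff_conn hP (y := y) (X := Set.univ) (x₀ := x₀) (Set.mem_univ _)
        (fun x _ => (conn_upper hP κ (a := x₀) (b := x) (by rw [hP.one]; norm_num)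
          (by rw [hP.one]; norm_num)).mono fun x _ => Set.mem_univ x)
        (fun x _ => hall x)
      exact ⟨l, fun v => hl v (Set.mem_univ v) v (self_mem_nb v)⟩
    · exact ⟨0, fun v => absurd ⟨v⟩ hne⟩
  push Not at hall
  obtain ⟨s, hs⟩ := hall
  exfalso
  by_cases hex : ∃ x₁, Good P y x₁
  swap
  · -- complete graph
    push Not at hex
    have hadj : ∀ a b, a ≠ b → Adj P a b := by
      intro a b hab
      rcases huniv a (hex a) b with h | h
      · exact absurd h.symm hab
      · exact h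
    have hsp : Submodule.span ℝ (P '' {v | v ≠ s}) = ⊤ := by
      by_contra hne
      obtain ⟨f, hf, hle⟩ := Submodule.exists_le_ker_of_lt_top _ (lt_top_iff_ne_top.2 hne)
      refine hf (span_compl hP hm s (l := f) fun v hv => ?_)
      simpa using hle (Submodule.subset_span ⟨v, hv, rfl⟩)
    obtain ⟨Ω, hΩ, hΩ0⟩ := rig_complete (K := M s) hsp (fun a _ => hD.self s a)
      (fun a ha b hb hab => by
        rw [hD.edge s a b (hadj a b hab), if_neg ha, if_neg hb, add_zero])
    obtain ⟨hK0, hK⟩ := sub_iso (hD.self s) (hD.edge s) hΩ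
    refine hs (good_of hP hK0 hK fun v hv => ?_)
    rw [hΩ0 v hv.1.symm]
    simp
  obtain ⟨x₁, hx₁⟩ := hex
  -- components of the good vertices
  have hXG : ∀ x, Good P y x → ∀ z, Conn P {v | Good P y v} x z → Good P y z :=
    fun x hx z hz => hz.mem hx
  have haff : ∀ x, Good P y x → ∃ l : W →ₗ[ℝ] ℝ, (∀ z, Conn P {v | Good P y v} x z →
      ∀ v ∈ nb P z, y v = l (P v)) := by
    intro x hx
    exact aff_conn hP (y := y) (X := {z | Conn P {v | Good P y v} x z}) (x₀ := x)
      Relation.ReflTransGen.refl (fun z hz => Conn.inside hz) (fun z hz => hXG x hx z hz)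
  obtain ⟨l₁, hl₁⟩ := haff x₁ hx₁
  have hbadadj : ∀ z, ¬ Good P y z → ∀ x, Good P y x → Adj P x z := by
    intro z hz x hx
    rcases huniv z hz x with h | h
    · exact absurd (h ▸ hx) hz
    · exact h.symm
  -- everything is given by `l₁`
  have hfin : ∀ x, y x = l₁ (P x) := by
    intro x
    by_cases hx : Good P y x
    swap
    · exact hl₁ x₁ Relation.ReflTransGen.refl x (Or.inr (hbadadj x hx x₁ hx₁))
    by_cases hxX : Conn P {v | Good P y v} x₁ x
    · exact hl₁ x hxX x (self_mem_nb x)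
    obtain ⟨l₂, hl₂⟩ := haff x hx
    obtain ⟨Ω₁, hΩ₁, hΩ₁0⟩ := modif_rigid hP hst (K := M s) (s := s) (hD.self s) (hD.edge s)
      (X := {z | Conn P {v | Good P y v} x₁ z}) (x₀ := x₁) Relation.ReflTransGen.refl
      (fun z hz => Conn.inside hz) hl₁
    obtain ⟨Ω₂, hΩ₂, hΩ₂0⟩ := modif_rigid hP hst (K := M s) (s := s) (hD.self s) (hD.edge s)
      (X := {z | Conn P {v | Good P y v} x z}) (x₀ := x) Relation.ReflTransGen.refl
      (fun z hz => Conn.inside hz) hl₂
    have hsep := sep_of_comp (P := P) (X := {v | Good P y v}) (a := x₁) x hxX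
      (fun c hc hcx => hxX (hc.trans (Conn.single hcx (hXG x₁ hx₁ c hc) hx)))
    have hsT : s ∈ (univ.filter fun v => ¬ Conn P {v | Good P y v} x₁ v ∧
        ∃ c, Conn P {v | Good P y v} x₁ c ∧ Adj P c v) := by
      simp only [Finset.mem_filter, Finset.mem_univ, true_and]
      exact ⟨fun h => hs (hXG x₁ hx₁ s h), x₁, Relation.ReflTransGen.refl,
        hbadadj s hs x₁ hx₁⟩
    obtain ⟨g, hg⟩ := hsep.near_span hP hm hsT
    have hΩ : Ω₁ - Ω₂ = 0 := by
      refine (hΩ₁.sub hΩ₂).eq_zero_of_near (P := P) (S := {z | z ≠ s ∧ ¬ Good P y z})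
        (g := g) ?_ ?_
      · intro l hl
        refine hg l fun v hv hvs => ?_
        simp only [Finset.mem_filter, Finset.mem_univ, true_and] at hv
        refine hl v ⟨hvs, fun hvg => ?_⟩
        obtain ⟨h1, c, hc, hcv⟩ := hv
        exact h1 (hc.trans (Conn.single hcv (hXG x₁ hx₁ c hc) hvg))
      · rintro z ⟨hzs, hz⟩
        have h1 := hΩ₁0 x₁ Relation.ReflTransGen.refl z (Or.inr (hbadadj z hz x₁ hx₁))
        have h2 := hΩ₂0 x Relation.ReflTransGen.refl z (Or.inr (hbadadj z hz x hx))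
        rw [modif, if_neg hzs] at h1 h2
        rw [LinearMap.sub_apply, ← h1, ← h2, sub_self]
    have hΩe := eq_of_sub_eq_zero hΩ
    have h1 := hΩ₁0 x₁ Relation.ReflTransGen.refl s (Or.inr (hbadadj s hs x₁ hx₁))
    have h2 := hΩ₂0 x Relation.ReflTransGen.refl s (Or.inr (hbadadj s hs x hx))
    have hy1 := hl₁ x₁ Relation.ReflTransGen.refl s (Or.inr (hbadadj s hs x₁ hx₁))
    have hy2 := hl₂ x Relation.ReflTransGen.refl s (Or.inr (hbadadj s hs x hx))
    rw [modif, if_pos rfl] at h1 h2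
    rw [← hy1] at h1
    rw [← hy2, ← hΩe, ← h1] at h2
    have h3 := LinearMap.congr_fun h2 (P x)
    simp only [LinearMap.sub_apply, LinearMap.smul_apply, smul_eq_mul] at h3
    rw [hl₂ x Relation.ReflTransGen.refl x (self_mem_nb x)]
    linarith
  exact hs ⟨l₁, fun v _ => hfin v⟩

end Pool.Agent.Lib.MP_36627d_co
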