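import Pool.Agent.Lib.MP_36627d_co.Dehn2
import Pool.Agent.Lib.MP_36627d_co.Main

/-!
# Infinitesimal rigidity of vertex stars
-/

open Finset Module

namespace Pool.Agent.Lib.MP_36627d_co

open scoped Classical

variable {V W : Type*} [Fintype V] [AddCommGroup W] [Module ℝ W]

/-- Linear maps with prescribed values on a facet and one more vector. -/
theorem facet_constr {P : V → W} {κ : W →ₗ[ℝ] ℝ} (hP : Poly P κ) {F : Finset V}
    (hF : PFace P F) (hc : F.card = 4) {e : W} {φ : W →ₗ[ℝ] ℝ}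
    (hφ : ∀ v ∈ F, φ (P v) = 0) (hφe : φ e ≠ 0) {E : Type*} [AddCommGroup E] [Module ℝ E]
    (f : V → E) (t : E) : ∃ l : W →ₗ[ℝ] E, (∀ v ∈ F, l (P v) = f v) ∧ l e = t := by
  classical
  have hfin := hP.fin
  have hli := hP.simp F hF
  have hnot : e ∉ Submodule.span ℝ (Set.range (fun v : F => P v)) := by
    intro hmem
    apply hφe
    have : ∀ x ∈ Submodule.span ℝ (Set.range (fun v : F => P v)), φ x = 0 := by
      intro x hx
      induction hx using Submodule.span_induction with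
      | mem x hx => obtain ⟨v, rfl⟩ := hx; exact hφ v v.2
      | zero => simp
      | add x y _ _ hx hy => simp [hx, hy]
      | smul c x _ hx => simp [hx]
    exact this e hmem
  have hopt := linearIndependent_option'.2 ⟨hli, hnot⟩
  have hcard : Fintype.card (Option F) = finrank ℝ W := by
    rw [Fintype.card_option, Fintype.card_coe, hc, hP.dim]
  let b := basisOfLinearIndependentOfCardEqFinrank hopt hcard
  refine ⟨b.constr ℝ (fun o => Option.casesOn' o t (fun v : F => f v)), fun v hv => ?_, ?_⟩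
  · have h1 : b (some ⟨v, hv⟩) = P v := by
      simp [b]
    rw [← h1, Basis.constr_basis]
    rfl
  · have h1 : b none = e := by
      simp [b]
    rw [← h1, Basis.constr_basis]
    rfl

/-- every proper face extends to a facet -/
theorem PFace.exists_facet {P : V → W} {κ : W →ₗ[ℝ] ℝ} (hP : Poly P κ) {F : Finset V}
    (hF : PFace P F) : ∃ G, F ⊆ G ∧ PFace P G ∧ G.card = 4 := by
  classical
  have key : ∀ (k : ℕ) (F : Finset V), PFace P F → 4 - F.card = k →
      ∃ G, F ⊆ G ∧ PFace P G ∧ G.card = 4 := by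
    intro k
    induction k with
    | zero =>
      intro F hF hk
      have := hF.card_le hP
      exact ⟨F, Finset.Subset.refl _, hF, by omega⟩
    | succ k ih =>
      intro F hF hk
      obtain ⟨h, hne, hh⟩ := exists_kill hP (insert (ee P) (F.image P)) (by
        have h1 := Finset.card_insert_le (ee P) (F.image P)
        have h2 : (F.image P).card ≤ F.card := Finset.card_image_le
        omega)
      have he : h (ee P) = 0 := hh _ (Finset.mem_insert_self _ _)
      have h0 : ∀ v ∈ F, h (P v) = 0 := fun v hv =>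
        hh _ (Finset.mem_insert_of_mem (Finset.mem_image_of_mem P hv))
      have hsum : ∑ v, h (P v) = 0 := by rw [← map_sum]; exact he
      have hpos : ∃ v, 0 < h (P v) := by
        by_contra hcon
        push Not at hcon
        refine hne (hP.span h fun v => ?_)
        exact (Finset.sum_eq_zero_iff_of_nonpos (fun v _ => hcon v)).1 hsum v
          (Finset.mem_univ v)
      obtain ⟨x, hx, hxF⟩ := hF.extend hP (by omega) h0 hpos
      have hxn : x ∉ F := fun hxn => by rw [h0 x hxn] at hx; exact lt_irrefl _ hx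
      obtain ⟨G, hG, hG2⟩ := ih (insert x F) hxF (by
        rw [Finset.card_insert_of_notMem hxn]; omega)
      exact ⟨G, (Finset.subset_insert _ _).trans hG, hG2⟩
  exact key _ F hF rfl

theorem ridge_two {P : V → W} {κ : W →ₗ[ℝ] ℝ} (hP : Poly P κ) {R : Finset V}
    (hc : R.card = 3) {y y' z : V} (hy : y ∉ R) (hy' : y' ∉ R) (hz : z ∉ R) (hyy : y ≠ y')
    (hyF : PFace P (insert y R)) (hy'F : PFace P (insert y' R)) (hzF : PFace P (insert z R)) :
    z = y ∨ z = y' := by
  have hR : PFace P R := hyF.mono hP (Finset.subset_insert _ _)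
  obtain ⟨h, -, -, -, p, q, hp, hq, -, -, -, -, huniq⟩ := hR.ridge hP hc
  rcases huniq y hy hyF with rfl | rfl <;> rcases huniq y' hy' hy'F with rfl | rfl <;>
    rcases huniq z hz hzF with rfl | rfl <;> simp_all

omit [Fintype V] in
/-- facts about four-element sets `{u, a, b, x}` -/
theorem card4 {u a b x : V} (h : ({u, a, b, x} : Finset V).card = 4) :
    u ≠ a ∧ u ≠ b ∧ u ≠ x ∧ a ≠ b ∧ a ≠ x ∧ b ≠ x := by
  refine ⟨?_, ?_, ?_, ?_, ?_, ?_⟩ <;> rintro rfl
  · have h1 : ({u, u, b, x} : Finset V) = {u, b, x} := by simp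
    rw [h1] at h
    have := Finset.card_le_three (a := u) (b := b) (c := x)
    omega
  · have h1 : ({u, a, u, x} : Finset V) = {u, a, x} := by
      ext v; simp only [Finset.mem_insert, Finset.mem_singleton]; clear * - v; tauto
    rw [h1] at h
    have := Finset.card_le_three (a := u) (b := a) (c := x)
    omega
  · have h1 : ({u, a, b, u} : Finset V) = {u, a, b} := by
      ext v; simp only [Finset.mem_insert, Finset.mem_singleton]; clear * - v; tauto
    rw [h1] at h
    have := Finset.card_le_three (a := u) (b := a) (c := b)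
    omega
  · have h1 : ({u, a, a, x} : Finset V) = {u, a, x} := by
      ext v; simp only [Finset.mem_insert, Finset.mem_singleton]; clear * - v; tauto
    rw [h1] at h
    have := Finset.card_le_three (a := u) (b := a) (c := x)
    omega
  · have h1 : ({u, a, b, a} : Finset V) = {u, a, b} := by
      ext v; simp only [Finset.mem_insert, Finset.mem_singleton]; clear * - v; tauto
    rw [h1] at h
    have := Finset.card_le_three (a := u) (b := a) (c := b)
    omega
  · have h1 : ({u, a, b, b} : Finset V) = {u, a, b} := by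
      ext v; simp only [Finset.mem_insert, Finset.mem_singleton]; clear * - v; tauto
    rw [h1] at h
    have := Finset.card_le_three (a := u) (b := a) (c := b)
    omega

/-- existence of generic lines -/
theorem exists_cross {P : V → W} {κ : W →ₗ[ℝ] ℝ} (hP : Poly P κ) {u : V}
    {w : V → V → V → ℝ}
    (hw : ∀ a b x, w a b x ≠ 0 ↔ PFace P {u, a, b, x} ∧ ({u, a, b, x} : Finset V).card = 4)
    {a b₀ x₀ : V} (h₀ : w a b₀ x₀ ≠ 0) :
    ∃ s τ : W →ₗ[ℝ] ℝ, Cross P u (ee P) w a s τ := by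
  classical
  -- the submodule of functionals that kill `P u`, `P a`, `ee`
  let N : Submodule ℝ (W →ₗ[ℝ] ℝ) :=
    { carrier := {f | f (P u) = 0 ∧ f (P a) = 0 ∧ f (ee P) = 0}
      add_mem' := by
        rintro f g ⟨h1, h2, h3⟩ ⟨h4, h5, h6⟩
        exact ⟨by simp [h1, h4], by simp [h2, h5], by simp [h3, h6]⟩
      zero_mem' := ⟨rfl, rfl, rfl⟩
      smul_mem' := by
        rintro c f ⟨h1, h2, h3⟩
        exact ⟨by simp [h1], by simp [h2], by simp [h3]⟩ }
  let ev : {b : V // ∃ x, w a b x ≠ 0} → Dual ℝ (W →ₗ[ℝ] ℝ) := fun b =>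
    { toFun := fun f => f (P b)
      map_add' := fun f g => rfl
      map_smul' := fun c f => rfl }
  obtain ⟨s, hsN, hs⟩ := Module.Dual.exists_forall_mem_ne_zero_of_forall_exists N ev (by
    rintro ⟨b, x, hbx⟩
    obtain ⟨hF, hc⟩ := (hw a b x).1 hbx
    obtain ⟨φ, hφ0, hφ1, hφe⟩ := hF.support
    obtain ⟨l, hl, hle⟩ := facet_constr hP hF hc hφ0 (e := ee P) (by rw [hφe]; norm_num)
      (fun v => if v = b then (1 : ℝ) else 0) 0
    obtain ⟨c1, c2, c3, c4, c5, c6⟩ := card4 hc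
    refine ⟨l, ⟨?_, ?_, hle⟩, ?_⟩
    · rw [hl u (by simp), if_neg c2]
    · rw [hl a (by simp), if_neg c4]
    · show l (P b) ≠ 0
      rw [hl b (by simp), if_pos rfl]
      exact one_ne_zero)
  obtain ⟨hsu, hsa, hse⟩ := hsN
  have hs0 : s (P b₀) ≠ 0 := hs ⟨b₀, x₀, h₀⟩
  obtain ⟨τ, hτ0, hτ⟩ := exists_kill hP {P u, P a, ee P, P b₀} Finset.card_le_four
  have hτu : τ (P u) = 0 := hτ _ (by simp)
  have hτa : τ (P a) = 0 := hτ _ (by simp)
  have hτe : τ (ee P) = 0 := hτ _ (by simp)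
  have hτb : τ (P b₀) = 0 := hτ _ (by simp)
  have hτs : ∀ c : ℝ, τ ≠ c • s := by
    rintro c rfl
    rw [LinearMap.smul_apply, smul_eq_mul] at hτb
    rcases mul_eq_zero.1 hτb with h1 | h1
    · exact hτ0 (by rw [h1, zero_smul])
    · exact hs0 h1
  refine ⟨s, τ, ⟨hsu, hsa, hse, hτu, hτa, hτe, fun b x hbx => hs ⟨b, x, hbx⟩, ?_, ?_⟩⟩
  · intro b x hbx hb hx
    obtain ⟨hF, hc⟩ := (hw a b x).1 hbx
    exact crossing_ne hP (inner_ee P u) hsu hsa hse hτu hτa hτe hF hc hb.ne' hτs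
  · intro b x b' x' hbx hbx' hb hx hb' hx' hr
    obtain ⟨hF, hc⟩ := (hw a b x).1 hbx
    obtain ⟨hF', -⟩ := (hw a b' x').1 hbx'
    exact crossing hP (inner_ee P u) hsu hsa hse hτu hτa hτe hF hc hF' hb hx hb' hx' hr

/-- Functions that do not bend are linear. -/
theorem lin_of_bend {P : V → W} {κ : W →ₗ[ℝ] ℝ} (hP : Poly P κ) {u : V}
    {w : V → V → V → ℝ} {β δ γ : V → V → ℝ} (h : Web P u (ee P) w β δ γ)
    (hw : ∀ a b x, w a b x ≠ 0 ↔ PFace P {u, a, b, x} ∧ ({u, a, b, x} : Finset V).card = 4)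
    {E : Type*} [AddCommGroup E] [Module ℝ E] {f : V → E}
    (hf : ∀ a b, ∑ x, w a b x • f x = β a b • f a + β b a • f b) :
    ∃ Ω : W →ₗ[ℝ] E, Ω (P u) = 0 ∧ Ω (ee P) = 0 ∧ ∀ v, Adj P u v → Ω (P v) = f v := by
  classical
  obtain ⟨F₀, hF₀u, hF₀, hF₀c⟩ := (hP.vert u).exists_facet hP
  have huF₀ : u ∈ F₀ := hF₀u (Finset.mem_singleton_self u)
  obtain ⟨φ, hφ0, hφ1, hφe⟩ := hF₀.support
  obtain ⟨Ω, hΩ, hΩe⟩ := facet_constr hP hF₀ hF₀c hφ0 (e := ee P) (by rw [hφe]; norm_num)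
      (fun v => if v = u then (0 : E) else f v) 0
  have hΩu : Ω (P u) = 0 := by rw [hΩ u huF₀, if_pos rfl]
  refine ⟨Ω, hΩu, hΩe, fun v hv => ?_⟩
  obtain ⟨G₀, hG₀v, hG₀, hG₀c⟩ := hv.2.exists_facet hP
  have huG₀ : u ∈ G₀ := hG₀v (by simp)
  have hvG₀ : v ∈ G₀ := hG₀v (by simp)
  have key := star_induct hP (u := u) (R := fun G => ∀ v ∈ G, v ≠ u → Ω (P v) = f v) ?_
    hF₀ hF₀c huF₀ hG₀ hG₀c huG₀ (fun v hv hvu => by rw [hΩ v hv, if_neg hvu])
  · exact key v hvG₀ hv.1.symm
  -- the crossing step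
  intro G y y' hG hGc huG hyG hyu hy'G hG' hR
  have hRc : (G.erase y).card = 3 := by rw [Finset.card_erase_of_mem hyG, hGc]
  have huE : u ∈ G.erase y := Finset.mem_erase.2 ⟨hyu.symm, huG⟩
  have h2c : ((G.erase y).erase u).card = 2 := by
    rw [Finset.card_erase_of_mem huE, hRc]
  obtain ⟨a, b, hab, habE⟩ := Finset.card_eq_two.1 h2c
  have hRE : G.erase y = {u, a, b} := by
    rw [← Finset.insert_erase huE, habE]
  have hyR : y ∉ ({u, a, b} : Finset V) := by rw [← hRE]; simp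
  have hy'R : y' ∉ ({u, a, b} : Finset V) := by
    rw [← hRE]; exact fun h => hy'G (Finset.mem_of_mem_erase h)
  have hyy' : y ≠ y' := by rintro rfl; exact hy'G hyG
  have hGE : G = insert y {u, a, b} := by rw [← hRE, Finset.insert_erase hyG]
  have hins : ∀ z, ({u, a, b, z} : Finset V) = insert z {u, a, b} := by
    intro z
    ext v
    simp only [Finset.mem_insert, Finset.mem_singleton]
    clear * - v
    tauto
  have hau : a ≠ u := by
    have : a ∈ (G.erase y).erase u := by rw [habE]; simp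
    exact Finset.ne_of_mem_erase this
  have hbu : b ≠ u := by
    have : b ∈ (G.erase y).erase u := by rw [habE]; simp
    exact Finset.ne_of_mem_erase this
  have haG : a ∈ G := by rw [hGE]; simp
  have hbG : b ∈ G := by rw [hGE]; simp
  rw [hRE] at hG' hRc ⊢
  have hwy' : w a b y' ≠ 0 := (hw a b y').2 ⟨by rw [hins]; exact hG', by
    rw [hins, Finset.card_insert_of_notMem hy'R, hRc]⟩
  have hwz : ∀ z, z ≠ y → z ≠ y' → w a b z = 0 := by
    intro z hzy hzy'
    by_contra hne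
    obtain ⟨h1, h2⟩ := (hw a b z).1 hne
    have hzR : z ∉ ({u, a, b} : Finset V) := by
      intro hz
      rw [hins, Finset.insert_eq_of_mem hz, hRc] at h2
      omega
    rw [hins] at h1
    rw [hGE] at hG
    rcases ridge_two hP hRc hyR hy'R hzR hyy' hG hG' h1 with h3 | h3
    · exact hzy h3
    · exact hzy' h3
  have h1 := congrArg Ω (h.rel a b)
  simp only [map_sum, map_smul, map_add, hΩu, hΩe, smul_zero, add_zero] at h1
  rw [hR a haG hau, hR b hbG hbu, ← hf a b] at h1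
  have h2 : ∑ x, w a b x • (Ω (P x) - f x) = 0 := by
    simp only [smul_sub, Finset.sum_sub_distrib]
    rw [h1, sub_self]
  rw [Finset.sum_eq_single y'] at h2
  · have h3 : Ω (P y') - f y' = 0 := (smul_eq_zero.1 h2).resolve_left hwy'
    intro z hz hzu
    rw [Finset.mem_insert] at hz
    rcases hz with rfl | hz
    · exact sub_eq_zero.1 h3
    · refine hR z ?_ hzu
      rw [hGE]; exact Finset.mem_insert_of_mem hz
  · intro z _ hzy'
    by_cases hzy : z = y
    · rw [hzy, hR y hyG hyu, sub_self, smul_zero]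
    · rw [hwz z hzy hzy', zero_smul]
  · intro h; exact absurd (Finset.mem_univ _) h

/-- positivity of the coefficients -/
theorem delta_nonneg {P : V → W} {κ : W →ₗ[ℝ] ℝ} (hP : Poly P κ) {u : V}
    {w : V → V → V → ℝ} {β δ γ : V → V → ℝ} (h : Web P u (ee P) w β δ γ)
    (hw : ∀ a b x, w a b x ≠ 0 ↔ PFace P {u, a, b, x} ∧ ({u, a, b, x} : Finset V).card = 4)
    (a b : V) : 0 ≤ δ a b ∧ ∀ x, w a b x ≠ 0 → 0 < δ a b := by
  by_cases hz : ∀ x, w a b x = 0
  · rw [(h.zero a b hz).2.1]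
    exact ⟨le_refl _, fun x hx => absurd (hz x) hx⟩
  · push Not at hz
    obtain ⟨x, hx⟩ := hz
    obtain ⟨hF, hc⟩ := (hw a b x).1 hx
    obtain ⟨c1, c2, c3, c4, c5, c6⟩ := card4 hc
    have hF' : PFace P {u, a, b} := hF.mono hP (fun v hv => by
      simp only [Finset.mem_insert, Finset.mem_singleton] at hv ⊢
      clear * - hv
      tauto)
    obtain ⟨φ, hφ0, hφ1, hφe⟩ := hF'.support
    have h1 := h.relf a b (f := φ) (hφ0 u (by simp))
    rw [hφ0 a (by simp), hφ0 b (by simp), hφe] at h1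
    have hle : ∀ v, φ (P v) ≤ 0 := fun v => by
      by_cases hv : v ∈ ({u, a, b} : Finset V)
      · rw [hφ0 v hv]
      · exact (hφ1 v hv).le
    have hneg : ∑ x, w a b x * φ (P x) < 0 := by
      refine Finset.sum_neg' (fun v _ => mul_nonpos_of_nonneg_of_nonpos (h.nonneg a b v)
        (hle v)) ⟨x, Finset.mem_univ _, ?_⟩
      refine mul_neg_of_pos_of_neg (lt_of_le_of_ne (h.nonneg a b x) hx.symm) (hφ1 x ?_)
      simp only [Finset.mem_insert, Finset.mem_singleton]
      push Not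
      exact ⟨c3.symm, c5.symm, c6.symm⟩
    have hpos : 0 < δ a b := by linarith
    exact ⟨hpos.le, fun _ _ => hpos⟩

theorem eps_pos {P : V → W} {κ : W →ₗ[ℝ] ℝ} (hP : Poly P κ) {u : V}
    {w : V → V → V → ℝ} {β δ γ : V → V → ℝ} (h : Web P u (ee P) w β δ γ)
    (hw : ∀ a b x, w a b x ≠ 0 ↔ PFace P {u, a, b, x} ∧ ({u, a, b, x} : Finset V).card = 4)
    {ξ κ' ε : V → ℝ} (hc : Coef P u (ee P) β δ ξ κ' ε) {a b x : V} (hbx : w a b x ≠ 0) :
    0 < ε a := by
  obtain ⟨hF, hcc⟩ := (hw a b x).1 hbx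
  obtain ⟨c1, c2, c3, c4, c5, c6⟩ := card4 hcc
  have hF' : PFace P {u, a} := hF.mono hP (fun v hv => by
    simp only [Finset.mem_insert, Finset.mem_singleton] at hv ⊢
    clear * - hv
    tauto)
  obtain ⟨φ, hφ0, hφ1, hφe⟩ := hF'.support
  have h1 := hc.D a φ (hφ0 u (by simp))
  rw [hφ0 a (by simp), hφe] at h1
  have hle : ∀ v, φ (P v) ≤ 0 := fun v => by
    by_cases hv : v ∈ ({u, a} : Finset V)
    · rw [hφ0 v hv]
    · exact (hφ1 v hv).le
  have hneg : ∑ x, δ a x * φ (P x) < 0 := by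
    refine Finset.sum_neg' (fun v _ => mul_nonpos_of_nonneg_of_nonpos
      (delta_nonneg hP h hw a v).1 (hle v)) ⟨b, Finset.mem_univ _, ?_⟩
    refine mul_neg_of_pos_of_neg ((delta_nonneg hP h hw a b).2 x hbx) (hφ1 b ?_)
    simp only [Finset.mem_insert, Finset.mem_singleton]
    push Not
    exact ⟨c2.symm, c4.symm⟩
  linarith

/-- The functions `z a = m a (e)` of an infinitesimal motion do not bend. -/
theorem bend_zero {P : V → W} {κ : W →ₗ[ℝ] ℝ} (hP : Poly P κ) {u : V}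
    {w : V → V → V → ℝ} {β δ γ : V → V → ℝ} (h : Web P u (ee P) w β δ γ)
    (hw : ∀ a b x, w a b x ≠ 0 ↔ PFace P {u, a, b, x} ∧ ({u, a, b, x} : Finset V).card = 4)
    {m : V → W →ₗ[ℝ] ℝ} (hmu : ∀ a, m a (P u) = 0) (hma : ∀ a, m a (P a) = 0)
    (hmb : ∀ a b x, w a b x ≠ 0 → m a (P b) + m b (P a) = 0) (a b : V) :
    bend w β a b (fun v => m v (ee P)) = 0 := by
  classical
  have hdual : ∀ a b x, w a b x ≠ 0 →
      (∃ f : W →ₗ[ℝ] ℝ, f (P u) = 0 ∧ f (P a) = 1 ∧ f (ee P) = 0) ∧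
      ∃ g : W →ₗ[ℝ] ℝ, g (P u) = 0 ∧ g (P a) = 0 ∧ g (ee P) = 1 := by
    intro a b x hbx
    obtain ⟨hF, hcc⟩ := (hw a b x).1 hbx
    obtain ⟨c1, c2, c3, c4, c5, c6⟩ := card4 hcc
    obtain ⟨φ, hφ0, hφ1, hφe⟩ := hF.support
    obtain ⟨f, hf, hfe⟩ := facet_constr hP hF hcc hφ0 (e := ee P) (by rw [hφe]; norm_num)
      (fun v => if v = a then (1 : ℝ) else 0) 0
    obtain ⟨g, hg, hge⟩ := facet_constr hP hF hcc hφ0 (e := ee P) (by rw [hφe]; norm_num)
      (fun _ => (0 : ℝ)) 1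
    refine ⟨⟨f, ?_, ?_, hfe⟩, ⟨g, hg u (by simp), hg a (by simp), hge⟩⟩
    · rw [hf u (by simp), if_neg c1]
    · rw [hf a (by simp), if_pos rfl]
  obtain ⟨ξ, κ', ε, hc, hξ⟩ := exists_coef h hdual
  set z : V → ℝ := fun v => m v (ee P) with hz
  have hzeq : ∀ a, ∑ b, δ a b * z b - κ' a * z a = 0 :=
    fun a => motion_eq h hc hmu hma hmb a
  obtain ⟨φ, hφ0, hφ1, hφe⟩ := (hP.vert u).support
  set c : W →ₗ[ℝ] ℝ := -φ with hcdef
  have hcu : c (P u) = 0 := by rw [hcdef, LinearMap.neg_apply, hφ0 u (by simp), neg_zero]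
  have hce : c (ee P) = 1 := by rw [hcdef, LinearMap.neg_apply, hφe, neg_neg]
  have hcpos : ∀ v, v ≠ u → 0 < c (P v) := by
    intro v hv
    rw [hcdef, LinearMap.neg_apply]
    have := hφ1 v (by simpa using hv)
    linarith
  have hlocal : ∀ a b x, w a b x ≠ 0 → QQ w β ξ a z z ≤ 0 ∧
      (QQ w β ξ a z z = 0 → ∀ b, bend w β a b z = 0) := by
    intro a b x hbx
    obtain ⟨s, τ, hC⟩ := exists_cross hP hw hbx
    obtain ⟨⟨l, hl1, hl2, hl3⟩, -⟩ := hdual a b x hbx
    exact local_prim h hc hC hl1 hl2 hl3 hcu (by rw [hce]; exact one_ne_zero)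
      (eps_pos hP h hw hc hbx) (hzeq a)
  have hzero : ∀ a, (∀ b x, w a b x = 0) → QQ w β ξ a z z = 0 := by
    intro a ha
    unfold QQ
    have h1 : ∀ b, β b a = 0 := fun b =>
      (h.zero b a (fun x => by rw [h.s12 b a x]; exact ha b x)).1
    have h2 : ∀ b, β a b = 0 := fun b => (h.zero a b (ha b)).1
    simp [ha, h1, h2, hξ a ha]
  have hQle : ∀ a, QQ w β ξ a z z ≤ 0 := by
    intro a
    by_cases ha : ∀ b x, w a b x = 0
    · rw [hzero a ha]
    · push Not at ha
      obtain ⟨b, x, hbx⟩ := ha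
      exact (hlocal a b x hbx).1
  have hcnn : ∀ v, 0 ≤ c (P v) := by
    intro v
    by_cases hv : v = u
    · rw [hv, hcu]
    · exact (hcpos v hv).le
  have hglob := QQ_global h hc hcu z
  have hrhs : c (ee P) * ∑ b, z b * (∑ a, δ b a * z a - κ' b * z b) = 0 := by
    rw [Finset.sum_eq_zero, mul_zero]
    intro b _
    rw [hzeq b, mul_zero]
  rw [hrhs] at hglob
  have hterm := (Finset.sum_eq_zero_iff_of_nonpos (fun a _ =>
    mul_nonpos_of_nonneg_of_nonpos (hcnn a) (hQle a))).1 hglob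
  by_cases ha : ∀ b x, w a b x = 0
  · unfold bend
    have h1 : ∀ b, β b a = 0 := fun b =>
      (h.zero b a (fun x => by rw [h.s12 b a x]; exact ha b x)).1
    have h2 : ∀ b, β a b = 0 := fun b => (h.zero a b (ha b)).1
    simp [ha, h1, h2]
  · push Not at ha
    obtain ⟨b', x', hbx'⟩ := ha
    obtain ⟨hF, hcc⟩ := (hw a b' x').1 hbx'
    obtain ⟨c1, c2, c3, c4, c5, c6⟩ := card4 hcc
    have h1 := hterm a (Finset.mem_univ a)
    have h2 : QQ w β ξ a z z = 0 :=
      (mul_eq_zero.1 h1).resolve_left (hcpos a c1.symm).ne'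
    exact (hlocal a b' x' hbx').2 h2 b

end Pool.Agent.Lib.MP_36627d_co
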