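import Pool.Agent.Lib.MP_36627d_co.Star

/-!
# Infinitesimal rigidity of vertex stars, conclusion
-/

open Finset Module

namespace Pool.Agent.Lib.MP_36627d_co

open scoped Classical

variable {V W : Type*} [Fintype V] [AddCommGroup W] [Module ℝ W]

/-- The last step: motions that kill `P u` and `ee P` are linear. -/
theorem motion_linear {P : V → W} {κ : W →ₗ[ℝ] ℝ} (hP : Poly P κ) {u : V}
    {w : V → V → V → ℝ} {β δ γ : V → V → ℝ} (h : Web P u (ee P) w β δ γ)
    (hw : ∀ a b x, w a b x ≠ 0 ↔ PFace P {u, a, b, x} ∧ ({u, a, b, x} : Finset V).card = 4)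
    {m : V → W →ₗ[ℝ] ℝ} (hmu : ∀ a, m a (P u) = 0) (hma : ∀ a, m a (P a) = 0)
    (hmb : ∀ a b x, w a b x ≠ 0 → m a (P b) + m b (P a) = 0) (hme : ∀ a, m a (ee P) = 0)
    (a b : V) : ∑ x, w a b x • m x = β a b • m a + β b a • m b := by
  classical
  by_cases hz : ∀ x, w a b x = 0
  · have h1 : β a b = 0 := (h.zero a b hz).1
    have h2 : β b a = 0 := (h.zero b a (fun x => by rw [h.s12 b a x]; exact hz x)).1
    simp [hz, h1, h2]
  push Not at hz
  obtain ⟨x, hx⟩ := hz
  obtain ⟨hF, hc⟩ := (hw a b x).1 hx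
  obtain ⟨c1, c2, c3, c4, c5, c6⟩ := card4 hc
  have hw' : ∀ a b x, w a b x = w b x a := fun a b x => by rw [h.s12 a b x, h.s23 b a x]
  -- the ridge `{u, a, b}`
  have hins : ∀ z, ({u, a, b, z} : Finset V) = insert z {u, a, b} := by
    intro z
    ext v
    simp only [Finset.mem_insert, Finset.mem_singleton]
    clear * - v
    tauto
  have hR : PFace P {u, a, b} := hF.mono hP (fun v hv => by
      simp only [Finset.mem_insert, Finset.mem_singleton] at hv ⊢
      clear * - hv
      tauto)
  have hRc : ({u, a, b} : Finset V).card = 3 := by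
    rw [Finset.card_eq_three]
    exact ⟨u, a, b, c1, c2, c4, rfl⟩
  obtain ⟨hfun, -, -, -, p, q, hp, hq, hhp, hhq, hpF, hqF, huniq⟩ := hR.ridge hP hRc
  have hpq : p ≠ q := by
    rintro rfl
    linarith
  have hwp : w a b p ≠ 0 := (hw a b p).2 ⟨by rw [hins]; exact hpF, by
    rw [hins, Finset.card_insert_of_notMem hp, hRc]⟩
  have hwq : w a b q ≠ 0 := (hw a b q).2 ⟨by rw [hins]; exact hqF, by
    rw [hins, Finset.card_insert_of_notMem hq, hRc]⟩
  have hwz : ∀ z, z ≠ p → z ≠ q → w a b z = 0 := by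
    intro z hzp hzq
    by_contra hne
    obtain ⟨h1, h2⟩ := (hw a b z).1 hne
    have hzR : z ∉ ({u, a, b} : Finset V) := by
      intro hz
      rw [hins, Finset.insert_eq_of_mem hz, hRc] at h2
      omega
    rw [hins] at h1
    rcases huniq z hzR h1 with h3 | h3
    · exact hzp h3
    · exact hzq h3
  have hsum : ∀ {E : Type _} [AddCommGroup E] [Module ℝ E] (F : V → E),
      ∑ z, w a b z • F z = w a b p • F p + w a b q • F q := by
    intro E _ _ F
    rw [← Finset.sum_pair (f := fun z => w a b z • F z) hpq]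
    symm
    apply Finset.sum_subset (Finset.subset_univ _)
    intro z _ hz
    simp only [Finset.mem_insert, Finset.mem_singleton] at hz
    push Not at hz
    rw [hwz z hz.1 hz.2, zero_smul]
  -- `μ` is the difference
  set μ : W →ₗ[ℝ] ℝ := w a b p • m p + w a b q • m q - (β a b • m a + β b a • m b) with hμ
  have hμv : ∀ y, μ y = w a b p * m p y + w a b q * m q y - (β a b * m a y + β b a * m b y) :=
    fun y => rfl
  have hrel := h.rel a b
  rw [hsum P] at hrel
  have hmrel : ∀ c, w a b p * m c (P p) + w a b q * m c (P q) =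
      β a b * m c (P a) + β b a * m c (P b) := by
    intro c
    have h1 := congrArg (m c) hrel
    simp only [map_smul, map_add, smul_eq_mul, hmu, hme, mul_zero, add_zero] at h1
    exact h1
  have eab : m a (P b) + m b (P a) = 0 := hmb a b x hx
  have eap : m a (P p) + m p (P a) = 0 := hmb a p b (by rw [← h.s23 a b p]; exact hwp)
  have eaq : m a (P q) + m q (P a) = 0 := hmb a q b (by rw [← h.s23 a b q]; exact hwq)
  have ebp : m b (P p) + m p (P b) = 0 := hmb b p a (by rw [← hw']; exact hwp)
  have ebq : m b (P q) + m q (P b) = 0 := hmb b q a (by rw [← hw']; exact hwq)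
  have hμa : μ (P a) = 0 := by
    rw [hμv]
    have h1 := hmrel a
    rw [hma a] at h1
    have h2 : m p (P a) = - m a (P p) := by linarith
    have h3 : m q (P a) = - m a (P q) := by linarith
    have h4 : m b (P a) = - m a (P b) := by linarith
    rw [h2, h3, h4, hma a]
    linear_combination -h1
  have hμb : μ (P b) = 0 := by
    rw [hμv]
    have h1 := hmrel b
    rw [hma b] at h1
    have h2 : m p (P b) = - m b (P p) := by linarith
    have h3 : m q (P b) = - m b (P q) := by linarith
    have h4 : m a (P b) = - m b (P a) := by linarith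
    rw [h2, h3, h4, hma b]
    linear_combination -h1
  have hμu : μ (P u) = 0 := by
    rw [hμv]
    simp [hmu]
  have hμe : μ (ee P) = 0 := by
    rw [hμv]
    simp [hme]
  have hμp : μ (P p) = w a b q * (m q (P p) + m p (P q)) := by
    rw [hμv]
    have h1 := hmrel p
    rw [hma p] at h1
    have h2 : m a (P p) = - m p (P a) := by linarith
    have h3 : m b (P p) = - m p (P b) := by linarith
    rw [h2, h3, hma p]
    linear_combination -h1
  have hμq : μ (P q) = w a b p * (m q (P p) + m p (P q)) := by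
    rw [hμv]
    have h1 := hmrel q
    rw [hma q] at h1
    have h2 : m a (P q) = - m q (P a) := by linarith
    have h3 : m b (P q) = - m q (P b) := by linarith
    rw [h2, h3, hma q]
    linear_combination -h1
  have hμs := congrArg μ hrel
  simp only [map_smul, map_add, smul_eq_mul, hμu, hμe, hμa, hμb, mul_zero, add_zero] at hμs
  have hθ : m q (P p) + m p (P q) = 0 := by
    rw [hμp, hμq] at hμs
    have h1 : (2 * (w a b p * w a b q)) * (m q (P p) + m p (P q)) = 0 := by
      linear_combination hμs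
    exact (mul_eq_zero.1 h1).resolve_left (mul_ne_zero two_ne_zero (mul_ne_zero hwp hwq))
  have hμp0 : μ (P p) = 0 := by rw [hμp, hθ, mul_zero]
  have hμ0 : μ = 0 := by
    obtain ⟨φ, hφ0, hφ1, hφe⟩ := hpF.support
    refine facet_ext hP hpF (by rw [Finset.card_insert_of_notMem hp, hRc]) hφ0 (e := ee P)
      (by rw [hφe]; norm_num) (fun v hv => ?_) (by rw [hμe]; rfl)
    simp only [Finset.mem_insert, Finset.mem_singleton] at hv
    rcases hv with rfl | rfl | rfl | rfl
    · rw [hμp0]; rfl
    · rw [hμu]; rfl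
    · rw [hμa]; rfl
    · rw [hμb]; rfl
  rw [hsum m]
  apply LinearMap.ext
  intro y
  have := LinearMap.congr_fun hμ0 y
  rw [hμv] at this
  simp only [LinearMap.add_apply, LinearMap.smul_apply, smul_eq_mul]
  simp only [LinearMap.zero_apply] at this
  linarith

/-- Vertex stars of simplicial 4-polytopes are infinitesimally rigid. -/
theorem star_rigid' {P : V → W} {κ : W →ₗ[ℝ] ℝ} (hP : Poly P κ) (u : V)
    (K : V → W →ₗ[ℝ] ℝ) (hK0 : ∀ a ∈ nb P u, K a (P a) = 0)
    (hKu' : ∀ a, Adj P u a → K u (P a) + K a (P u) = 0)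
    (hK1 : ∀ a b, Adj P u a → Adj P u b → a ≠ b → PFace P {u, a, b} →
      K a (P b) + K b (P a) = 0) : Rig P K (nb P u) := by
  classical
  obtain ⟨w, β, δ, γ, h, hw⟩ := exists_web hP u
  have hadj : ∀ a b x, w a b x ≠ 0 → Adj P u a ∧ Adj P u b ∧ a ≠ b ∧ PFace P {u, a, b} := by
    intro a b x hx
    obtain ⟨hF, hc⟩ := (hw a b x).1 hx
    obtain ⟨c1, c2, c3, c4, c5, c6⟩ := card4 hc
    refine ⟨⟨c1, hF.mono hP ?_⟩, ⟨c2, hF.mono hP ?_⟩, c4, hF.mono hP ?_⟩ <;>
    · intro v hv
      simp only [Finset.mem_insert, Finset.mem_singleton] at hv ⊢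
      clear * - hv
      tauto
  -- first correction
  set Ω₀ : W →ₗ[ℝ] (W →ₗ[ℝ] ℝ) := κ.smulRight (K u) - (K u).smulRight κ with hΩ₀
  have hΩ₀v : ∀ x y, Ω₀ x y = κ x * K u y - K u x * κ y := fun x y => rfl
  have hΩ₀a : Alt Ω₀ := fun x => by rw [hΩ₀v]; ring
  set m : V → W →ₗ[ℝ] ℝ := fun a => if Adj P u a then K a - Ω₀ (P a) else 0 with hm
  have hm1 : ∀ a, Adj P u a → m a = K a - Ω₀ (P a) := fun a ha => if_pos ha
  have hm2 : ∀ a, ¬ Adj P u a → m a = 0 := fun a ha => if_neg ha
  have hKu : K u (P u) = 0 := hK0 u (self_mem_nb u)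
  have hmu : ∀ a, m a (P u) = 0 := by
    intro a
    by_cases ha : Adj P u a
    · rw [hm1 a ha, LinearMap.sub_apply, hΩ₀v, hP.one, hP.one, hKu]
      have := hKu' a ha
      linarith
    · rw [hm2 a ha]; rfl
  have hma : ∀ a, m a (P a) = 0 := by
    intro a
    by_cases ha : Adj P u a
    · rw [hm1 a ha, LinearMap.sub_apply, hΩ₀a, hK0 a (Or.inr ha), sub_zero]
    · rw [hm2 a ha]; rfl
  have hmb : ∀ a b x, w a b x ≠ 0 → m a (P b) + m b (P a) = 0 := by
    intro a b x hx
    obtain ⟨h1, h2, h3, h3'⟩ := hadj a b x hx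
    rw [hm1 a h1, hm1 b h2, LinearMap.sub_apply (K a), LinearMap.sub_apply (K b)]
    have h4 := hK1 a b h1 h2 h3 h3'
    have h5 := hΩ₀a.skew (P a) (P b)
    linarith
  have hbend := bend_zero hP h hw hmu hma hmb
  obtain ⟨φ, hφu, hφe, hφv⟩ := lin_of_bend hP h hw (f := fun v => m v (ee P)) (fun a b => by
    have := hbend a b
    unfold bend at this
    simp only [smul_eq_mul]
    linarith)
  -- second correction
  obtain ⟨ψ, hψ0, hψ1, hψe⟩ := (hP.vert u).support
  have hψu : ψ (P u) = 0 := hψ0 u (by simp)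
  set Ω₁ : W →ₗ[ℝ] (W →ₗ[ℝ] ℝ) := ψ.smulRight φ - φ.smulRight ψ with hΩ₁
  have hΩ₁v : ∀ x y, Ω₁ x y = ψ x * φ y - φ x * ψ y := fun x y => rfl
  have hΩ₁a : Alt Ω₁ := fun x => by rw [hΩ₁v]; ring
  set m' : V → W →ₗ[ℝ] ℝ := fun a => if Adj P u a then m a - Ω₁ (P a) else 0 with hm'
  have hm'1 : ∀ a, Adj P u a → m' a = m a - Ω₁ (P a) := fun a ha => if_pos ha
  have hm'2 : ∀ a, ¬ Adj P u a → m' a = 0 := fun a ha => if_neg ha
  have hm'u : ∀ a, m' a (P u) = 0 := by
    intro a
    by_cases ha : Adj P u a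
    · rw [hm'1 a ha, LinearMap.sub_apply, hΩ₁v, hmu, hψu, hφu]
      ring
    · rw [hm'2 a ha]; rfl
  have hm'a : ∀ a, m' a (P a) = 0 := by
    intro a
    by_cases ha : Adj P u a
    · rw [hm'1 a ha, LinearMap.sub_apply, hΩ₁a, hma, sub_zero]
    · rw [hm'2 a ha]; rfl
  have hm'b : ∀ a b x, w a b x ≠ 0 → m' a (P b) + m' b (P a) = 0 := by
    intro a b x hx
    obtain ⟨h1, h2, h3, h3'⟩ := hadj a b x hx
    rw [hm'1 a h1, hm'1 b h2, LinearMap.sub_apply (m a), LinearMap.sub_apply (m b)]
    have h4 := hmb a b x hx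
    have h5 := hΩ₁a.skew (P a) (P b)
    linarith
  have hm'e : ∀ a, m' a (ee P) = 0 := by
    intro a
    by_cases ha : Adj P u a
    · rw [hm'1 a ha, LinearMap.sub_apply, hΩ₁v, hψe, hφe, hφv a ha]
      ring
    · rw [hm'2 a ha]; rfl
  obtain ⟨Ω₂, hΩ₂u, hΩ₂e, hΩ₂v⟩ := lin_of_bend hP h hw (f := m')
    (motion_linear hP h hw hm'u hm'a hm'b hm'e)
  -- `Ω₂` is alternating
  obtain ⟨F₀, hF₀u, hF₀, hF₀c⟩ := (hP.vert u).exists_facet hP
  have huF₀ : u ∈ F₀ := hF₀u (Finset.mem_singleton_self u)
  have hadjF : ∀ v ∈ F₀, v ≠ u → Adj P u v := fun v hv hvu => ⟨hvu.symm, hF₀.mono hP (by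
    intro x hx
    simp only [Finset.mem_insert, Finset.mem_singleton] at hx
    rcases hx with rfl | rfl
    · exact huF₀
    · exact hv)⟩
  obtain ⟨χ, hχ0, hχ1, hχe⟩ := hF₀.support
  have hχe' : χ (ee P) ≠ 0 := by rw [hχe]; norm_num
  -- first for vectors of the basis
  have hS1 : ∀ v ∈ F₀, ∀ y, Ω₂ (P v) y + Ω₂ y (P v) = 0 := by
    intro v hv
    have hfun : (Ω₂ (P v) + (Ω₂.flip (P v))) = 0 := by
      refine facet_ext hP hF₀ hF₀c hχ0 hχe' (fun x hx => ?_) ?_
      · rw [LinearMap.add_apply, LinearMap.flip_apply, LinearMap.zero_apply]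
        by_cases hvu : v = u
        · rw [hvu, hΩ₂u, LinearMap.zero_apply, zero_add]
          by_cases hxu : x = u
          · rw [hxu, hΩ₂u]; rfl
          · rw [hΩ₂v x (hadjF x hx hxu), hm'u]
        · rw [hΩ₂v v (hadjF v hv hvu)]
          by_cases hxu : x = u
          · rw [hxu, hΩ₂u, hm'u]; simp
          · rw [hΩ₂v x (hadjF x hx hxu)]
            by_cases hxv : x = v
            · rw [hxv, hm'a]; ring
            · -- find a fourth vertex of the facet
              have h2 : ((F₀.erase u).erase v).erase x ≠ ∅ := by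
                intro hcon
                have h3 := Finset.card_erase_of_mem huF₀
                have h4 := Finset.card_erase_of_mem (Finset.mem_erase.2 ⟨hvu, hv⟩)
                have h5 := Finset.card_erase_of_mem (Finset.mem_erase.2
                  ⟨hxv, Finset.mem_erase.2 ⟨hxu, hx⟩⟩)
                rw [hcon, Finset.card_empty] at h5
                omega
              obtain ⟨t, ht⟩ := Finset.nonempty_iff_ne_empty.2 h2
              simp only [Finset.mem_erase] at ht
              obtain ⟨htx, htv, htu, htF⟩ := ht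
              refine hm'b v x t ((hw v x t).2 ?_)
              have hsub : ({u, v, x, t} : Finset V) ⊆ F₀ := by
                intro z hz
                simp only [Finset.mem_insert, Finset.mem_singleton] at hz
                rcases hz with rfl | rfl | rfl | rfl <;> assumption
              refine ⟨hF₀.mono hP hsub, ?_⟩
              rw [Finset.card_insert_of_notMem, Finset.card_insert_of_notMem,
                Finset.card_insert_of_notMem, Finset.card_singleton]
              · simpa using htx.symm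
              · simp only [Finset.mem_insert, Finset.mem_singleton]
                push Not
                exact ⟨fun h => hxv h.symm, htv.symm⟩
              · simp only [Finset.mem_insert, Finset.mem_singleton]
                push Not
                exact ⟨fun h => hvu h.symm, fun h => hxu h.symm, htu.symm⟩
      · rw [LinearMap.add_apply, LinearMap.flip_apply, LinearMap.zero_apply, hΩ₂e,
          LinearMap.zero_apply, add_zero]
        by_cases hvu : v = u
        · rw [hvu, hΩ₂u]; rfl
        · rw [hΩ₂v v (hadjF v hv hvu), hm'e]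
    intro y
    have := LinearMap.congr_fun hfun y
    rw [LinearMap.add_apply, LinearMap.flip_apply, LinearMap.zero_apply] at this
    exact this
  have hS2 : ∀ y, Ω₂ y (ee P) = 0 := by
    intro y
    have hfun : Ω₂.flip (ee P) = 0 := by
      refine facet_ext hP hF₀ hF₀c hχ0 hχe' (fun x hx => ?_) ?_
      · rw [LinearMap.flip_apply, LinearMap.zero_apply]
        by_cases hxu : x = u
        · rw [hxu, hΩ₂u]; rfl
        · rw [hΩ₂v x (hadjF x hx hxu), hm'e]
      · rw [LinearMap.flip_apply, LinearMap.zero_apply, hΩ₂e]; rfl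
    have := LinearMap.congr_fun hfun y
    rw [LinearMap.flip_apply, LinearMap.zero_apply] at this
    exact this
  have hS3 : ∀ x y, Ω₂ x y + Ω₂ y x = 0 := by
    intro x y
    have hfun : Ω₂ x + Ω₂.flip x = 0 := by
      refine facet_ext hP hF₀ hF₀c hχ0 hχe' (fun v hv => ?_) ?_
      · rw [LinearMap.add_apply, LinearMap.flip_apply, LinearMap.zero_apply]
        have := hS1 v hv x
        linarith
      · rw [LinearMap.add_apply, LinearMap.flip_apply, LinearMap.zero_apply, hS2, hΩ₂e]
        simp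
    have := LinearMap.congr_fun hfun y
    rw [LinearMap.add_apply, LinearMap.flip_apply, LinearMap.zero_apply] at this
    exact this
  refine ⟨Ω₀ + Ω₁ + Ω₂, fun x => ?_, fun v hv => ?_⟩
  · have h1 := hS3 x x
    simp only [LinearMap.add_apply, hΩ₀a x, hΩ₁a x]
    linarith
  · rcases hv with rfl | hv
    · apply LinearMap.ext
      intro y
      simp only [LinearMap.add_apply, hΩ₀v, hΩ₁v, hΩ₂u, LinearMap.zero_apply, hP.one, hKu,
        hψu, hφu]
      ring
    · have h1 := hm1 v hv
      have h2 := hm'1 v hv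
      rw [LinearMap.add_apply, LinearMap.add_apply, hΩ₂v v hv, h2, h1]
      apply LinearMap.ext
      intro y
      simp only [LinearMap.add_apply, LinearMap.sub_apply]
      ring

theorem star_rigid {P : V → W} {κ : W →ₗ[ℝ] ℝ} (hP : Poly P κ) : StarRigid P := by
  intro u K hK0 hK1
  refine star_rigid' hP u K hK0 (fun a ha => hK1 u (self_mem_nb u) a (Or.inr ha) ha)
    (fun a b ha hb hab hF => hK1 a (Or.inr ha) b (Or.inr hb) ⟨hab, hF.mono hP ?_⟩)
  intro x hx
  simp only [Finset.mem_insert, Finset.mem_singleton] at hx ⊢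
  clear * - hx
  tauto

end Pool.Agent.Lib.MP_36627d_co
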