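import Pool.Agent.Lib.MP_36627d_co.Count

/-!
# Vertex stars carry no stress
-/

open Finset Module

namespace Pool.Agent.Lib.MP_36627d_co

open scoped Classical

variable {V W : Type*} [Fintype V] [AddCommGroup W] [Module ℝ W]

theorem mem_Edg {P : V → W} {u : V} {r : V → ℝ} {a b : V} : (a, b) ∈ Edg P u r ↔
    PFace P {u, a, b} ∧ ({u, a, b} : Finset V).card = 3 ∧ r a < r b := by
  simp [Edg]

theorem Edg.nbr {P : V → W} {κ : W →ₗ[ℝ] ℝ} (hP : Poly P κ) {u : V} {r : V → ℝ} {a b : V}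
    (h : (a, b) ∈ Edg P u r) : a ∈ Nbr P u ∧ b ∈ Nbr P u := by
  obtain ⟨hF, hc, -⟩ := mem_Edg.1 h
  obtain ⟨c1, c2, c3⟩ := card3 hc
  refine ⟨mem_Nbr.2 ⟨c1, hF.mono hP ?_⟩, mem_Nbr.2 ⟨c2, hF.mono hP ?_⟩⟩ <;>
  · intro v hv
    simp only [Finset.mem_insert, Finset.mem_singleton] at hv ⊢
    clear * - hv
    tauto

/-- Prescribed first order changes of all edge lengths of a vertex star are realised. -/
theorem realise {P : V → W} {κ : W →ₗ[ℝ] ℝ} (hP : Poly P κ) {u : V}
    {c g : W →ₗ[ℝ] ℝ} (hcu : c (P u) = 0) (hcpos : ∀ v, v ≠ u → 0 < c (P v))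
    (hgu : g (P u) = 0)
    (hinj : ∀ v v', Adj P u v → Adj P u v' → v ≠ v' →
      g (P v) / c (P v) ≠ g (P v') / c (P v'))
    (r1 r2 : V → ℝ) (r3 : V → V → ℝ) :
    ∃ m : V → W →ₗ[ℝ] ℝ, (∀ v, v ∉ Nbr P u → m v = 0) ∧
      (∀ v ∈ Nbr P u, m v (P u) = r1 v) ∧ (∀ v ∈ Nbr P u, m v (P v) = r2 v) ∧
      ∀ a b, (a, b) ∈ Edg P u (fun v => g (P v) / c (P v)) →
        m a (P b) + m b (P a) = r3 a b := by
  classical
  have hfin := hP.fin
  have hbound := edge_bound hP hcu hcpos hgu hinj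
  set r : V → ℝ := fun v => g (P v) / c (P v) with hr
  have hE : ∀ p : Edg P u r, p.1.1 ∈ Nbr P u ∧ p.1.2 ∈ Nbr P u := fun p =>
    Edg.nbr hP (show (p.1.1, p.1.2) ∈ Edg P u r from p.2)
  let R : ((Nbr P u) → (W →ₗ[ℝ] ℝ)) →ₗ[ℝ]
      (((Nbr P u) → ℝ) × ((Nbr P u) → ℝ) × ((Edg P u r) → ℝ)) :=
    { toFun := fun m => (fun a => m a (P u), fun a => m a (P a),
        fun p => m ⟨p.1.1, (hE p).1⟩ (P p.1.2) + m ⟨p.1.2, (hE p).2⟩ (P p.1.1))
      map_add' := fun m m' => by
        refine Prod.ext ?_ (Prod.ext ?_ ?_)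
        · rfl
        · rfl
        · funext p
          exact add_add_add_comm _ _ _ _
      map_smul' := fun t m => by
        refine Prod.ext ?_ (Prod.ext ?_ ?_)
        · rfl
        · rfl
        · funext p
          exact (mul_add t _ _).symm }
  have hR1 : ∀ (m : (Nbr P u) → (W →ₗ[ℝ] ℝ)) a, (R m).1 a = m a (P u) := fun m a => rfl
  have hR2 : ∀ (m : (Nbr P u) → (W →ₗ[ℝ] ℝ)) a, (R m).2.1 a = m a (P a) := fun m a => rfl
  have hR3 : ∀ (m : (Nbr P u) → (W →ₗ[ℝ] ℝ)) p, (R m).2.2 p =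
    m ⟨p.1.1, (hE p).1⟩ (P p.1.2) + m ⟨p.1.2, (hE p).2⟩ (P p.1.1) := fun m p => rfl
  -- a facet
  obtain ⟨G, hG, hGF, hGc⟩ := (hP.vert u).exists_facet hP
  have huG : u ∈ G := hG (Finset.mem_singleton_self u)
  obtain ⟨a, b, x, hab, hax, hbx, hGe⟩ := Finset.card_eq_three.1 (by
    rw [Finset.card_erase_of_mem huG, hGc] : (G.erase u).card = 3)
  have hGu : G = {u, a, b, x} := by rw [← Finset.insert_erase huG, hGe]
  rw [hGu] at hGF hGc
  obtain ⟨c1, c2, c3, c4, c5, c6⟩ := card4 hGc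
  have haN : a ∈ Nbr P u := mem_Nbr.2 ⟨c1, hGF.mono hP (by
    intro v hv
    simp only [Finset.mem_insert, Finset.mem_singleton] at hv ⊢
    clear * - hv
    tauto)⟩
  have hbN : b ∈ Nbr P u := mem_Nbr.2 ⟨c2, hGF.mono hP (by
    intro v hv
    simp only [Finset.mem_insert, Finset.mem_singleton] at hv ⊢
    clear * - hv
    tauto)⟩
  have hxN : x ∈ Nbr P u := mem_Nbr.2 ⟨c3, hGF.mono hP (by
    intro v hv
    simp only [Finset.mem_insert, Finset.mem_singleton] at hv ⊢
    clear * - hv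
    tauto)⟩
  -- the kernel has dimension at most six
  let J : ((Nbr P u) → (W →ₗ[ℝ] ℝ)) →ₗ[ℝ] (Fin 6 → ℝ) :=
    { toFun := fun m => ![m ⟨a, haN⟩ (P b), m ⟨a, haN⟩ (P x), m ⟨b, hbN⟩ (P x),
        m ⟨a, haN⟩ (ee P), m ⟨b, hbN⟩ (ee P), m ⟨x, hxN⟩ (ee P)]
      map_add' := fun m m' => by
        ext i
        fin_cases i <;> rfl
      map_smul' := fun t m => by
        ext i
        fin_cases i <;> rfl }
  have hJ : ∀ m : (Nbr P u) → (W →ₗ[ℝ] ℝ), J m = ![m ⟨a, haN⟩ (P b), m ⟨a, haN⟩ (P x), m ⟨b, hbN⟩ (P x),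
        m ⟨a, haN⟩ (ee P), m ⟨b, hbN⟩ (ee P), m ⟨x, hxN⟩ (ee P)] := fun m => rfl
  have hker : ∀ m : (Nbr P u) → (W →ₗ[ℝ] ℝ), R m = 0 → J m = 0 → m = 0 := by
    intro m hRm hJm
    have k1 : ∀ v : Nbr P u, m v (P u) = 0 := fun v => by rw [← hR1, hRm]; rfl
    have k2 : ∀ v : Nbr P u, m v (P v) = 0 := fun v => by rw [← hR2, hRm]; rfl
    have k3 : ∀ p : Edg P u r, m ⟨p.1.1, (hE p).1⟩ (P p.1.2) +
        m ⟨p.1.2, (hE p).2⟩ (P p.1.1) = 0 := fun p => by rw [← hR3, hRm]; rfl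
    set K : V → W →ₗ[ℝ] ℝ := fun v => if h : v ∈ Nbr P u then m ⟨v, h⟩ else 0 with hK
    have hKv : ∀ v (h : v ∈ Nbr P u), K v = m ⟨v, h⟩ := fun v h => dif_pos h
    have huN : u ∉ Nbr P u := fun h => (mem_Nbr.1 h).1 rfl
    have hKu : K u = 0 := dif_neg huN
    obtain ⟨Ω, hΩ, hΩv⟩ := star_rigid' hP u K (fun v hv => by
      rcases hv with rfl | hv
      · rw [hKu]; rfl
      · rw [hKv v (mem_Nbr.2 hv)]; exact k2 _) (fun v hv => by
      rw [hKu, hKv v (mem_Nbr.2 hv), k1]; simp) (fun v v' hv hv' hne hF => by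
      rw [hKv v (mem_Nbr.2 hv), hKv v' (mem_Nbr.2 hv')]
      have hcc : ({u, v, v'} : Finset V).card = 3 :=
        Finset.card_eq_three.2 ⟨u, v, v', hv.1, hv'.1, hne, rfl⟩
      rcases lt_or_gt_of_ne (hinj v v' hv hv' hne) with h1 | h1
      · exact k3 ⟨(v, v'), mem_Edg.2 ⟨hF, hcc, h1⟩⟩
      · have hsw : ({u, v', v} : Finset V) = {u, v, v'} := by
          ext z; simp only [Finset.mem_insert, Finset.mem_singleton]; clear * - z; tauto
        have := k3 ⟨(v', v), mem_Edg.2 ⟨by rw [hsw]; exact hF, by rw [hsw]; exact hcc, h1⟩⟩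
        linarith)
    have hΩu : Ω (P u) = 0 := by rw [← hΩv u (self_mem_nb u), hKu]
    have hΩN : ∀ v (h : v ∈ Nbr P u), Ω (P v) = m ⟨v, h⟩ := fun v h => by
      rw [← hΩv v (Or.inr (mem_Nbr.1 h)), hKv v h]
    obtain ⟨φ, hφ0, hφ1, hφe⟩ := hGF.support
    have hφe' : φ (ee P) ≠ 0 := by rw [hφe]; norm_num
    rw [hJ] at hJm
    have j0 : m ⟨a, haN⟩ (P b) = 0 := congrFun hJm 0
    have j1 : m ⟨a, haN⟩ (P x) = 0 := congrFun hJm 1
    have j2 : m ⟨b, hbN⟩ (P x) = 0 := congrFun hJm 2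
    have j3 : m ⟨a, haN⟩ (ee P) = 0 := congrFun hJm 3
    have j4 : m ⟨b, hbN⟩ (ee P) = 0 := congrFun hJm 4
    have j5 : m ⟨x, hxN⟩ (ee P) = 0 := congrFun hJm 5
    rw [← hΩN a haN] at j0 j1 j3
    rw [← hΩN b hbN] at j2 j4
    rw [← hΩN x hxN] at j5
    have s1 := hΩ.skew (P b) (P a)
    have s2 := hΩ.skew (P x) (P a)
    have s3 := hΩ.skew (P x) (P b)
    rw [j0, neg_zero] at s1
    rw [j1, neg_zero] at s2
    rw [j2, neg_zero] at s3
    have u1 : ∀ y, Ω y (P u) = 0 := fun y => by rw [hΩ.skew, hΩu]; simp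
    have o1 : Ω (P a) = 0 := by
      refine facet_ext hP hGF hGc hφ0 hφe' (fun v hv => ?_) j3
      simp only [Finset.mem_insert, Finset.mem_singleton] at hv
      rcases hv with rfl | rfl | rfl | rfl
      · exact u1 _
      · exact hΩ _
      · exact j0
      · exact j1
    have o2 : Ω (P b) = 0 := by
      refine facet_ext hP hGF hGc hφ0 hφe' (fun v hv => ?_) j4
      simp only [Finset.mem_insert, Finset.mem_singleton] at hv
      rcases hv with rfl | rfl | rfl | rfl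
      · exact u1 _
      · exact s1
      · exact hΩ _
      · exact j2
    have o3 : Ω (P x) = 0 := by
      refine facet_ext hP hGF hGc hφ0 hφe' (fun v hv => ?_) j5
      simp only [Finset.mem_insert, Finset.mem_singleton] at hv
      rcases hv with rfl | rfl | rfl | rfl
      · exact u1 _
      · exact s2
      · exact s3
      · exact hΩ _
    have o4 : Ω (ee P) = 0 := by
      refine facet_ext hP hGF hGc hφ0 hφe' (fun v hv => ?_) (hΩ _)
      simp only [Finset.mem_insert, Finset.mem_singleton] at hv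
      rw [hΩ.skew]
      rcases hv with rfl | rfl | rfl | rfl
      · rw [hΩu]; simp
      · rw [o1]; simp
      · rw [o2]; simp
      · rw [o3]; simp
    have o5 : Ω = 0 := by
      refine facet_ext hP hGF hGc hφ0 hφe' (fun v hv => ?_) o4
      simp only [Finset.mem_insert, Finset.mem_singleton] at hv
      rcases hv with rfl | rfl | rfl | rfl
      · exact hΩu
      · exact o1
      · exact o2
      · exact o3
    funext v
    rw [← hΩN v.1 v.2, o5]
    rfl
  have hker6 : finrank ℝ (LinearMap.ker R) ≤ 6 := by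
    have hinj' : Function.Injective (J.comp (LinearMap.ker R).subtype) := by
      rintro ⟨m1, h1⟩ ⟨m2, h2⟩ h12
      have e1 : R (m1 - m2) = 0 := by
        rw [map_sub, LinearMap.mem_ker.1 h1, LinearMap.mem_ker.1 h2, sub_zero]
      have e2 : J (m1 - m2) = 0 := by
        rw [map_sub]
        exact sub_eq_zero.2 h12
      exact Subtype.ext (sub_eq_zero.1 (hker _ e1 e2))
    have := LinearMap.finrank_le_finrank_of_injective hinj'
    rw [Module.finrank_fin_fun] at this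
    exact this
  have hdimD : finrank ℝ ((Nbr P u) → (W →ₗ[ℝ] ℝ)) = (Nbr P u).card * 5 := by
    rw [Module.finrank_pi_fintype]
    have h1 : finrank ℝ (W →ₗ[ℝ] ℝ) = 5 := by
      rw [← hP.dim]; exact Subspace.dual_finrank_eq
    simp [h1]
  have hdimC : finrank ℝ (((Nbr P u) → ℝ) × ((Nbr P u) → ℝ) × ((Edg P u r) → ℝ)) =
      (Nbr P u).card + ((Nbr P u).card + (Edg P u r).card) := by
    rw [Module.finrank_prod, Module.finrank_prod]
    simp
  have hrn := LinearMap.finrank_range_add_finrank_ker R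
  have hle : finrank ℝ (LinearMap.range R) ≤
      finrank ℝ (((Nbr P u) → ℝ) × ((Nbr P u) → ℝ) × ((Edg P u r) → ℝ)) :=
    Submodule.finrank_le _
  have hsurj : LinearMap.range R = ⊤ := by
    apply Submodule.eq_top_of_finrank_eq
    omega
  obtain ⟨m, hm⟩ : ∃ m, R m = ((fun v => r1 v, fun v => r2 v, fun p => r3 p.1.1 p.1.2) :
      (((Nbr P u) → ℝ) × ((Nbr P u) → ℝ) × ((Edg P u r) → ℝ))) := by
    have : ((fun v => r1 v, fun v => r2 v, fun p => r3 p.1.1 p.1.2) :
      (((Nbr P u) → ℝ) × ((Nbr P u) → ℝ) × ((Edg P u r) → ℝ))) ∈ LinearMap.range R := by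
      rw [hsurj]; exact Submodule.mem_top
    exact this
  refine ⟨fun v => if h : v ∈ Nbr P u then m ⟨v, h⟩ else 0, fun v hv => dif_neg hv,
    fun v hv => ?_, fun v hv => ?_, fun a b hab => ?_⟩
  · show (if h : v ∈ Nbr P u then m ⟨v, h⟩ else 0) (P u) = _
    rw [dif_pos hv]
    have := hR1 m ⟨v, hv⟩
    rw [hm] at this
    exact this.symm
  · show (if h : v ∈ Nbr P u then m ⟨v, h⟩ else 0) (P v) = _
    rw [dif_pos hv]
    have := hR2 m ⟨v, hv⟩
    rw [hm] at this
    exact this.symm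
  · obtain ⟨h1, h2⟩ := Edg.nbr hP hab
    show (if h : a ∈ Nbr P u then m ⟨a, h⟩ else 0) (P b) +
      (if h : b ∈ Nbr P u then m ⟨b, h⟩ else 0) (P a) = _
    rw [dif_pos h1, dif_pos h2]
    have := hR3 m ⟨(a, b), hab⟩
    rw [hm] at this
    exact this.symm

/-- A vertex star of a simplicial 4-polytope carries no nonzero stress. -/
theorem stress_free {P : V → W} {κ : W →ₗ[ℝ] ℝ} (hP : Poly P κ) {u : V} {ω : V → V → ℝ}
    (hs : ∀ a b, ω a b = ω b a) (h0 : ∀ a b, ¬ PFace P {u, a, b} → ω a b = 0)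
    (hr : ∀ a, ∑ b, ω a b • P b = 0) : ∀ a b, ω a b = 0 := by
  classical
  obtain ⟨c, g, hcu, hcpos, hgu, hinj⟩ := exists_ratio hP u
  obtain ⟨m, hm0, hm1, hm2, hm3⟩ := realise hP hcu hcpos hgu hinj (fun v => ω v u)
    (fun v => ω v v) ω
  set r : V → ℝ := fun v => g (P v) / c (P v) with hrdef
  have hadj : ∀ a b, a ≠ u → ω a b ≠ 0 → a ∈ Nbr P u := by
    intro a b hau hab
    have hF : PFace P {u, a, b} := by
      by_contra h; exact hab (h0 a b h)
    exact mem_Nbr.2 ⟨hau.symm, hF.mono hP (by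
      intro v hv
      simp only [Finset.mem_insert, Finset.mem_singleton] at hv ⊢
      clear * - hv
      tauto)⟩
  have huN : u ∉ Nbr P u := fun h => (mem_Nbr.1 h).1 rfl
  -- pointwise decomposition
  have hpt : ∀ a b, ω a b * m a (P b) =
      (if b = u ∧ a ∈ Nbr P u then ω a u ^ 2 else 0) +
      (if b = a ∧ a ∈ Nbr P u then ω a a ^ 2 else 0) +
      (if (a, b) ∈ Edg P u r then ω a b * m a (P b) else 0) +
      (if (b, a) ∈ Edg P u r then ω a b * m a (P b) else 0) := by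
    intro a b
    by_cases haN : a ∈ Nbr P u
    swap
    · have e1 : (a, b) ∉ Edg P u r := fun h => haN (Edg.nbr hP h).1
      have e2 : (b, a) ∉ Edg P u r := fun h => haN (Edg.nbr hP h).2
      rw [hm0 a haN]
      simp [haN, e1, e2]
    have hau : a ≠ u := by rintro rfl; exact huN haN
    by_cases hbu : b = u
    · have e1 : (a, b) ∉ Edg P u r := fun h => huN (hbu ▸ (Edg.nbr hP h).2)
      have e2 : (b, a) ∉ Edg P u r := fun h => huN (hbu ▸ (Edg.nbr hP h).1)
      rw [if_pos ⟨hbu, haN⟩, if_neg (fun h => hau (h.1.symm.trans hbu)), if_neg e1, if_neg e2,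
        hbu, hm1 a haN]
      ring
    by_cases hba : b = a
    · have e1 : (a, b) ∉ Edg P u r := fun h => by
        rw [hba] at h
        exact absurd (mem_Edg.1 h).2.2 (lt_irrefl _)
      have e2 : (b, a) ∉ Edg P u r := fun h => by
        rw [hba] at h
        exact absurd (mem_Edg.1 h).2.2 (lt_irrefl _)
      rw [if_neg (fun h => hbu h.1), if_pos ⟨hba, haN⟩, if_neg e1, if_neg e2, hba, hm2 a haN]
      ring
    rw [if_neg (fun h => hbu h.1), if_neg (fun h => hba h.1)]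
    by_cases hz : ω a b = 0
    · rw [hz]; simp
    have hF : PFace P {u, a, b} := by
      by_contra h; exact hz (h0 a b h)
    have hbN : b ∈ Nbr P u := hadj b a hbu (by rw [hs b a]; exact hz)
    have hcc : ({u, a, b} : Finset V).card = 3 :=
      Finset.card_eq_three.2 ⟨u, a, b, hau.symm, fun h => hbu h.symm, fun h => hba h.symm, rfl⟩
    rcases lt_or_gt_of_ne (hinj a b (mem_Nbr.1 haN) (mem_Nbr.1 hbN)
      (fun h => hba h.symm)) with h1 | h1
    · have e1 : (a, b) ∈ Edg P u r := mem_Edg.2 ⟨hF, hcc, h1⟩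
      have e2 : (b, a) ∉ Edg P u r := fun h => absurd (mem_Edg.1 h).2.2 (not_lt.2 h1.le)
      rw [if_pos e1, if_neg e2]
      ring
    · have hsw : ({u, b, a} : Finset V) = {u, a, b} := by
        ext z; simp only [Finset.mem_insert, Finset.mem_singleton]; clear * - z; tauto
      have e1 : (a, b) ∉ Edg P u r := fun h => absurd (mem_Edg.1 h).2.2 (not_lt.2 h1.le)
      have e2 : (b, a) ∈ Edg P u r :=
        mem_Edg.2 ⟨by rw [hsw]; exact hF, by rw [hsw]; exact hcc, h1⟩
      rw [if_neg e1, if_pos e2]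
      ring
  have hS0 : ∑ a, ∑ b, ω a b * m a (P b) = 0 := by
    refine Finset.sum_eq_zero fun a _ => ?_
    have := congrArg (m a) (hr a)
    simpa only [map_sum, map_smul, smul_eq_mul, map_zero] using this
  have hS : ∑ a, ∑ b, ω a b * m a (P b) =
      ∑ a, ∑ b, ((if b = u ∧ a ∈ Nbr P u then ω a u ^ 2 else 0) +
      (if b = a ∧ a ∈ Nbr P u then ω a a ^ 2 else 0) +
      (if (a, b) ∈ Edg P u r then ω a b ^ 2 else 0)) := by
    have e1 : ∑ a, ∑ b, (if (b, a) ∈ Edg P u r then ω a b * m a (P b) else 0) =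
        ∑ a, ∑ b, (if (a, b) ∈ Edg P u r then ω a b * m b (P a) else 0) := by
      rw [Finset.sum_comm]
      refine Finset.sum_congr rfl fun a _ => Finset.sum_congr rfl fun b _ => ?_
      rw [hs b a]
    have e2 : ∑ a, ∑ b, ω a b * m a (P b) =
        ∑ a, ∑ b, ((if b = u ∧ a ∈ Nbr P u then ω a u ^ 2 else 0) +
        (if b = a ∧ a ∈ Nbr P u then ω a a ^ 2 else 0) +
        (if (a, b) ∈ Edg P u r then ω a b * m a (P b) else 0)) +
        ∑ a, ∑ b, (if (b, a) ∈ Edg P u r then ω a b * m a (P b) else 0) := by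
      rw [← Finset.sum_add_distrib]
      refine Finset.sum_congr rfl fun a _ => ?_
      rw [← Finset.sum_add_distrib]
      exact Finset.sum_congr rfl fun b _ => hpt a b
    rw [e2, e1, ← Finset.sum_add_distrib]
    refine Finset.sum_congr rfl fun a _ => ?_
    rw [← Finset.sum_add_distrib]
    refine Finset.sum_congr rfl fun b _ => ?_
    by_cases h : (a, b) ∈ Edg P u r
    · rw [if_pos h, if_pos h, if_pos h]
      have := hm3 a b h
      rw [add_assoc, ← mul_add, this]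
      ring
    · rw [if_neg h, if_neg h, if_neg h]
      ring
  rw [hS0] at hS
  have hnn : ∀ a b, 0 ≤ ((if b = u ∧ a ∈ Nbr P u then ω a u ^ 2 else 0) +
      (if b = a ∧ a ∈ Nbr P u then ω a a ^ 2 else 0) +
      (if (a, b) ∈ Edg P u r then ω a b ^ 2 else 0) : ℝ) := by
    intro a b
    have h1 : (0 : ℝ) ≤ (if b = u ∧ a ∈ Nbr P u then ω a u ^ 2 else 0) := by
      split_ifs <;> positivity
    have h2 : (0 : ℝ) ≤ (if b = a ∧ a ∈ Nbr P u then ω a a ^ 2 else 0) := by
      split_ifs <;> positivity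
    have h3 : (0 : ℝ) ≤ (if (a, b) ∈ Edg P u r then ω a b ^ 2 else 0) := by
      split_ifs <;> positivity
    linarith
  have hz : ∀ a b, ((if b = u ∧ a ∈ Nbr P u then ω a u ^ 2 else 0) +
      (if b = a ∧ a ∈ Nbr P u then ω a a ^ 2 else 0) +
      (if (a, b) ∈ Edg P u r then ω a b ^ 2 else 0) : ℝ) = 0 := by
    intro a b
    have h1 := (Finset.sum_eq_zero_iff_of_nonneg (fun a _ =>
      Finset.sum_nonneg fun b _ => hnn a b)).1 hS.symm a (Finset.mem_univ a)
    exact (Finset.sum_eq_zero_iff_of_nonneg (fun b _ => hnn a b)).1 h1 b (Finset.mem_univ b)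
  have z1 : ∀ a ∈ Nbr P u, ω a u = 0 := by
    intro a ha
    have h1 := hz a u
    have h2 : (0 : ℝ) ≤ (if u = a ∧ a ∈ Nbr P u then ω a a ^ 2 else 0) := by
      split_ifs <;> positivity
    have h3 : (0 : ℝ) ≤ (if (a, u) ∈ Edg P u r then ω a u ^ 2 else 0) := by
      split_ifs <;> positivity
    rw [if_pos ⟨rfl, ha⟩] at h1
    have h4 : ω a u ^ 2 = 0 := le_antisymm (by linarith) (sq_nonneg _)
    exact pow_eq_zero_iff two_ne_zero |>.1 h4
  have z2 : ∀ a ∈ Nbr P u, ω a a = 0 := by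
    intro a ha
    have h1 := hz a a
    have h2 : (0 : ℝ) ≤ (if a = u ∧ a ∈ Nbr P u then ω a u ^ 2 else 0) := by
      split_ifs <;> positivity
    have h3 : (0 : ℝ) ≤ (if (a, a) ∈ Edg P u r then ω a a ^ 2 else 0) := by
      split_ifs <;> positivity
    rw [if_pos (c := a = a ∧ a ∈ Nbr P u) ⟨rfl, ha⟩] at h1
    have h4 : ω a a ^ 2 = 0 := le_antisymm (by linarith) (sq_nonneg _)
    exact pow_eq_zero_iff two_ne_zero |>.1 h4
  have z3 : ∀ a b, (a, b) ∈ Edg P u r → ω a b = 0 := by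
    intro a b hab
    have h1 := hz a b
    have h2 : (0 : ℝ) ≤ (if b = u ∧ a ∈ Nbr P u then ω a u ^ 2 else 0) := by
      split_ifs <;> positivity
    have h3 : (0 : ℝ) ≤ (if b = a ∧ a ∈ Nbr P u then ω a a ^ 2 else 0) := by
      split_ifs <;> positivity
    rw [if_pos hab] at h1
    have h4 : ω a b ^ 2 = 0 := le_antisymm (by linarith) (sq_nonneg _)
    exact pow_eq_zero_iff two_ne_zero |>.1 h4
  -- the pair `(u, u)`
  have z4 : ω u u = 0 := by
    have h1 := hr u
    rw [Finset.sum_eq_single u] at h1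
    · have h2 := congrArg κ h1
      rw [map_smul, hP.one, map_zero, smul_eq_mul, mul_one] at h2
      exact h2
    · intro b _ hbu
      have : ω u b = 0 := by
        by_contra hne
        rw [hs] at hne
        exact hne (z1 b (hadj b u hbu hne))
      rw [this, zero_smul]
    · intro h; exact absurd (Finset.mem_univ _) h
  intro a b
  by_contra hne
  by_cases hau : a = u
  · by_cases hbu : b = u
    · rw [hau, hbu] at hne; exact hne z4
    · rw [hau, hs] at hne
      exact hne (z1 b (hadj b u hbu hne))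
  · have haN := hadj a b hau hne
    by_cases hbu : b = u
    · rw [hbu] at hne; exact hne (z1 a haN)
    by_cases hba : b = a
    · rw [hba] at hne; exact hne (z2 a haN)
    have hF : PFace P {u, a, b} := by
      by_contra h; exact hne (h0 a b h)
    have hbN : b ∈ Nbr P u := hadj b a hbu (by rw [hs b a]; exact hne)
    have hcc : ({u, a, b} : Finset V).card = 3 :=
      Finset.card_eq_three.2 ⟨u, a, b, fun h => hau h.symm, fun h => hbu h.symm,
        fun h => hba h.symm, rfl⟩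
    rcases lt_or_gt_of_ne (hinj a b (mem_Nbr.1 haN) (mem_Nbr.1 hbN)
      (fun h => hba h.symm)) with h1 | h1
    · exact hne (z3 a b (mem_Edg.2 ⟨hF, hcc, h1⟩))
    · have hsw : ({u, b, a} : Finset V) = {u, a, b} := by
        ext z; simp only [Finset.mem_insert, Finset.mem_singleton]; clear * - z; tauto
      rw [hs] at hne
      exact hne (z3 b a (mem_Edg.2 ⟨by rw [hsw]; exact hF, by rw [hsw]; exact hcc, h1⟩))

end Pool.Agent.Lib.MP_36627d_co
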