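import Pool.Agent.Lib.MP_36627d_co.Defs
import Pool.Agent.Lib.MP_36627d_co.Stress
import Pool.Agent.Lib.MP_36627d_co.Main2

/-!
# From polytopes to cone configurations
-/

open Finset Module

namespace Pool.Agent.Lib.MP_36627d_co

open scoped Classical

variable {n : ℕ}

/-- The homogenised vertices `(p v, 1)`. -/
def hom (p : Fin n → Fin 4 → ℝ) (v : Fin n) : (Fin 4 → ℝ) × ℝ := (p v, 1)

/-- the functional `(x, t) ↦ ⟨g, x⟩ + b t` -/
noncomputable def fct (g : Fin 4 → ℝ) (b : ℝ) : ((Fin 4 → ℝ) × ℝ) →ₗ[ℝ] ℝ :=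
  (∑ i, g i • LinearMap.proj i).comp (LinearMap.fst ℝ (Fin 4 → ℝ) ℝ) +
    b • LinearMap.snd ℝ (Fin 4 → ℝ) ℝ

theorem fct_apply (g : Fin 4 → ℝ) (b : ℝ) (x : Fin 4 → ℝ) (t : ℝ) :
    fct g b (x, t) = ∑ i, g i * x i + b * t := by
  simp [fct]

theorem exists_fct (φ : ((Fin 4 → ℝ) × ℝ) →ₗ[ℝ] ℝ) : ∃ g b, φ = fct g b := by
  refine ⟨fun i => φ (Pi.single i 1, 0), φ (0, 1), ?_⟩
  apply LinearMap.ext
  rintro ⟨x, t⟩
  rw [fct_apply]
  have h1 : (x, t) = (∑ i, x i • ((Pi.single i 1 : Fin 4 → ℝ), (0 : ℝ))) + t • ((0 : Fin 4 → ℝ), (1 : ℝ)) := by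
    ext j
    · simp [Prod.fst_sum, Finset.sum_apply, Pi.single_apply]
    · simp [Prod.snd_sum]
  rw [h1, map_add, map_sum, map_smul, smul_eq_mul]
  congr 1
  · refine Finset.sum_congr rfl fun i _ => ?_
    rw [map_smul, smul_eq_mul, mul_comm]
  · ring

theorem isFace_iff (p : Fin n → Fin 4 → ℝ) (F : Finset (Fin n)) :
    IsFace p F ↔ CFace (hom p) F := by
  constructor
  · rintro ⟨g, b, h1, h2⟩
    refine ⟨fct g (-b), fun v hv => ?_, fun v hv => ?_⟩
    · rw [hom, fct_apply, h1 v hv]; ring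
    · rw [hom, fct_apply]
      have := h2 v hv
      linarith
  · rintro ⟨φ, h1, h2⟩
    obtain ⟨g, b, rfl⟩ := exists_fct φ
    refine ⟨g, -b, fun v hv => ?_, fun v hv => ?_⟩
    · have := h1 v hv
      rw [hom, fct_apply] at this
      linarith
    · have := h2 v hv
      rw [hom, fct_apply] at this
      linarith

theorem pface_iff (p : Fin n → Fin 4 → ℝ) (F : Finset (Fin n)) :
    F ∈ boundaryComplex p ↔ PFace (hom p) F := by
  rw [PFace, ← isFace_iff]
  rfl

theorem span_of_full {p : Fin n → Fin 4 → ℝ} (hp : affineSpan ℝ (Set.range p) = ⊤)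
    (φ : ((Fin 4 → ℝ) × ℝ) →ₗ[ℝ] ℝ) (h : ∀ v, φ (hom p v) = 0) : φ = 0 := by
  have key : ∀ x : Fin 4 → ℝ, φ (x, 1) = 0 := by
    intro x
    let S : AffineSubspace ℝ (Fin 4 → ℝ) :=
      { carrier := {x | φ (x, 1) = 0}
        smul_vsub_vadd_mem' := by
          intro c p1 p2 p3 h1 h2 h3
          have h1' : φ (p1, 1) = 0 := h1
          have h2' : φ (p2, 1) = 0 := h2
          have h3' : φ (p3, 1) = 0 := h3
          show φ (c • (p1 -ᵥ p2) +ᵥ p3, 1) = 0
          have e1 : ((c • (p1 -ᵥ p2) +ᵥ p3, 1) : (Fin 4 → ℝ) × ℝ) =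
              c • ((p1, 1) - (p2, 1)) + (p3, 1) := by
            ext i <;> simp
          rw [e1, map_add, map_smul, map_sub, h1', h2', h3']
          simp }
    have hle : affineSpan ℝ (Set.range p) ≤ S := by
      rw [affineSpan_le]
      rintro _ ⟨v, rfl⟩
      exact h v
    rw [hp] at hle
    exact hle (AffineSubspace.mem_top ℝ (Fin 4 → ℝ) x)
  apply LinearMap.ext
  rintro ⟨x, t⟩
  have e1 : ((x, t) : (Fin 4 → ℝ) × ℝ) = (x, 1) + (t - 1) • (0, 1) := by
    ext i <;> simp
  rw [e1, map_add, map_smul, key, key]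
  simp

theorem poly_of (p : Fin n → Fin 4 → ℝ) (hp : IsSimplicialPolytope p) :
    Poly (hom p) (LinearMap.snd ℝ (Fin 4 → ℝ) ℝ) where
  fin := inferInstance
  dim := by simp
  span := span_of_full hp.full
  one v := rfl
  vert v := by
    refine ⟨(isFace_iff p {v}).1 (hp.vertex v), fun hu => ?_⟩
    have h1 : fct (Pi.single 0 1) (-(p v 0)) = 0 := by
      apply span_of_full hp.full
      intro w
      have hw : w = v := by
        have : w ∈ ({v} : Finset (Fin n)) := by rw [hu]; exact Finset.mem_univ w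
        simpa using this
      rw [hw, hom, fct_apply]
      simp [Pi.single_apply]
    have h2 := LinearMap.congr_fun h1 (Pi.single 0 1, 0)
    rw [fct_apply] at h2
    simp [Pi.single_apply] at h2
  simp F hF := by
    have hai := hp.simplicial F ((pface_iff p F).2 hF)
    rw [affineIndependent_iff] at hai
    rw [linearIndependent_iff']
    intro s g hg i hi
    refine hai s g ?_ ?_ i hi
    · have := congrArg Prod.snd hg
      simpa [hom, Prod.snd_sum] using this
    · have := congrArg Prod.fst hg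
      simpa [hom, Prod.fst_sum] using this

theorem noMissing_of (p : Fin n → Fin 4 → ℝ)
    (h : NoMissingFaceAboveTwo (boundaryComplex p)) : NoMissing (hom p) := by
  intro F hc hF
  by_contra hcon
  have := h F ⟨fun h => hcon ((pface_iff p F).1 h), fun G hG => (pface_iff p G).2 (hF G hG)⟩
  omega

end Pool.Agent.Lib.MP_36627d_co
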