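import Pool.Agent.Lib.MP_36627d_co.Crossing

/-!
# The weights of the facets through a vertex
-/

open Finset Module

namespace Pool.Agent.Lib.MP_36627d_co

open scoped Classical

variable {V W : Type*} [Fintype V] [AddCommGroup W] [Module ℝ W]

/-- A weighted simplicial surface in the quotient by `P u`, with the relations of
multiplication in the Stanley-Reisner ring of the star of `u`. -/
structure Web (P : V → W) (u : V) (e : W) (w : V → V → V → ℝ) (β δ γ : V → V → ℝ) : Prop where
  nonneg : ∀ a b x, 0 ≤ w a b x
  s12 : ∀ a b x, w a b x = w b a x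
  s23 : ∀ a b x, w a b x = w a x b
  δs : ∀ a b, δ a b = δ b a
  rel : ∀ a b, ∑ x, w a b x • P x = β a b • P a + β b a • P b + δ a b • e + γ a b • P u
  zero : ∀ a b, (∀ x, w a b x = 0) → β a b = 0 ∧ δ a b = 0 ∧ γ a b = 0

omit [Fintype V] in
theorem insert4_swap {u a b x : V} : ({u, b, a, x} : Finset V) = {u, a, b, x} := by
  ext v
  simp only [Finset.mem_insert, Finset.mem_singleton]
  clear * - v
  tauto

omit [Fintype V] in
theorem insert4_swap' {u a b x : V} : ({u, a, x, b} : Finset V) = {u, a, b, x} := by
  ext v
  simp only [Finset.mem_insert, Finset.mem_singleton]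
  clear * - v
  tauto

theorem exists_web {P : V → W} {κ : W →ₗ[ℝ] ℝ} (hP : Poly P κ) (u : V) :
    ∃ (w : V → V → V → ℝ) (β δ γ : V → V → ℝ), Web P u (ee P) w β δ γ ∧
      ∀ a b x, w a b x ≠ 0 ↔ PFace P {u, a, b, x} ∧ ({u, a, b, x} : Finset V).card = 4 := by
  classical
  have hfin := hP.fin
  let bas : Basis (Fin 5) ℝ W := finBasisOfFinrankEq ℝ W hP.dim
  let ω := bas.det
  let vol : V → V → V → ℝ := fun a b x => ω ![P u, P a, P b, P x, ee P]
  have hsw12 : ∀ a b x, vol b a x = - vol a b x := by
    intro a b x
    have h1 : (![P u, P b, P a, P x, ee P] : Fin 5 → W) =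
        ![P u, P a, P b, P x, ee P] ∘ Equiv.swap 1 2 := by
      ext i
      fin_cases i <;> rfl
    show ω _ = - ω _
    rw [h1]
    exact ω.map_swap _ (by decide)
  have hsw23 : ∀ a b x, vol a x b = - vol a b x := by
    intro a b x
    have h1 : (![P u, P a, P x, P b, ee P] : Fin 5 → W) =
        ![P u, P a, P b, P x, ee P] ∘ Equiv.swap 2 3 := by
      ext i
      fin_cases i <;> rfl
    show ω _ = - ω _
    rw [h1]
    exact ω.map_swap _ (by decide)
  -- the volume of a facet does not vanish
  have hvol : ∀ a b x, PFace P {u, a, b, x} → ({u, a, b, x} : Finset V).card = 4 →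
      vol a b x ≠ 0 := by
    intro a b x hF hc
    obtain ⟨φ, hφ0, hφ1, hφe⟩ := hF.support
    have hli := hP.simp _ hF
    have hsp : ∀ l : W →ₗ[ℝ] ℝ, l (P u) = 0 → l (P a) = 0 → l (P b) = 0 → l (P x) = 0 →
        l (ee P) = 0 → l = 0 := by
      intro l h1 h2 h3 h4 h5
      refine facet_ext hP hF hc hφ0 (e := ee P) (by rw [hφe]; norm_num) (fun v hv => ?_) ?_
      · simp only [Finset.mem_insert, Finset.mem_singleton] at hv
        rcases hv with rfl | rfl | rfl | rfl <;> simp [*]
      · simpa using h5
    have htop : ⊤ ≤ Submodule.span ℝ (Set.range ![P u, P a, P b, P x, ee P]) := by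
      rw [top_le_iff]
      by_contra hne
      obtain ⟨f, hf, hle⟩ := Submodule.exists_le_ker_of_lt_top _ (lt_top_iff_ne_top.2 hne)
      have hmem : ∀ i, f (![P u, P a, P b, P x, ee P] i) = 0 := fun i => by
        simpa using hle (Submodule.subset_span ⟨i, rfl⟩)
      exact hf (hsp f (hmem 0) (hmem 1) (hmem 2) (hmem 3) (hmem 4))
    have hli5 : LinearIndependent ℝ ![P u, P a, P b, P x, ee P] :=
      linearIndependent_of_top_le_span_of_card_eq_finrank htop (by simp [hP.dim])
    have := (Basis.is_basis_iff_det bas).1 ⟨hli5, top_le_iff.1 htop⟩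
    exact this.ne_zero
  let w : V → V → V → ℝ := fun a b x =>
    if PFace P {u, a, b, x} ∧ ({u, a, b, x} : Finset V).card = 4 then |vol a b x|⁻¹ else 0
  have hw12 : ∀ a b x, w a b x = w b a x := by
    intro a b x
    show (if _ then _ else _) = (if _ then _ else _)
    rw [hsw12 a b x, abs_neg, insert4_swap]
  have hw23 : ∀ a b x, w a b x = w a x b := by
    intro a b x
    show (if _ then _ else _) = (if _ then _ else _)
    rw [hsw23 a b x, abs_neg, insert4_swap']
  have hwne : ∀ a b x, w a b x ≠ 0 ↔ PFace P {u, a, b, x} ∧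
      ({u, a, b, x} : Finset V).card = 4 := by
    intro a b x
    constructor
    · intro h
      by_contra hcon
      exact h (if_neg hcon)
    · intro h
      have h1 : w a b x = |vol a b x|⁻¹ := if_pos h
      rw [h1]
      exact inv_ne_zero (abs_ne_zero.2 (hvol a b x h.1 h.2))
  have hwnn : ∀ a b x, 0 ≤ w a b x := by
    intro a b x
    by_cases h : PFace P {u, a, b, x} ∧ ({u, a, b, x} : Finset V).card = 4
    · have h1 : w a b x = |vol a b x|⁻¹ := if_pos h
      rw [h1]
      exact inv_nonneg.2 (abs_nonneg _)
    · have h1 : w a b x = 0 := if_neg h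
      rw [h1]
  -- the relation for a single pair
  have hrel : ∀ a b, ∃ c1 c2 c3 c4 : ℝ, (∑ x, w a b x • P x =
      c1 • P a + c2 • P b + c3 • ee P + c4 • P u) ∧
      ((∀ x, w a b x = 0) → c1 = 0 ∧ c2 = 0 ∧ c3 = 0 ∧ c4 = 0) := by
    intro a b
    by_cases hE : PFace P {u, a, b} ∧ ({u, a, b} : Finset V).card = 3
    swap
    · have hz : ∀ x, w a b x = 0 := by
        intro x
        by_contra hne
        obtain ⟨h1, h2⟩ := (hwne a b x).1 hne
        apply hE
        refine ⟨h1.mono hP (fun v hv => ?_), ?_⟩
        · simp only [Finset.mem_insert, Finset.mem_singleton] at hv ⊢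
          clear * - hv
          tauto
        · have h3 : ({u, a, b, x} : Finset V) = insert x {u, a, b} := by
            ext v
            simp only [Finset.mem_insert, Finset.mem_singleton]
            clear * - v
            tauto
          have h4 := Finset.card_insert_le x ({u, a, b} : Finset V)
          rw [← h3, h2] at h4
          have h5 : ({u, a, b} : Finset V).card ≤ 3 := Finset.card_le_three
          omega
      refine ⟨0, 0, 0, 0, ?_, fun _ => ⟨rfl, rfl, rfl, rfl⟩⟩
      simp [hz]
    · obtain ⟨hE1, hE2⟩ := hE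
      obtain ⟨h, hh0, hhe, hmul, x, y, hx, hy, hhx, hhy, hxF, hyF, huniq⟩ :=
        hE1.ridge hP hE2
      have hins : ∀ z, ({u, a, b, z} : Finset V) = insert z {u, a, b} := by
        intro z
        ext v
        simp only [Finset.mem_insert, Finset.mem_singleton]
        clear * - v
        tauto
      have hcd : ∀ z, z ∉ ({u, a, b} : Finset V) → ({u, a, b, z} : Finset V).card = 4 := by
        intro z hz
        rw [hins, Finset.card_insert_of_notMem hz, hE2]
      have hxy : x ≠ y := by
        rintro rfl
        linarith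
      -- the functional `H`
      let H : W →ₗ[ℝ] ℝ := ω.toMultilinearMap.toLinearMap ![P u, P a, P b, 0, ee P] 3
      have hHv : ∀ v, H v = ω ![P u, P a, P b, v, ee P] := by
        intro v
        show ω (Function.update ![P u, P a, P b, 0, ee P] 3 v) = _
        congr 1
        ext i
        fin_cases i <;> simp [Function.update]
      have hH0 : ∀ v ∈ ({u, a, b} : Finset V), H (P v) = 0 := by
        intro v hv
        rw [hHv]
        simp only [Finset.mem_insert, Finset.mem_singleton] at hv
        rcases hv with rfl | rfl | rfl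
        · exact ω.map_eq_zero_of_eq _ (i := 0) (j := 3) rfl (by decide)
        · exact ω.map_eq_zero_of_eq _ (i := 1) (j := 3) rfl (by decide)
        · exact ω.map_eq_zero_of_eq _ (i := 2) (j := 3) rfl (by decide)
      have hHe : H (ee P) = 0 := by
        rw [hHv]
        exact ω.map_eq_zero_of_eq _ (i := 3) (j := 4) rfl (by decide)
      obtain ⟨c, hc⟩ := hmul H hH0 hHe
      have hHx : H (P x) ≠ 0 := by
        rw [hHv]
        exact hvol a b x (by rw [hins]; exact hxF) (hcd x hx)
      have hHy : H (P y) ≠ 0 := by
        rw [hHv]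
        exact hvol a b y (by rw [hins]; exact hyF) (hcd y hy)
      have hc0 : c ≠ 0 := by
        rintro rfl
        rw [zero_smul] at hc
        rw [hc] at hHx
        exact hHx rfl
      -- the sum has only two terms
      have hsum : ∑ z, w a b z • P z = w a b x • P x + w a b y • P y := by
        rw [← Finset.sum_pair (f := fun z => w a b z • P z) hxy]
        symm
        apply Finset.sum_subset (Finset.subset_univ _)
        intro z _ hz
        have : w a b z = 0 := by
          by_contra hne
          obtain ⟨h1, h2⟩ := (hwne a b z).1 hne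
          have hz' : z ∉ ({u, a, b} : Finset V) := by
            intro hz'
            rw [hins, Finset.insert_eq_of_mem hz', hE2] at h2
            omega
          rw [hins] at h1
          rcases huniq z hz' h1 with rfl | rfl
          · simp at hz
          · simp at hz
        rw [this, zero_smul]
      have hwx : w a b x = |H (P x)|⁻¹ := by
        rw [hHv]
        exact if_pos ⟨by rw [hins]; exact hxF, hcd x hx⟩
      have hwy : w a b y = |H (P y)|⁻¹ := by
        rw [hHv]
        exact if_pos ⟨by rw [hins]; exact hyF, hcd y hy⟩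
      have hHS : H (∑ z, w a b z • P z) = 0 := by
        rw [hsum, map_add, map_smul, map_smul, smul_eq_mul, smul_eq_mul, hwx, hwy]
        have hX : H (P x) = c * h (P x) := by rw [hc]; rfl
        have hY : H (P y) = c * h (P y) := by rw [hc]; rfl
        rcases lt_or_gt_of_ne hc0 with h1 | h1
        · have hX' : H (P x) < 0 := by rw [hX]; exact mul_neg_of_neg_of_pos h1 hhx
          have hY' : 0 < H (P y) := by rw [hY]; exact mul_pos_of_neg_of_neg h1 hhy
          rw [abs_of_neg hX', abs_of_pos hY']
          field_simp
          ring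
        · have hX' : 0 < H (P x) := by rw [hX]; exact mul_pos h1 hhx
          have hY' : H (P y) < 0 := by rw [hY]; exact mul_neg_of_pos_of_neg h1 hhy
          rw [abs_of_pos hX', abs_of_neg hY']
          field_simp
          ring
      have hmem : (∑ z, w a b z • P z) ∈
          Submodule.span ℝ ({P a, P b, ee P, P u} : Set W) := by
        by_contra hnot
        obtain ⟨f, hf, hle⟩ := Submodule.exists_le_ker_of_notMem hnot
        have hfv : ∀ v ∈ ({P a, P b, ee P, P u} : Set W), f v = 0 := fun v hv => by
          simpa using hle (Submodule.subset_span hv)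
        obtain ⟨c', hc'⟩ := hmul f (fun v hv => by
          simp only [Finset.mem_insert, Finset.mem_singleton] at hv
          rcases hv with rfl | rfl | rfl
          · exact hfv _ (by simp)
          · exact hfv _ (by simp)
          · exact hfv _ (by simp)) (hfv _ (by simp))
        apply hf
        have hh : h (∑ z, w a b z • P z) = 0 := by
          have : H (∑ z, w a b z • P z) = c * h (∑ z, w a b z • P z) := by rw [hc]; rfl
          rw [hHS] at this
          exact (mul_eq_zero.1 this.symm).resolve_left hc0
        rw [hc', LinearMap.smul_apply, hh, smul_zero]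
      rw [Submodule.mem_span_insert] at hmem
      obtain ⟨c1, z1, hz1, h1⟩ := hmem
      rw [Submodule.mem_span_insert] at hz1
      obtain ⟨c2, z2, hz2, h2⟩ := hz1
      rw [Submodule.mem_span_pair] at hz2
      obtain ⟨c3, c4, h3⟩ := hz2
      refine ⟨c1, c2, c3, c4, ?_, fun hz => ?_⟩
      · rw [h1, h2, ← h3]
        module
      · exact absurd (hz x) ((hwne a b x).2 ⟨by rw [hins]; exact hxF, hcd x hx⟩)
  choose c1 c2 c3 c4 hrel hzero using hrel
  refine ⟨w, fun a b => (c1 a b + c2 b a) / 2, fun a b => (c3 a b + c3 b a) / 2,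
    fun a b => (c4 a b + c4 b a) / 2, ⟨hwnn, hw12, hw23, fun a b => by ring, ?_, ?_⟩, hwne⟩
  · intro a b
    have h1 := hrel a b
    have h2 := hrel b a
    have h3 : ∑ x, w b a x • P x = ∑ x, w a b x • P x :=
      Finset.sum_congr rfl fun x _ => by rw [hw12 a b x]
    rw [h3] at h2
    have h4 : ∑ x, w a b x • P x = (1 / 2 : ℝ) • (∑ x, w a b x • P x) +
        (1 / 2 : ℝ) • (∑ x, w a b x • P x) := by module
    rw [h4]
    nth_rewrite 1 [h1]
    rw [h2]
    module
  · intro a b hz
    have hz' : ∀ x, w b a x = 0 := fun x => by rw [← hw12 a b x]; exact hz x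
    obtain ⟨h1, h2, h3, h4⟩ := hzero a b hz
    obtain ⟨h1', h2', h3', h4'⟩ := hzero b a hz'
    simp only [h1, h3, h4, h2', h3', h4']
    norm_num

end Pool.Agent.Lib.MP_36627d_co
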